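import Pool.Agent.Lib.MP_a0a715_lc_TL.Next

/-!
# The values computed by the circuit for the next solution
-/

namespace Pool.Agent.MPa0a715.TL

open Pool.Agent.MPa0a715 Pool.Agent.PolyTime

/-- the input of copy `k` -/
def inp (n : ℕ) (x : List Bool) (k : ℕ) : List Bool := if k < n then flip x k else x

section
variable {C : Circuit} {E : Name → Bool} {x : List Bool}

theorem length_inp {n k : ℕ} : (inp n x k).length = x.length := by
  unfold inp
  split_ifs
  · exact length_flip x k
  · rfl

variable (hC : C.Valid) (hn : 0 < C.n) (hx : x.length = C.n)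
  (hE : ∀ g ∈ toG 1 (nblocks C.n C.gates C.outs), GSat E g)
  (h0 : ∀ i < C.n, E (0, i) = x.getD i false)

include hE h0 in
theorem n1 {i : ℕ} (hi : i < C.n) : E (1, i) = !x.getD i false := by
  rw [← h0 i hi]
  exact sat_not (sat_blocks hE (i := 0) rfl i hi)

include hE h0 hn in
theorem n2 : E (2, 0) = false := by
  have h := sat_and (sat_blocks hE (i := 1) rfl 0 Nat.one_pos)
  rw [List.forall_mem_cons, List.forall_mem_cons, forall_nil, and_true, h0 0 hn,
    n1 hE h0 hn] at h
  rw [← Bool.not_eq_true]
  intro hcon
  have h1 := h.1 hcon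
  revert h1
  cases x.getD 0 false <;> simp

include hC hx hE h0 in
/-- the copies compute the given circuit -/
theorem n3 {k : ℕ} (hk : k ≤ C.n) (t : ℕ) (ht : t < C.n + C.gates.length) :
    E (3, (C.n + 1) * t + k) = C.env (inp C.n x k) t := by
  induction t using Nat.strong_induction_on with
  | _ t ih =>
    have hlt : (C.n + 1) * t + k < (C.n + 1) * (C.n + C.gates.length) := pair_lt ht hk
    have hg := sat_blocks hE (i := 2) rfl _ hlt
    change GSat E ((3, (C.n + 1) * t + k), cpf C.n C.gates ((C.n + 1) * t + k)) at hg
    unfold cpf at hg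
    rw [pair_div hk, pair_mod hk] at hg
    have hlen : (inp C.n x k).length = C.n := by rw [length_inp, hx]
    by_cases htn : t < C.n
    · rw [if_pos htn] at hg
      have hg' := sat_and hg
      rw [List.forall_mem_cons, forall_nil, and_true] at hg'
      rw [Circuit.env_input C (by omega)]
      by_cases hkt : k = t
      · rw [if_pos hkt] at hg'
        rw [Bool.eq_iff_iff, hg', n1 hE h0 htn]
        unfold inp
        rw [if_pos (by omega), getD_flip _ _ _ (by omega), if_pos hkt]
      · rw [if_neg hkt] at hg'
        rw [Bool.eq_iff_iff, hg', h0 t htn]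
        unfold inp
        split_ifs
        · rw [getD_flip _ _ _ (by omega), if_neg hkt]
        · rfl
    · obtain ⟨q, rfl⟩ : ∃ q, t = C.n + q := ⟨t - C.n, by omega⟩
      have hq : q < C.gates.length := by omega
      rw [if_neg htn, Nat.add_sub_cancel_left, List.getElem?_eq_getElem hq] at hg
      have henv := Circuit.env_gate hC (x := inp C.n x k) hlen hq
      rw [henv]
      have hrefs := hC.1 q hq
      generalize C.gates[q] = g at hg hrefs
      cases g with
      | and i j =>
        have hi := hrefs i (by simp [Gate.refs])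
        have hj := hrefs j (by simp [Gate.refs])
        have hg' := sat_and hg
        rw [List.forall_mem_cons, List.forall_mem_cons, forall_nil, and_true,
          ih i hi (by omega), ih j hj (by omega)] at hg'
        rw [Bool.eq_iff_iff, hg']
        simp only [Gate.evalW, Bool.and_eq_true]
      | or i j =>
        have hi := hrefs i (by simp [Gate.refs])
        have hj := hrefs j (by simp [Gate.refs])
        have hg' := sat_or hg
        rw [exists_cons, exists_cons, exists_nil, or_false,
          ih i hi (by omega), ih j hj (by omega)] at hg'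
        rw [Bool.eq_iff_iff, hg']
        simp only [Gate.evalW, Bool.or_eq_true]
      | not i =>
        have hi := hrefs i (by simp [Gate.refs])
        have hg' := sat_not hg
        rw [hg', ih i hi (by omega)]
        rfl

theorem out_lt (hC : C.Valid) {j : ℕ} (hj : j < C.outs.length) :
    C.outs.getD j 0 < C.n + C.gates.length := by
  rw [List.getD_eq_getElem _ _ hj]
  exact (hC.2 _ (List.getElem_mem hj)).2

theorem out_getD' {X : List Bool} {j : ℕ} (hj : j < C.outs.length) :
    (C.out X).getD j false = C.env X (C.outs.getD j 0) := by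
  unfold Circuit.out
  rw [List.getD_eq_getElem _ _ (by rw [List.length_map]; exact hj), List.getElem_map,
    List.getD_eq_getElem _ _ hj]

include hC hx hE h0 in
theorem n3' {k : ℕ} (hk : k ≤ C.n) {j : ℕ} (hj : j < C.outs.length) :
    E (3, (C.n + 1) * C.outs.getD j 0 + k) = (C.out (inp C.n x k)).getD j false := by
  rw [n3 hC hx hE h0 hk _ (out_lt hC hj), out_getD' hj]

include hC hx hE h0 in
theorem n4 {k : ℕ} (hk : k ≤ C.n) {j : ℕ} (hj : j < C.outs.length) :
    E (4, (C.n + 1) * j + k) = !(C.out (inp C.n x k)).getD j false := by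
  have hlt : (C.n + 1) * j + k < (C.n + 1) * C.outs.length := pair_lt hj hk
  have hg := sat_blocks hE (i := 3) rfl _ hlt
  change GSat E ((4, (C.n + 1) * j + k), (none, [(3, (C.n + 1) *
    C.outs.getD (((C.n + 1) * j + k) / (C.n + 1)) 0 + ((C.n + 1) * j + k) % (C.n + 1))])) at hg
  rw [pair_div hk, pair_mod hk] at hg
  rw [sat_not hg, n3' hC hx hE h0 hk hj]

include hC hx hE h0 in
theorem n7 {k : ℕ} (hk : k ≤ C.n) {j : ℕ} (hj : j < C.outs.length) :
    E (7, (C.n + 1) * j + k) = true ↔
      (C.out (inp C.n x k)).getD j false = (C.out (inp C.n x C.n)).getD j false := by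
  have hlt : (C.n + 1) * j + k < (C.n + 1) * C.outs.length := pair_lt hj hk
  have h5 : E (5, (C.n + 1) * j + k) = true ↔ (C.out (inp C.n x k)).getD j false = true ∧
      (C.out (inp C.n x C.n)).getD j false = true := by
    have hg := sat_and (sat_blocks hE (i := 4) rfl _ hlt)
    rw [List.forall_mem_cons, List.forall_mem_cons, forall_nil, and_true, pair_div hk,
      pair_mod hk, n3' hC hx hE h0 hk hj, n3' hC hx hE h0 le_rfl hj] at hg
    exact hg
  have h6 : E (6, (C.n + 1) * j + k) = true ↔ (C.out (inp C.n x k)).getD j false = false ∧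
      (C.out (inp C.n x C.n)).getD j false = false := by
    have hg := sat_and (sat_blocks hE (i := 5) rfl _ hlt)
    rw [List.forall_mem_cons, List.forall_mem_cons, forall_nil, and_true, pair_div hk,
      n4 hC hx hE h0 hk hj, n4 hC hx hE h0 le_rfl hj] at hg
    rw [show (6, (C.n + 1) * j + k) = (1 + 5, (C.n + 1) * j + k) from rfl, hg]
    simp only [Bool.not_eq_true']
  have hg := sat_or (sat_blocks hE (i := 6) rfl _ hlt)
  rw [exists_cons, exists_cons, exists_nil, or_false, h5, h6] at hg
  rw [show (7, (C.n + 1) * j + k) = (1 + 6, (C.n + 1) * j + k) from rfl, hg]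
  cases (C.out (inp C.n x k)).getD j false <;>
    cases (C.out (inp C.n x C.n)).getD j false <;> simp

include hC hx hE h0 in
theorem n8 {k : ℕ} (hk : k ≤ C.n) {j : ℕ} (hj : j < C.outs.length) :
    E (8, (C.n + 1) * j + k) = true ↔
      (C.out (inp C.n x k)).getD j false = false ∧
      (C.out (inp C.n x C.n)).getD j false = true ∧
      ∀ j' < C.outs.length, j < j' →
        (C.out (inp C.n x k)).getD j' false = (C.out (inp C.n x C.n)).getD j' false := by
  have hlt : (C.n + 1) * j + k < (C.n + 1) * C.outs.length := pair_lt hj hk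
  have hg := sat_and (sat_blocks hE (i := 7) rfl _ hlt)
  rw [List.forall_mem_cons, List.forall_mem_cons, forall_ws, pair_div hk,
      pair_mod hk, n3' hC hx hE h0 le_rfl hj, n4 hC hx hE h0 hk hj] at hg
  rw [show (8, (C.n + 1) * j + k) = (1 + 7, (C.n + 1) * j + k) from rfl, hg,
    Bool.not_eq_true']
  refine and_congr_right fun _ => and_congr_right fun _ => ?_
  constructor
  · intro h j' hj' hlt
    refine (n7 hC hx hE h0 hk hj').1 (h _ ?_)
    exact List.mem_map.2 ⟨j', List.mem_filter.2 ⟨List.mem_range.2 hj', decide_eq_true hlt⟩, rfl⟩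
  · intro h t ht
    obtain ⟨j', hj', rfl⟩ := List.mem_map.1 ht
    obtain ⟨h1, h2⟩ := List.mem_filter.1 hj'
    exact (n7 hC hx hE h0 hk (List.mem_range.1 h1)).2
      (h j' (List.mem_range.1 h1) (of_decide_eq_true h2))

theorem length_out (X : List Bool) : (C.out X).length = C.outs.length := by
  unfold Circuit.out
  rw [List.length_map]

include hC hn hx hE h0 in
theorem n9 {k : ℕ} (hk : k < C.n) :
    E (9, k) = true ↔ val (C.out (flip x k)) < val (C.out x) := by
  have hg := sat_or (sat_blocks hE (i := 8) rfl _ hk)
  rw [exists_cons, exists_ws, n2 hn hE h0] at hg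
  rw [show (9, k) = (1 + 8, k) from rfl, hg, MPa0a715.val_lt_iff _ _
    (by rw [length_out, length_out]), length_out]
  have e1 : inp C.n x k = flip x k := by
    unfold inp
    rw [if_pos hk]
  have e2 : inp C.n x C.n = x := by
    unfold inp
    rw [if_neg (by omega)]
  constructor
  · rintro (h | ⟨t, ht, h⟩)
    · exact absurd h (by simp)
    · obtain ⟨j, hj, rfl⟩ := List.mem_map.1 ht
      rw [List.mem_range] at hj
      rw [n8 hC hx hE h0 (by omega) hj, e1, e2] at h
      exact ⟨j, hj, h.1, h.2.1, h.2.2⟩
  · rintro ⟨j, hj, h1, h2, h3⟩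
    right
    refine ⟨_, List.mem_map.2 ⟨j, List.mem_range.2 hj, rfl⟩, ?_⟩
    rw [n8 hC hx hE h0 (by omega) hj, e1, e2]
    exact ⟨h1, h2, h3⟩

include hC hn hx hE h0 in
theorem n11 {k : ℕ} (hk : k < C.n) :
    E (11, k) = true ↔ val (C.out (flip x k)) < val (C.out x) ∧
      ∀ k' < k, ¬ val (C.out (flip x k')) < val (C.out x) := by
  have hg := sat_and (sat_blocks hE (i := 10) rfl _ hk)
  rw [List.forall_mem_cons, forall_ws, n9 hC hn hx hE h0 hk] at hg
  rw [show (11, k) = (1 + 10, k) from rfl, hg]
  refine and_congr_right fun _ => ?_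
  have h10 : ∀ k' < C.n, E (10, k') = true ↔ ¬ val (C.out (flip x k')) < val (C.out x) := by
    intro k' hk'
    have h := sat_not (sat_blocks hE (i := 9) rfl k' hk')
    rw [← n9 hC hn hx hE h0 hk', show (10, k') = (1 + 9, k') from rfl, h]
    simp
  constructor
  · intro h k' hk'
    exact (h10 k' (by omega)).1 (h k' (List.mem_filter.2 ⟨List.mem_range.2 (by omega),
      decide_eq_true hk'⟩))
  · intro h k' hk'
    rw [List.mem_filter, List.mem_range, decide_eq_true_eq] at hk'
    exact (h10 k' hk'.1).2 (h k' hk'.2)

include hE h0 in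
theorem n15 {i : ℕ} (hi : i < C.n) : E (15, i) = (x.getD i false != E (11, i)) := by
  have h12 := sat_not (sat_blocks hE (i := 11) rfl i hi)
  have h13 := sat_and (sat_blocks hE (i := 12) rfl i hi)
  have h14 := sat_and (sat_blocks hE (i := 13) rfl i hi)
  have h15 := sat_or (sat_blocks hE (i := 14) rfl i hi)
  rw [List.forall_mem_cons, List.forall_mem_cons, forall_nil, and_true] at h13 h14
  rw [exists_cons, exists_cons, exists_nil, or_false] at h15
  rw [h0 i hi] at h13
  rw [n1 hE h0 hi] at h14
  rw [Bool.eq_iff_iff, show (15, i) = (1 + 14, i) from rfl, h15,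
    show (13, i) = (1 + 12, i) from rfl, show (14, i) = (1 + 13, i) from rfl, h13, h14,
    show (12, i) = (1 + 11, i) from rfl, h12]
  cases x.getD i false <;> cases E (11, i) <;> simp

end

section
variable {C : Circuit}

theorem next_wf (hC : C.Valid) (hn : 0 < C.n) :
    WF (inNames C.n) (toG 1 (nblocks C.n C.gates C.outs)) :=
  wf_blocks (nblocks_ok hn hC.1 hC.2)

theorem next_outs (hC : C.Valid) {o : Name} (ho : o ∈ nouts C.n C.outs) :
    o ∈ (toG 1 (nblocks C.n C.gates C.outs)).map Prod.fst := by
  unfold nouts at ho
  rcases List.mem_append.1 ho with ho | ho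
  · obtain ⟨h1, h2⟩ := mem_ws.1 ho
    exact toG_names.2 ⟨14, _, rfl, by omega, List.mem_range.1 h2⟩
  · obtain ⟨h1, h2⟩ := mem_ws.1 ho
    refine toG_names.2 ⟨2, _, rfl, by omega, ?_⟩
    obtain ⟨j, hj, h3⟩ := List.mem_map.1 h2
    rw [← h3]
    exact pair_lt (out_lt hC (List.mem_range.1 hj)) le_rfl

theorem nextC_valid (hC : C.Valid) (hn : 0 < C.n) : (nextC C).Valid :=
  compile_valid (next_wf hC hn) fun _ ho => next_outs hC ho

theorem nextC_n : (nextC C).n = C.n := length_inNames C.n

theorem nextC_outs_length : (nextC C).outs.length = C.n + C.outs.length := by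
  unfold nextC compile nouts ws
  simp

/-- what the circuit computes -/
theorem nextC_out (hC : C.Valid) (hn : 0 < C.n) {x : List Bool} (hx : x.length = C.n) :
    ∃ y : List Bool, (nextC C).out x = y ++ C.out x ∧ y.length = C.n ∧
      ((y = x ∧ C.IsLocalMin x) ∨ C.cost y < C.cost x) := by
  have hx' : x.length = (inNames C.n).length := by rw [length_inNames, hx]
  have hE := compile_sat (next_wf hC hn) (fun o ho => next_outs hC (o := o) ho) hx'
  have hout : (nextC C).out x = (nouts C.n C.outs).map
      (cenv (inNames C.n) (toG 1 (nblocks C.n C.gates C.outs)) (nouts C.n C.outs) x) :=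
    compile_out x
  have h0 : ∀ i < C.n, (cenv (inNames C.n) (toG 1 (nblocks C.n C.gates C.outs))
      (nouts C.n C.outs) x) (0, i) = x.getD i false := by
    intro i hi
    have h1 := cenv_input (outs := nouts C.n C.outs) (next_wf hC hn) hx' (i := i)
      (by rw [length_inNames]; exact hi)
    have h2 : (inNames C.n)[i]'(by rw [length_inNames]; exact hi) = (0, i) := by
      unfold inNames
      rw [List.getElem_map, List.getElem_range]
    rw [h2] at h1
    exact h1
  generalize cenv (inNames C.n) (toG 1 (nblocks C.n C.gates C.outs)) (nouts C.n C.outs) x = E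
    at hE h0 hout
  refine ⟨(List.range C.n).map fun i => E (15, i), ?_, by simp, ?_⟩
  · rw [hout]
    unfold nouts ws
    rw [List.map_append, List.map_map, List.map_map, List.map_map]
    congr 1
    refine List.ext_getElem (by simp [length_out]) fun j h1 h2 => ?_
    have hj : j < C.outs.length := by rw [length_out] at h2; exact h2
    rw [List.getElem_map, List.getElem_range]
    have h3 := n3' hC hx hE h0 (k := C.n) le_rfl hj
    have e2 : inp C.n x C.n = x := by
      unfold inp
      rw [if_neg (by omega)]
    rw [e2, List.getD_eq_getElem _ _ h2] at h3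
    exact h3
  · by_cases h : ∃ k < C.n, val (C.out (flip x k)) < val (C.out x)
    · right
      classical
      obtain ⟨k, ⟨hk1, hk2⟩, hk3⟩ : ∃ k, (k < C.n ∧ val (C.out (flip x k)) < val (C.out x)) ∧
          ∀ k' < k, ¬ (k' < C.n ∧ val (C.out (flip x k')) < val (C.out x)) :=
        ⟨Nat.find h, Nat.find_spec h, fun k' hk' => Nat.find_min h hk'⟩
      have hy : (List.range C.n).map (fun i => E (15, i)) = flip x k := by
        refine ext_getD (by rw [length_flip]; simp [hx]) fun i hi => ?_
        have hi' : i < C.n := by simpa using hi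
        rw [List.getD_eq_getElem _ _ hi, List.getElem_map, List.getElem_range,
          n15 hE h0 hi', getD_flip _ _ _ (by omega)]
        by_cases hik : k = i
        · rw [if_pos hik, (n11 hC hn hx hE h0 hi').2]
          · cases x.getD i false <;> rfl
          · rw [← hik]
            exact ⟨hk2, fun k' hk' h' => hk3 k' hk' ⟨by omega, h'⟩⟩
        · rw [if_neg hik]
          have : E (11, i) = false := by
            rw [← Bool.not_eq_true, n11 hC hn hx hE h0 hi']
            rintro ⟨h1, h2⟩
            rcases Nat.lt_or_gt_of_ne hik with h3 | h3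
            · exact h2 k h3 hk2
            · exact hk3 i h3 ⟨hi', h1⟩
          rw [this]
          cases x.getD i false <;> rfl
      rw [hy, Circuit.cost_eq, Circuit.cost_eq]
      omega
    · left
      push Not at h
      have hy : (List.range C.n).map (fun i => E (15, i)) = x := by
        refine ext_getD (by simp [hx]) fun i hi => ?_
        have hi' : i < C.n := by simpa using hi
        rw [List.getD_eq_getElem _ _ hi, List.getElem_map, List.getElem_range,
          n15 hE h0 hi']
        have : E (11, i) = false := by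
          rw [← Bool.not_eq_true, n11 hC hn hx hE h0 hi']
          rintro ⟨h1, _⟩
          have := h i hi'
          omega
        rw [this]
        cases x.getD i false <;> rfl
      refine ⟨hy, hx, fun i hi => ?_⟩
      have := h i hi
      rw [Circuit.cost_eq, Circuit.cost_eq]
      omega

end

end Pool.Agent.MPa0a715.TL
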