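import Pool.Agent.Lib.MP_a0a715_lc.Copies

/-!
# A circuit computing the first better neighbour and the outputs
-/

namespace Pool.Agent.MPa0a715.TL

open Pool.Agent.MPa0a715 Pool.Agent.PolyTime

/-- gates of the copies of the given circuit: gate `(n + 1) * t + k` is wire `t` for the input
with bit `k` flipped (nothing flipped for `k = n`) -/
def cpf (n : ℕ) (G : List Gate) (t : ℕ) : Option Bool × List Name :=
  if t / (n + 1) < n then
    (some true, [(if t % (n + 1) = t / (n + 1) then 1 else 0, t / (n + 1))])
  else
    match G[t / (n + 1) - n]? with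
    | none => (some true, [(0, 0)])
    | some (.and i j) =>
      (some true, [(3, (n + 1) * i + t % (n + 1)), (3, (n + 1) * j + t % (n + 1))])
    | some (.or i j) =>
      (some false, [(3, (n + 1) * i + t % (n + 1)), (3, (n + 1) * j + t % (n + 1))])
    | some (.not i) => (none, [(3, (n + 1) * i + t % (n + 1))])

/-- the blocks -/
def nblocks (n : ℕ) (G : List Gate) (O : List ℕ) : List Blk :=
  [ (n, fun i => (none, [(0, i)])),
    one (some true) [(0, 0), (1, 0)],
    ((n + 1) * (n + G.length), cpf n G),
    ((n + 1) * O.length, fun t => (none, [(3, (n + 1) * O.getD (t / (n + 1)) 0 + t % (n + 1))])),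
    ((n + 1) * O.length, fun t => (some true, [(3, (n + 1) * O.getD (t / (n + 1)) 0 +
      t % (n + 1)), (3, (n + 1) * O.getD (t / (n + 1)) 0 + n)])),
    ((n + 1) * O.length, fun t => (some true, [(4, t), (4, (n + 1) * (t / (n + 1)) + n)])),
    ((n + 1) * O.length, fun t => (some false, [(5, t), (6, t)])),
    ((n + 1) * O.length, fun t => (some true, (4, t) ::
      (3, (n + 1) * O.getD (t / (n + 1)) 0 + n) ::
      ws 7 (((List.range O.length).filter (fun j => decide (t / (n + 1) < j))).map
        (fun j => (n + 1) * j + t % (n + 1))))),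
    (n, fun k => (some false, (2, 0) :: ws 8 ((List.range O.length).map
      (fun j => (n + 1) * j + k)))),
    (n, fun k => (none, [(9, k)])),
    (n, fun k => (some true, (9, k) :: ws 10 ((List.range n).filter
      (fun j => decide (j < k))))),
    (n, fun k => (none, [(11, k)])),
    (n, fun i => (some true, [(0, i), (12, i)])),
    (n, fun i => (some true, [(1, i), (11, i)])),
    (n, fun i => (some false, [(13, i), (14, i)])) ]

/-- the outputs: the next solution and the outputs of the given circuit -/
def nouts (n : ℕ) (O : List ℕ) : List Name :=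
  ws 15 (List.range n) ++
    ws 3 ((List.range O.length).map (fun j => (n + 1) * O.getD j 0 + n))

/-- the circuit -/
def nextC (C : Circuit) : Circuit :=
  compile (inNames C.n) (toG 1 (nblocks C.n C.gates C.outs)) (nouts C.n C.outs)

section
variable {n : ℕ} {G : List Gate} {O : List ℕ}

theorem ncnt0 : cnt n (nblocks n G O) 0 = n := rfl
theorem ncnt1 : cnt n (nblocks n G O) 1 = n := rfl
theorem ncnt2 : cnt n (nblocks n G O) 2 = 1 := rfl
theorem ncnt3 : cnt n (nblocks n G O) 3 = (n + 1) * (n + G.length) := rfl
theorem ncnt4 : cnt n (nblocks n G O) 4 = (n + 1) * O.length := rfl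
theorem ncnt5 : cnt n (nblocks n G O) 5 = (n + 1) * O.length := rfl
theorem ncnt6 : cnt n (nblocks n G O) 6 = (n + 1) * O.length := rfl
theorem ncnt7 : cnt n (nblocks n G O) 7 = (n + 1) * O.length := rfl
theorem ncnt8 : cnt n (nblocks n G O) 8 = (n + 1) * O.length := rfl
theorem ncnt9 : cnt n (nblocks n G O) 9 = n := rfl
theorem ncnt10 : cnt n (nblocks n G O) 10 = n := rfl
theorem ncnt11 : cnt n (nblocks n G O) 11 = n := rfl
theorem ncnt12 : cnt n (nblocks n G O) 12 = n := rfl
theorem ncnt13 : cnt n (nblocks n G O) 13 = n := rfl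
theorem ncnt14 : cnt n (nblocks n G O) 14 = n := rfl
theorem ncnt15 : cnt n (nblocks n G O) 15 = n := rfl

/-- index arithmetic -/
theorem pair_lt {n a b k : ℕ} (h : a < b) (hk : k ≤ n) : (n + 1) * a + k < (n + 1) * b := by
  have : (n + 1) * (a + 1) ≤ (n + 1) * b := Nat.mul_le_mul_left _ h
  rw [Nat.mul_add, Nat.mul_one] at this
  omega

theorem pair_div {n a k : ℕ} (hk : k ≤ n) : ((n + 1) * a + k) / (n + 1) = a := by
  rw [Nat.mul_add_div (Nat.succ_pos n), Nat.div_eq_of_lt (by omega), Nat.add_zero]

theorem pair_mod {n a k : ℕ} (hk : k ≤ n) : ((n + 1) * a + k) % (n + 1) = k := by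
  rw [Nat.mul_add_mod, Nat.mod_eq_of_lt (by omega)]

theorem nblocks_ok (hn : 0 < n)
    (hG : ∀ (k : ℕ) (h : k < G.length), ∀ r ∈ G[k].refs, r < n + k)
    (hO : ∀ o ∈ O, n ≤ o ∧ o < n + G.length) :
    AllB (BlkOK n (nblocks n G O)) 1 (nblocks n G O) := by
  have hO' : ∀ t, t < (n + 1) * O.length → O.getD (t / (n + 1)) 0 < n + G.length := by
    intro t ht
    have hr : t / (n + 1) < O.length := by
      rw [Nat.div_lt_iff_lt_mul (Nat.succ_pos n), Nat.mul_comm]
      exact ht
    rw [List.getD_eq_getElem _ _ hr]
    exact (hO _ (List.getElem_mem hr)).2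
  have hmod : ∀ t, t % (n + 1) ≤ n := fun t =>
    Nat.le_of_lt_succ (Nat.mod_lt t (Nat.succ_pos n))
  have hz1 : ∀ t, t < (n + 1) * O.length →
      (n + 1) * O.getD (t / (n + 1)) 0 + t % (n + 1) < (n + 1) * (n + G.length) := fun t ht =>
    pair_lt (hO' t ht) (hmod t)
  have hz2 : ∀ t, t < (n + 1) * O.length →
      (n + 1) * O.getD (t / (n + 1)) 0 + n < (n + 1) * (n + G.length) := fun t ht =>
    pair_lt (hO' t ht) le_rfl
  have hdiv : ∀ t, t < (n + 1) * O.length → (n + 1) * (t / (n + 1)) + n < (n + 1) * O.length := by
    intro t ht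
    refine pair_lt ?_ le_rfl
    rw [Nat.div_lt_iff_lt_mul (Nat.succ_pos n), Nat.mul_comm]
    exact ht
  have hcp : BlkOK n (nblocks n G O) 3 ((n + 1) * (n + G.length), cpf n G) := by
    intro t ht
    change t < (n + 1) * (n + G.length) at ht
    change (cpf n G t).2 ≠ [] ∧ ∀ r ∈ (cpf n G t).2, _
    have htd : t / (n + 1) < n + G.length := by
      rw [Nat.div_lt_iff_lt_mul (Nat.succ_pos n), Nat.mul_comm]
      exact ht
    have hsplit : (n + 1) * (t / (n + 1)) + t % (n + 1) = t := Nat.div_add_mod t (n + 1)
    have hmt := hmod t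
    generalize t / (n + 1) = a at htd hsplit
    generalize t % (n + 1) = k at hsplit hmt
    unfold cpf
    subst hsplit
    rw [pair_div hmt, pair_mod hmt]
    by_cases h1 : a < n
    · rw [if_pos h1]
      refine ⟨List.cons_ne_nil _ _, ?_⟩
      intro r hr
      rw [List.mem_singleton] at hr
      subst hr
      by_cases h2 : k = a
      · rw [if_pos h2]
        exact ⟨h1, Or.inl (by simp)⟩
      · rw [if_neg h2]
        exact ⟨h1, Or.inl (by simp)⟩
    · rw [if_neg h1]
      have hk : a - n < G.length := by omega
      have hr := hG _ hk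
      rw [List.getElem?_eq_getElem hk]
      generalize G[a - n] = g at hr
      have key : ∀ i, i < n + (a - n) → ((3, (n + 1) * i + k) : Name).2 <
          cnt n (nblocks n G O) ((3, (n + 1) * i + k) : Name).1 ∧
          nlt ((3, (n + 1) * i + k) : Name) (3, (n + 1) * a + k) := by
        intro i hi
        have hia : i < a := by omega
        refine ⟨?_, Or.inr ⟨rfl, ?_⟩⟩
        · rw [ncnt3]
          exact pair_lt (by omega) hmt
        · have := pair_lt (k := k) hia hmt
          change (n + 1) * i + k < (n + 1) * a + k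
          omega
      cases g with
      | and i j =>
        have h5 := key i (hr i (by simp [Gate.refs]))
        have h6 := key j (hr j (by simp [Gate.refs]))
        refine ⟨List.cons_ne_nil _ _, ?_⟩
        simp only [List.forall_mem_cons, List.not_mem_nil, false_imp_iff, implies_true, and_true]
        exact ⟨h5, h6⟩
      | or i j =>
        have h5 := key i (hr i (by simp [Gate.refs]))
        have h6 := key j (hr j (by simp [Gate.refs]))
        refine ⟨List.cons_ne_nil _ _, ?_⟩
        simp only [List.forall_mem_cons, List.not_mem_nil, false_imp_iff, implies_true, and_true]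
        exact ⟨h5, h6⟩
      | not i =>
        have h5 := key i (hr i (by simp [Gate.refs]))
        refine ⟨List.cons_ne_nil _ _, ?_⟩
        simp only [List.forall_mem_cons, List.not_mem_nil, false_imp_iff, implies_true, and_true]
        exact h5
  refine ⟨?_, ?_, hcp, ?_, ?_, ?_, ?_, ?_, ?_, ?_, ?_, ?_, ?_, ?_, ?_, trivial⟩
  all_goals
    intro i hi
    have hi' := hi
    simp only [one] at hi'
    refine ⟨List.cons_ne_nil _ _, ?_⟩
  · simp only [List.forall_mem_cons, List.not_mem_nil, false_imp_iff, implies_true,
      and_true, ncnt0, nlt]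
    omega
  · simp only [one, List.forall_mem_cons, List.not_mem_nil, false_imp_iff, implies_true,
      and_true, ncnt0, ncnt1, nlt]
    omega
  · have := hz1 i hi
    simp only [List.forall_mem_cons, List.not_mem_nil, false_imp_iff, implies_true,
      and_true, ncnt3, nlt]
    omega
  · have := hz1 i hi
    have := hz2 i hi
    simp only [List.forall_mem_cons, List.not_mem_nil, false_imp_iff, implies_true,
      and_true, ncnt3, nlt]
    omega
  · have := hdiv i hi
    simp only [List.forall_mem_cons, List.not_mem_nil, false_imp_iff, implies_true,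
      and_true, ncnt4, nlt]
    omega
  · simp only [List.forall_mem_cons, List.not_mem_nil, false_imp_iff, implies_true,
      and_true, ncnt5, ncnt6, nlt]
    omega
  · have := hz2 i hi
    simp only [List.forall_mem_cons, ncnt3, ncnt4, nlt, forall_ws, List.mem_map,
      List.mem_filter, List.mem_range]
    refine ⟨by omega, by omega, ?_⟩
    rintro j ⟨j', ⟨hj', _⟩, rfl⟩
    rw [ncnt7]
    exact ⟨pair_lt hj' (hmod i), Or.inl (by simp)⟩
  · simp only [List.forall_mem_cons, ncnt2, nlt, forall_ws, List.mem_map, List.mem_range]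
    refine ⟨by omega, ?_⟩
    rintro j ⟨j', hj', rfl⟩
    rw [ncnt8]
    exact ⟨pair_lt hj' (Nat.le_of_lt hi), Or.inl (by simp)⟩
  · simp only [List.forall_mem_cons, List.not_mem_nil, false_imp_iff, implies_true,
      and_true, ncnt9, nlt]
    omega
  · simp only [List.forall_mem_cons, ncnt9, ncnt10, nlt, forall_ws, List.mem_filter,
      List.mem_range, decide_eq_true_eq]
    refine ⟨by omega, ?_⟩
    rintro j ⟨hj, hj'⟩
    omega
  · simp only [List.forall_mem_cons, List.not_mem_nil, false_imp_iff, implies_true,
      and_true, ncnt11, nlt]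
    omega
  · simp only [List.forall_mem_cons, List.not_mem_nil, false_imp_iff, implies_true,
      and_true, ncnt0, ncnt12, nlt]
    omega
  · simp only [List.forall_mem_cons, List.not_mem_nil, false_imp_iff, implies_true,
      and_true, ncnt1, ncnt11, nlt]
    omega
  · simp only [List.forall_mem_cons, List.not_mem_nil, false_imp_iff, implies_true,
      and_true, ncnt13, ncnt14, nlt]
    omega

end

end Pool.Agent.MPa0a715.TL
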