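import Pool.Agent.Lib.MP_a0a715_lc.PTBlocks
import Pool.Agent.Lib.MP_a0a715_lc_TL.Next

/-!
# The circuit for the next solution is computed in polynomial time
-/

namespace Pool.Agent.MPa0a715.TL

open Pool.Agent.MPa0a715 Pool.Agent.PolyTime

section
variable {α β γ : Type} [Enc α] [Enc β] [Enc γ]

theorem ptime_cpf {n t : α → ℕ} {G : α → List Gate} (hn : PTime n) (ht : PTime t)
    (hG : PTime G) : PTime (fun a => cpf (n a) (G a) (t a)) := by
  have hn1 : PTime (fun a => n a + 1) := hn.add (PTime.const 1)
  have hq : PTime (fun a => t a / (n a + 1)) := ht.div hn1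
  have hr : PTime (fun a => t a % (n a + 1)) := ht.mod hn1
  have hnil : PTime (fun _ : α => ([] : List Name)) := PTime.const _
  have ht' : PTime (fun _ : α => (some true : Option Bool)) := PTime.const _
  have h1 : PTime (fun a => if t a % (n a + 1) = t a / (n a + 1) then 1 else 0) :=
    PTime.iteP (PTime.eq hr hq) (PTime.const 1) (PTime.const 0)
  have e1 : PTime (fun a => ((some true, [((if t a % (n a + 1) = t a / (n a + 1) then 1 else 0),
      t a / (n a + 1))]) : Option Bool × List Name)) := ht'.pair ((h1.pair hq).cons hnil)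
  have hg : PTime (fun a => (G a)[t a / (n a + 1) - n a]?) := PTime.getElem? hG (hq.sub hn)
  -- the case of gates
  have hc : PTime (fun p : α × Gate => p.2.code) := ptime_code PTime.snd
  have hk : PTime (fun p : α × Gate => p.2.code.1) := hc.fst'
  have hi : PTime (fun p : α × Gate => p.2.code.2.1) := hc.snd'.fst'
  have hj : PTime (fun p : α × Gate => p.2.code.2.2) := hc.snd'.snd'
  have hrp : PTime (fun p : α × Gate => t p.1 % (n p.1 + 1)) := hr.comp PTime.fst
  have hn1p : PTime (fun p : α × Gate => n p.1 + 1) := hn1.comp PTime.fst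
  have hnil' : PTime (fun _ : α × Gate => ([] : List Name)) := PTime.const _
  have ni : PTime (fun p : α × Gate =>
      ((3, (n p.1 + 1) * p.2.code.2.1 + t p.1 % (n p.1 + 1)) : Name)) :=
    (PTime.const 3).pair ((hn1p.mul hi).add hrp)
  have nj : PTime (fun p : α × Gate =>
      ((3, (n p.1 + 1) * p.2.code.2.2 + t p.1 % (n p.1 + 1)) : Name)) :=
    (PTime.const 3).pair ((hn1p.mul hj).add hrp)
  have f1 : PTime (fun p : α × Gate => ((some true,
      [(3, (n p.1 + 1) * p.2.code.2.1 + t p.1 % (n p.1 + 1)),
       (3, (n p.1 + 1) * p.2.code.2.2 + t p.1 % (n p.1 + 1))]) :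
      Option Bool × List Name)) :=
    (PTime.const (some true)).pair (ni.cons (nj.cons hnil'))
  have f2 : PTime (fun p : α × Gate => ((some false,
      [(3, (n p.1 + 1) * p.2.code.2.1 + t p.1 % (n p.1 + 1)),
       (3, (n p.1 + 1) * p.2.code.2.2 + t p.1 % (n p.1 + 1))]) :
      Option Bool × List Name)) :=
    (PTime.const (some false)).pair (ni.cons (nj.cons hnil'))
  have f3 : PTime (fun p : α × Gate => ((none,
      [(3, (n p.1 + 1) * p.2.code.2.1 + t p.1 % (n p.1 + 1))]) :
      Option Bool × List Name)) :=
    (PTime.const none).pair (ni.cons hnil')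
  have f := ptime_ite_eq hk (b := some true) f1 (ptime_ite_eq hk (b := some false) f2 f3)
  have h2 := PTime.option_cases hg (PTime.const ((some true, [(0, 0)]) :
    Option Bool × List Name)) f
  refine (PTime.iteP (PTime.lt hq hn) e1 h2).of_eq fun a => ?_
  unfold cpf
  congr 1
  cases (G a)[t a / (n a + 1) - n a]? with
  | none => rfl
  | some g => cases g <;> rfl

theorem ptime_nblocks {n : α → ℕ} {G : α → List Gate} {O : α → List ℕ} (hn : PU n)
    (hG : PTime G) (hO : PTime O) : PTime (fun a => toG 1 (nblocks (n a) (G a) (O a))) := by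
  have u1 : PU (fun a => n a + 1) := hn.add (PU.const 1)
  have u2 : PU (fun a => (n a + 1) * (n a + (G a).length)) := u1.mul (hn.add (PU.ofLength hG))
  have u3 : PU (fun a => (n a + 1) * (O a).length) := u1.mul (PU.ofLength hO)
  have u4 : PU (fun _ : α => 1) := PU.const 1
  have hi : PTime (fun p : α × ℕ => p.2) := PTime.snd
  have hn0 : PTime (fun p : α × ℕ => n p.1) := hn.toNat.comp PTime.fst
  have hn1 : PTime (fun p : α × ℕ => n p.1 + 1) := hn0.add (PTime.const 1)
  have hq : PTime (fun p : α × ℕ => p.2 / (n p.1 + 1)) := hi.div hn1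
  have hr : PTime (fun p : α × ℕ => p.2 % (n p.1 + 1)) := hi.mod hn1
  have hOq : PTime (fun p : α × ℕ => (O p.1).getD (p.2 / (n p.1 + 1)) 0) :=
    PTime.listGetD (hO.comp PTime.fst) hq (PTime.const 0)
  have rO : PTime (fun p : α × ℕ => List.range (O p.1).length) :=
    (PU.ofLength hO).range.comp PTime.fst
  have rk : PTime (fun p : α × ℕ => (List.range (n p.1)).filter (fun j => decide (j < p.2))) :=
    PTime.filter (g := fun (p : α × ℕ) (j : ℕ) => decide (j < p.2)) (hn.range.comp PTime.fst)
      (PTime.lt PTime.snd (hi.comp PTime.fst))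
  have hcp : PTime (fun p : α × ℕ => cpf (n p.1) (G p.1) p.2) :=
    ptime_cpf hn0 hi (hG.comp PTime.fst)
  have l8 : PTime (fun p : α × ℕ => ((List.range (O p.1).length).filter
      (fun j => decide (p.2 / (n p.1 + 1) < j))).map
        (fun j => (n p.1 + 1) * j + p.2 % (n p.1 + 1))) := by
    have e1 : PTime (fun p : α × ℕ => (List.range (O p.1).length).filter
        (fun j => decide (p.2 / (n p.1 + 1) < j))) :=
      PTime.filter (g := fun (p : α × ℕ) (j : ℕ) => decide (p.2 / (n p.1 + 1) < j)) rO
        (PTime.lt (hq.comp PTime.fst) PTime.snd)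
    exact PTime.map (g := fun (p : α × ℕ) (j : ℕ) => (n p.1 + 1) * j + p.2 % (n p.1 + 1)) e1
      (((hn1.comp PTime.fst).mul PTime.snd).add (hr.comp PTime.fst))
  have l9 : PTime (fun p : α × ℕ => (List.range (O p.1).length).map
      (fun j => (n p.1 + 1) * j + p.2)) :=
    PTime.map (g := fun (p : α × ℕ) (j : ℕ) => (n p.1 + 1) * j + p.2) rO
      (((hn1.comp PTime.fst).mul PTime.snd).add (hi.comp PTime.fst))
  unfold nblocks
  iterate 15
    refine ptime_toG_cons ?_ ?_ ?_
    · first
      | exact hn
      | exact u2
      | exact u3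
      | exact u4
    · try dsimp only [one]
      first
      | exact PTime.const _
      | exact hcp
      | (repeat' first
          | exact PTime.const _
          | exact hi
          | exact hn0
          | exact hn1
          | exact hq
          | exact hr
          | exact hOq
          | exact l8
          | exact l9
          | exact rk
          | apply ptime_ws
          | apply PTime.pair
          | apply PTime.cons
          | apply PTime.add
          | apply PTime.mul)
  exact PTime.const _

theorem ptime_nextC {f : α → Circuit} (hf : PTime f) : PTime (fun a => nextC (f a)) := by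
  have hn := pu_n hf
  have hG := ptime_gates hf
  have hO := ptime_outs hf
  have hin : PTime (fun a => inNames (f a).n) :=
    PTime.map (g := fun (_ : α) (i : ℕ) => ((0, i) : Name)) hn.range
      ((PTime.const 0).pair PTime.snd)
  have hout : PTime (fun a => nouts (f a).n (f a).outs) := by
    have e1 : PTime (fun a => (List.range (f a).outs.length).map
        (fun j => ((f a).n + 1) * (f a).outs.getD j 0 + (f a).n)) := by
      refine PTime.map (g := fun (a : α) (j : ℕ) => ((f a).n + 1) * (f a).outs.getD j 0 + (f a).n)
        (PU.ofLength hO).range ?_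
      have h1 : PTime (fun p : α × ℕ => (f p.1).n) := hn.toNat.comp PTime.fst
      exact ((h1.add (PTime.const 1)).mul (PTime.listGetD (hO.comp PTime.fst) PTime.snd
        (PTime.const 0))).add h1
    exact (ptime_ws hn.range).append (ptime_ws e1)
  exact ptime_compile hin (ptime_nblocks hn hG hO) hout

end

end Pool.Agent.MPa0a715.TL
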