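import Pool.Agent.Lib.MP_a0a715_lc_TL.Core5

/-!
# The list of all conjunctions in the order of their priorities
-/

namespace Pool.Agent.MPa0a715.TL

open Pool.Agent.MPa0a715

instance (X : Var → Bool) (T : Tm) : Decidable (tv X T) := by
  unfold tv
  infer_instance

/-- the state `X'` is better than `X` (the first conjunction is the most important one) -/
def Dec (X X' : Var → Bool) : List Tm → Prop
  | [] => False
  | T :: l => (tv X T ∧ ¬ tv X' T) ∨ ((tv X' T → tv X T) ∧ Dec X X' l)

/-- no conjunction of the list becomes true -/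
def NI (X X' : Var → Bool) (l : List Tm) : Prop := ∀ T ∈ l, tv X' T → tv X T

section
variable {X X' : Var → Bool} {A B : List Tm}

theorem Dec.left (h : Dec X X' A) : Dec X X' (A ++ B) := by
  induction A with
  | nil => exact h.elim
  | cons T A ih =>
    rcases h with h | ⟨h1, h2⟩
    · exact Or.inl h
    · exact Or.inr ⟨h1, ih h2⟩

theorem Dec.right (h : NI X X' A) (h' : Dec X X' B) : Dec X X' (A ++ B) := by
  induction A with
  | nil => exact h'
  | cons T A ih =>
    exact Or.inr ⟨h T List.mem_cons_self, ih fun T' hT' => h T' (List.mem_cons_of_mem _ hT')⟩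

theorem Dec.of_mem {T : Tm} (hT : T ∈ A) (h1 : tv X T) (h2 : ¬ tv X' T) (h : NI X X' A) :
    Dec X X' A := by
  induction A with
  | nil => exact absurd hT List.not_mem_nil
  | cons T' A ih =>
    rcases List.mem_cons.1 hT with rfl | hT
    · exact Or.inl ⟨h1, h2⟩
    · exact Or.inr ⟨h T' List.mem_cons_self, ih hT fun T'' h'' =>
        h T'' (List.mem_cons_of_mem _ h'')⟩

theorem Dec.flatten {l : List (List Tm)} {k : ℕ} (hk : k < l.length)
    (h1 : ∀ j (hj : j < l.length), j < k → NI X X' l[j]) (h2 : Dec X X' l[k]) :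
    Dec X X' l.flatten := by
  induction l generalizing k with
  | nil => exact absurd hk (by simp)
  | cons A l ih =>
    rw [List.flatten_cons]
    cases k with
    | zero => exact Dec.left h2
    | succ k =>
      refine Dec.right (h1 0 (by simp) (by omega)) (ih (k := k) (by simpa using hk) ?_ h2)
      intro j hj hjk
      exact h1 (j + 1) (by simpa using hj) (by omega)

theorem Dec.flatMap_range {g : ℕ → List Tm} {m k : ℕ} (hk : k < m)
    (h1 : ∀ j < k, NI X X' (g j)) (h2 : Dec X X' (g k)) :
    Dec X X' ((List.range m).flatMap g) := by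
  rw [List.flatMap_def]
  refine Dec.flatten (k := k) (by simpa using hk) ?_ ?_
  · intro j hj hjk
    rw [List.getElem_map, List.getElem_range]
    exact h1 j hjk
  · rw [List.getElem_map, List.getElem_range]
    exact h2

/-- the bits, the last one is the most important one -/
def bitsOf (X : Var → Bool) (l : List Tm) : List Bool := (l.map fun T => decide (tv X T)).reverse

theorem length_bitsOf (l : List Tm) : (bitsOf X l).length = l.length := by
  unfold bitsOf
  simp

theorem Dec.val_lt {l : List Tm} (h : Dec X X' l) : val (bitsOf X' l) < val (bitsOf X l) := by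
  induction l with
  | nil => exact h.elim
  | cons T l ih =>
    have e : ∀ Y : Var → Bool, val (bitsOf Y (T :: l)) =
        val (bitsOf Y l) + 2 ^ l.length * (decide (tv Y T)).toNat := by
      intro Y
      have : bitsOf Y (T :: l) = bitsOf Y l ++ [decide (tv Y T)] := by
        unfold bitsOf
        rw [List.map_cons, List.reverse_cons]
      rw [this, val_append, length_bitsOf]
      simp [val]
    rw [e, e]
    rcases h with ⟨h1, h2⟩ | ⟨h1, h2⟩
    · rw [decide_eq_true h1, decide_eq_false h2]
      have := MPa0a715.val_lt (bitsOf X' l)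
      rw [length_bitsOf] at this
      simp only [Bool.toNat_false, Bool.toNat_true, Nat.mul_zero, Nat.mul_one]
      omega
    · have h3 := ih h2
      have h4 : (decide (tv X' T)).toNat ≤ (decide (tv X T)).toNat := by
        by_cases h5 : tv X' T
        · rw [decide_eq_true h5, decide_eq_true (h1 h5)]
        · rw [decide_eq_false h5]
          exact Nat.zero_le _
      have := Nat.mul_le_mul_left (2 ^ l.length) h4
      omega

end

/-- variables controlled by the flag `e c` -/
def grpL (n W K : ℕ) (c : Bool) : List Var :=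
  (List.range W).map (.r c false) ++ ((List.range W).map (.r c true) ++
    ((List.range n).map (.d c) ++ (List.range K).map (.u c)))

/-- variables controlled by both flags -/
def dL (K : ℕ) : List Var :=
  (List.range K).map .f ++ ((List.range K).map (.p false) ++ (List.range K).map (.p true))

section
variable (n : ℕ) (G : List Gate) (K : ℕ) (w z : List ℕ)

/-- the conjunctions, the most important ones first -/
def segs : List (List Tm) :=
  [ [(Con.ee false).term w z, (Con.ee true).term w z],
    (List.range (n + G.length)).flatMap (fun t => imps n G false t ++ (imps n G true t ++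
      [(Con.ex false t).term w z, (Con.ex true t).term w z])),
    (List.range n).flatMap (fun i => [(Con.dd false false i).term w z,
      (Con.dd false true i).term w z, (Con.dd true false i).term w z,
      (Con.dd true true i).term w z]),
    (List.range (K - 1)).flatMap (fun k => [(Con.ff (K - 2 - k)).term w z,
      (Con.fg false (K - 2 - k)).term w z, (Con.fg true (K - 2 - k)).term w z]),
    (List.range K).flatMap (fun j => [(Con.p1 false j).term w z, (Con.p1 true j).term w z,
      (Con.p2 false j).term w z, (Con.p2 true j).term w z,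
      (Con.p3 false j).term w z, (Con.p3 true j).term w z]),
    (List.range K).flatMap (fun j => [(Con.u1 false j).term w z, (Con.u1 true j).term w z,
      (Con.u2 false j).term w z, (Con.u2 true j).term w z]),
    (List.range K).flatMap (fun j => [(Con.aa false j).term w z, (Con.aa true j).term w z]),
    (List.range K).flatMap (fun k => (Con.mm (K - 1 - k)).term w z ::
      (List.range (K - 1 - k)).flatMap (fun i => [(Con.rr false (K - 1 - k) i).term w z,
        (Con.rr true (K - 1 - k) i).term w z])),
    (List.range K).flatMap (fun j => [(Con.tt false j).term w z, (Con.tt true j).term w z]),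
    (List.range n).flatMap (fun i => [(Con.s6 false i).term w z, (Con.s6 true i).term w z]),
    [(Con.s8 false).term w z, (Con.s8 true).term w z],
    (grpL n (n + G.length) K false).flatMap (fun x => [(Con.s7 false true x).term w z,
      (Con.s7 false false x).term w z]) ++
    (grpL n (n + G.length) K true).flatMap (fun x => [(Con.s7 true true x).term w z,
      (Con.s7 true false x).term w z]),
    (dL K).flatMap (fun x => [(Con.s9 false x).term w z, (Con.s9 true x).term w z]),
    (dL K).map (fun x => (Con.sx x).term w z),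
    (List.range n).flatMap (fun i => [(Con.s4 false false i).term w z,
      (Con.s4 false true i).term w z, (Con.s4 true false i).term w z,
      (Con.s4 true true i).term w z]) ]

/-- all conjunctions, the most important ones first -/
def all : List Tm := (segs n G K w z).flatten

end

section
variable {n : ℕ} {G : List Gate} {K : ℕ} {w z : List ℕ}

theorem mem_grpL {W : ℕ} {c : Bool} {x : Var} : x ∈ grpL n W K c ↔ grp n W K c x := by
  unfold grpL
  simp only [List.mem_append, List.mem_map, List.mem_range]
  constructor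
  · rintro (⟨i, hi, rfl⟩ | ⟨i, hi, rfl⟩ | ⟨i, hi, rfl⟩ | ⟨i, hi, rfl⟩)
    · exact ⟨rfl, hi⟩
    · exact ⟨rfl, hi⟩
    · exact ⟨rfl, hi⟩
    · exact ⟨rfl, hi⟩
  · intro h
    cases x with
    | r c' s t =>
      obtain ⟨rfl, ht⟩ := h
      cases s
      · exact Or.inl ⟨t, ht, rfl⟩
      · exact Or.inr (Or.inl ⟨t, ht, rfl⟩)
    | d c' i =>
      obtain ⟨rfl, ht⟩ := h
      exact Or.inr (Or.inr (Or.inl ⟨i, ht, rfl⟩))
    | u c' i =>
      obtain ⟨rfl, ht⟩ := h
      exact Or.inr (Or.inr (Or.inr ⟨i, ht, rfl⟩))
    | _ => exact h.elim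

theorem mem_dL {x : Var} : x ∈ dL K ↔ dgrp K x := by
  unfold dL
  simp only [List.mem_append, List.mem_map, List.mem_range]
  constructor
  · rintro (⟨i, hi, rfl⟩ | ⟨i, hi, rfl⟩ | ⟨i, hi, rfl⟩)
    · exact hi
    · exact hi
    · exact hi
  · intro h
    cases x with
    | f j => exact Or.inl ⟨j, h, rfl⟩
    | p c j =>
      cases c
      · exact Or.inr (Or.inl ⟨j, h, rfl⟩)
      · exact Or.inr (Or.inr ⟨j, h, rfl⟩)
    | _ => exact h.elim

/-- the conjunctions of the segments -/
theorem mem_segs {k : ℕ} (hk : k < (segs n G K w z).length) {T : Tm}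
    (hT : T ∈ (segs n G K w z)[k]) : ∃ κ : Con, κ.Ok n G K ∧ κ.maj = k ∧ T = κ.term w z := by
  have hk' : k < 15 := hk
  interval_cases k <;>
    simp only [segs, List.getElem_cons_zero, List.getElem_cons_succ, List.mem_flatMap,
      List.mem_range, List.mem_append, List.mem_cons, List.not_mem_nil, or_false,
      mem_grpL, mem_dL, List.mem_map] at hT
  · rcases hT with rfl | rfl
    · exact ⟨.ee false, trivial, rfl, rfl⟩
    · exact ⟨.ee true, trivial, rfl, rfl⟩
  · obtain ⟨t, ht, h | h | rfl | rfl⟩ := hT
    · exact ⟨.im false t T, ⟨ht, h⟩, rfl, rfl⟩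
    · exact ⟨.im true t T, ⟨ht, h⟩, rfl, rfl⟩
    · exact ⟨.ex false t, ht, rfl, rfl⟩
    · exact ⟨.ex true t, ht, rfl, rfl⟩
  · obtain ⟨i, hi, rfl | rfl | rfl | rfl⟩ := hT
    · exact ⟨.dd false false i, hi, rfl, rfl⟩
    · exact ⟨.dd false true i, hi, rfl, rfl⟩
    · exact ⟨.dd true false i, hi, rfl, rfl⟩
    · exact ⟨.dd true true i, hi, rfl, rfl⟩
  · obtain ⟨i, hi, h⟩ := hT
    have hi' : K - 2 - i + 1 < K := by omega
    rcases h with rfl | rfl | rfl
    · exact ⟨.ff (K - 2 - i), hi', rfl, rfl⟩
    · exact ⟨.fg false (K - 2 - i), hi', rfl, rfl⟩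
    · exact ⟨.fg true (K - 2 - i), hi', rfl, rfl⟩
  · obtain ⟨j, hj, rfl | rfl | rfl | rfl | rfl | rfl⟩ := hT
    · exact ⟨.p1 false j, hj, rfl, rfl⟩
    · exact ⟨.p1 true j, hj, rfl, rfl⟩
    · exact ⟨.p2 false j, hj, rfl, rfl⟩
    · exact ⟨.p2 true j, hj, rfl, rfl⟩
    · exact ⟨.p3 false j, hj, rfl, rfl⟩
    · exact ⟨.p3 true j, hj, rfl, rfl⟩
  · obtain ⟨j, hj, rfl | rfl | rfl | rfl⟩ := hT
    · exact ⟨.u1 false j, hj, rfl, rfl⟩
    · exact ⟨.u1 true j, hj, rfl, rfl⟩
    · exact ⟨.u2 false j, hj, rfl, rfl⟩
    · exact ⟨.u2 true j, hj, rfl, rfl⟩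
  · obtain ⟨j, hj, rfl | rfl⟩ := hT
    · exact ⟨.aa false j, hj, rfl, rfl⟩
    · exact ⟨.aa true j, hj, rfl, rfl⟩
  · obtain ⟨j, hj, rfl | ⟨i, hi, rfl | rfl⟩⟩ := hT
    · exact ⟨.mm (K - 1 - j), (by omega : K - 1 - j < K), rfl, rfl⟩
    · exact ⟨.rr false (K - 1 - j) i, ⟨hi, by omega⟩, rfl, rfl⟩
    · exact ⟨.rr true (K - 1 - j) i, ⟨hi, by omega⟩, rfl, rfl⟩
  · obtain ⟨j, hj, rfl | rfl⟩ := hT
    · exact ⟨.tt false j, hj, rfl, rfl⟩
    · exact ⟨.tt true j, hj, rfl, rfl⟩
  · obtain ⟨j, hj, rfl | rfl⟩ := hT
    · exact ⟨.s6 false j, hj, rfl, rfl⟩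
    · exact ⟨.s6 true j, hj, rfl, rfl⟩
  · rcases hT with rfl | rfl
    · exact ⟨.s8 false, trivial, rfl, rfl⟩
    · exact ⟨.s8 true, trivial, rfl, rfl⟩
  · rcases hT with ⟨x, hx, rfl | rfl⟩ | ⟨x, hx, rfl | rfl⟩
    · exact ⟨.s7 false true x, hx, rfl, rfl⟩
    · exact ⟨.s7 false false x, hx, rfl, rfl⟩
    · exact ⟨.s7 true true x, hx, rfl, rfl⟩
    · exact ⟨.s7 true false x, hx, rfl, rfl⟩
  · obtain ⟨x, hx, rfl | rfl⟩ := hT
    · exact ⟨.s9 false x, hx, rfl, rfl⟩
    · exact ⟨.s9 true x, hx, rfl, rfl⟩
  · obtain ⟨x, hx, rfl⟩ := hT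
    exact ⟨.sx x, hx, rfl, rfl⟩
  · obtain ⟨i, hi, rfl | rfl | rfl | rfl⟩ := hT
    · exact ⟨.s4 false false i, hi, rfl, rfl⟩
    · exact ⟨.s4 false true i, hi, rfl, rfl⟩
    · exact ⟨.s4 true false i, hi, rfl, rfl⟩
    · exact ⟨.s4 true true i, hi, rfl, rfl⟩

variable {X X' : Var → Bool}

theorem dec_all {κ0 : Con} (hok : κ0.Ok n G K) (h1 : tv X (κ0.term w z))
    (h2 : ¬ tv X' (κ0.term w z))
    (H : ∀ κ : Con, κ.Ok n G K → κ.le K κ0 → tv X' (κ.term w z) → tv X (κ.term w z)) :
    Dec X X' (all n G K w z) := by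
  have hlt : ∀ j (hj : j < (segs n G K w z).length), j < κ0.maj →
      NI X X' (segs n G K w z)[j] := by
    intro j hj hj' T hT
    obtain ⟨κ, hκ, h3, rfl⟩ := mem_segs hj hT
    exact H κ hκ (Or.inl (by omega))
  have hmaj : κ0.maj < (segs n G K w z).length := by
    change κ0.maj < 15
    cases κ0 <;> simp [Con.maj]
  refine Dec.flatten hmaj hlt ?_
  -- segments without second part of the priority
  have hno : κ0.maj ≠ 1 → κ0.maj ≠ 3 → κ0.maj ≠ 7 → NI X X' (segs n G K w z)[κ0.maj] := by
    intro a1 a3 a7 T hT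
    obtain ⟨κ, hκ, h3, rfl⟩ := mem_segs hmaj hT
    refine H κ hκ (Or.inr ⟨h3, ?_⟩)
    have e1 : κ.mino K = 0 := by
      cases κ <;> first
        | rfl
        | exact absurd h3.symm a1
        | exact absurd h3.symm a3
        | exact absurd h3.symm a7
    omega
  cases κ0
  case ee c =>
    refine Dec.of_mem ?_ h1 h2 (hno (by simp [Con.maj]) (by simp [Con.maj]) (by simp [Con.maj]))
    cases c <;> simp [segs, Con.maj]
  case im c t T =>
    obtain ⟨ht, hT⟩ := hok
    have hni : ∀ c', NI X X' (imps n G c' t) := fun c' T' hT' =>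
      H (.im c' t T') ⟨ht, hT'⟩ (Or.inr ⟨rfl, le_rfl⟩)
    refine Dec.flatMap_range (k := t) ht ?_ ?_
    · intro t' ht' T' hT'
      simp only [List.mem_append, List.mem_cons, List.not_mem_nil, or_false] at hT'
      rcases hT' with h | h | rfl | rfl
      · exact H (.im false t' T') ⟨by omega, h⟩ (Or.inr ⟨rfl, by simp only [Con.mino]; omega⟩)
      · exact H (.im true t' T') ⟨by omega, h⟩ (Or.inr ⟨rfl, by simp only [Con.mino]; omega⟩)
      · exact H (.ex false t') (by simp only [Con.Ok]; omega)
          (Or.inr ⟨rfl, by simp only [Con.mino]; omega⟩)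
      · exact H (.ex true t') (by simp only [Con.Ok]; omega)
          (Or.inr ⟨rfl, by simp only [Con.mino]; omega⟩)
    · cases c
      · exact Dec.left (Dec.of_mem hT h1 h2 (hni false))
      · exact Dec.right (hni false) (Dec.left (Dec.of_mem hT h1 h2 (hni true)))
  case ex c t =>
    have ht : t < n + G.length := hok
    have hni : ∀ c', NI X X' (imps n G c' t) := fun c' T' hT' =>
      H (.im c' t T') ⟨ht, hT'⟩ (Or.inr ⟨rfl, by simp only [Con.mino]; omega⟩)
    refine Dec.flatMap_range (k := t) ht ?_ ?_
    · intro t' ht' T' hT'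
      simp only [List.mem_append, List.mem_cons, List.not_mem_nil, or_false] at hT'
      rcases hT' with h | h | rfl | rfl
      · exact H (.im false t' T') ⟨by omega, h⟩ (Or.inr ⟨rfl, by simp only [Con.mino]; omega⟩)
      · exact H (.im true t' T') ⟨by omega, h⟩ (Or.inr ⟨rfl, by simp only [Con.mino]; omega⟩)
      · exact H (.ex false t') (by simp only [Con.Ok]; omega)
          (Or.inr ⟨rfl, by simp only [Con.mino]; omega⟩)
      · exact H (.ex true t') (by simp only [Con.Ok]; omega)
          (Or.inr ⟨rfl, by simp only [Con.mino]; omega⟩)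
    · refine Dec.right (hni false) (Dec.right (hni true) (Dec.of_mem ?_ h1 h2 ?_))
      · cases c <;> simp
      · intro T' hT'
        simp only [List.mem_cons, List.not_mem_nil, or_false] at hT'
        rcases hT' with rfl | rfl
        · exact H (.ex false t) ht (Or.inr ⟨rfl, le_rfl⟩)
        · exact H (.ex true t) ht (Or.inr ⟨rfl, le_rfl⟩)
  case dd c b i =>
    refine Dec.of_mem ?_ h1 h2 (hno (by simp [Con.maj]) (by simp [Con.maj]) (by simp [Con.maj]))
    have hi : i < n := hok
    simp only [segs, Con.maj, List.getElem_cons_zero, List.getElem_cons_succ, List.mem_flatMap,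
      List.mem_range]
    exact ⟨i, hi, by cases c <;> cases b <;> simp⟩
  case ff j =>
    have hj : j + 1 < K := hok
    refine Dec.flatMap_range (k := K - 2 - j) (by omega) ?_ ?_
    · intro k hk T' hT'
      simp only [List.mem_cons, List.not_mem_nil, or_false] at hT'
      rcases hT' with rfl | rfl | rfl
      · exact H (.ff (K - 2 - k)) (by simp only [Con.Ok]; omega)
          (Or.inr ⟨rfl, by simp only [Con.mino]; omega⟩)
      · exact H (.fg false (K - 2 - k)) (by simp only [Con.Ok]; omega)
          (Or.inr ⟨rfl, by simp only [Con.mino]; omega⟩)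
      · exact H (.fg true (K - 2 - k)) (by simp only [Con.Ok]; omega)
          (Or.inr ⟨rfl, by simp only [Con.mino]; omega⟩)
    · have e : K - 2 - (K - 2 - j) = j := by omega
      rw [e]
      refine Dec.of_mem (by simp) h1 h2 ?_
      intro T' hT'
      simp only [List.mem_cons, List.not_mem_nil, or_false] at hT'
      rcases hT' with rfl | rfl | rfl
      · exact H (.ff j) hj (Or.inr ⟨rfl, le_rfl⟩)
      · exact H (.fg false j) hj (Or.inr ⟨rfl, le_rfl⟩)
      · exact H (.fg true j) hj (Or.inr ⟨rfl, le_rfl⟩)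
  case fg b j =>
    have hj : j + 1 < K := hok
    refine Dec.flatMap_range (k := K - 2 - j) (by omega) ?_ ?_
    · intro k hk T' hT'
      simp only [List.mem_cons, List.not_mem_nil, or_false] at hT'
      rcases hT' with rfl | rfl | rfl
      · exact H (.ff (K - 2 - k)) (by simp only [Con.Ok]; omega)
          (Or.inr ⟨rfl, by simp only [Con.mino]; omega⟩)
      · exact H (.fg false (K - 2 - k)) (by simp only [Con.Ok]; omega)
          (Or.inr ⟨rfl, by simp only [Con.mino]; omega⟩)
      · exact H (.fg true (K - 2 - k)) (by simp only [Con.Ok]; omega)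
          (Or.inr ⟨rfl, by simp only [Con.mino]; omega⟩)
    · have e : K - 2 - (K - 2 - j) = j := by omega
      rw [e]
      refine Dec.of_mem (by cases b <;> simp) h1 h2 ?_
      intro T' hT'
      simp only [List.mem_cons, List.not_mem_nil, or_false] at hT'
      rcases hT' with rfl | rfl | rfl
      · exact H (.ff j) hj (Or.inr ⟨rfl, le_rfl⟩)
      · exact H (.fg false j) hj (Or.inr ⟨rfl, le_rfl⟩)
      · exact H (.fg true j) hj (Or.inr ⟨rfl, le_rfl⟩)
  case p1 c j =>
    refine Dec.of_mem ?_ h1 h2 (hno (by simp [Con.maj]) (by simp [Con.maj]) (by simp [Con.maj]))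
    have hj : j < K := hok
    simp only [segs, Con.maj, List.getElem_cons_zero, List.getElem_cons_succ, List.mem_flatMap,
      List.mem_range]
    exact ⟨j, hj, by cases c <;> simp⟩
  case p2 c j =>
    refine Dec.of_mem ?_ h1 h2 (hno (by simp [Con.maj]) (by simp [Con.maj]) (by simp [Con.maj]))
    have hj : j < K := hok
    simp only [segs, Con.maj, List.getElem_cons_zero, List.getElem_cons_succ, List.mem_flatMap,
      List.mem_range]
    exact ⟨j, hj, by cases c <;> simp⟩
  case p3 c j =>
    refine Dec.of_mem ?_ h1 h2 (hno (by simp [Con.maj]) (by simp [Con.maj]) (by simp [Con.maj]))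
    have hj : j < K := hok
    simp only [segs, Con.maj, List.getElem_cons_zero, List.getElem_cons_succ, List.mem_flatMap,
      List.mem_range]
    exact ⟨j, hj, by cases c <;> simp⟩
  case u1 c j =>
    refine Dec.of_mem ?_ h1 h2 (hno (by simp [Con.maj]) (by simp [Con.maj]) (by simp [Con.maj]))
    have hj : j < K := hok
    simp only [segs, Con.maj, List.getElem_cons_zero, List.getElem_cons_succ, List.mem_flatMap,
      List.mem_range]
    exact ⟨j, hj, by cases c <;> simp⟩
  case u2 c j =>
    refine Dec.of_mem ?_ h1 h2 (hno (by simp [Con.maj]) (by simp [Con.maj]) (by simp [Con.maj]))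
    have hj : j < K := hok
    simp only [segs, Con.maj, List.getElem_cons_zero, List.getElem_cons_succ, List.mem_flatMap,
      List.mem_range]
    exact ⟨j, hj, by cases c <;> simp⟩
  case aa c j =>
    refine Dec.of_mem ?_ h1 h2 (hno (by simp [Con.maj]) (by simp [Con.maj]) (by simp [Con.maj]))
    have hj : j < K := hok
    simp only [segs, Con.maj, List.getElem_cons_zero, List.getElem_cons_succ, List.mem_flatMap,
      List.mem_range]
    exact ⟨j, hj, by cases c <;> simp⟩
  case mm j =>
    have hj : j < K := hok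
    refine Dec.flatMap_range (k := K - 1 - j) (by omega) ?_ ?_
    · intro k hk T' hT'
      simp only [List.mem_cons, List.mem_flatMap, List.mem_range, List.not_mem_nil,
        or_false] at hT'
      rcases hT' with rfl | ⟨i, hi, rfl | rfl⟩
      · exact H (.mm (K - 1 - k)) (by simp only [Con.Ok]; omega)
          (Or.inr ⟨rfl, by simp only [Con.mino]; omega⟩)
      · exact H (.rr false (K - 1 - k) i) ⟨hi, by omega⟩
          (Or.inr ⟨rfl, by simp only [Con.mino]; omega⟩)
      · exact H (.rr true (K - 1 - k) i) ⟨hi, by omega⟩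
          (Or.inr ⟨rfl, by simp only [Con.mino]; omega⟩)
    · have e : K - 1 - (K - 1 - j) = j := by omega
      rw [e]
      exact Or.inl ⟨h1, h2⟩
  case rr c j i =>
    obtain ⟨hi, hj⟩ : i < j ∧ j < K := hok
    refine Dec.flatMap_range (k := K - 1 - j) (by omega) ?_ ?_
    · intro k hk T' hT'
      simp only [List.mem_cons, List.mem_flatMap, List.mem_range, List.not_mem_nil,
        or_false] at hT'
      rcases hT' with rfl | ⟨i, hi, rfl | rfl⟩
      · exact H (.mm (K - 1 - k)) (by simp only [Con.Ok]; omega)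
          (Or.inr ⟨rfl, by simp only [Con.mino]; omega⟩)
      · exact H (.rr false (K - 1 - k) i) ⟨hi, by omega⟩
          (Or.inr ⟨rfl, by simp only [Con.mino]; omega⟩)
      · exact H (.rr true (K - 1 - k) i) ⟨hi, by omega⟩
          (Or.inr ⟨rfl, by simp only [Con.mino]; omega⟩)
    · have e : K - 1 - (K - 1 - j) = j := by omega
      rw [e]
      refine Or.inr ⟨H (.mm j) hj (Or.inr ⟨rfl, by simp only [Con.mino]; omega⟩), ?_⟩
      refine Dec.of_mem (T := (Con.rr c j i).term w z) ?_ h1 h2 ?_
      · simp only [List.mem_flatMap, List.mem_range]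
        exact ⟨i, hi, by cases c <;> simp⟩
      · intro T' hT'
        simp only [List.mem_flatMap, List.mem_range, List.mem_cons, List.not_mem_nil,
          or_false] at hT'
        obtain ⟨i', hi', rfl | rfl⟩ := hT'
        · exact H (.rr false j i') ⟨hi', hj⟩ (Or.inr ⟨rfl, le_rfl⟩)
        · exact H (.rr true j i') ⟨hi', hj⟩ (Or.inr ⟨rfl, le_rfl⟩)
  case tt c j =>
    refine Dec.of_mem ?_ h1 h2 (hno (by simp [Con.maj]) (by simp [Con.maj]) (by simp [Con.maj]))
    have hj : j < K := hok
    simp only [segs, Con.maj, List.getElem_cons_zero, List.getElem_cons_succ, List.mem_flatMap,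
      List.mem_range]
    exact ⟨j, hj, by cases c <;> simp⟩
  case s6 c j =>
    refine Dec.of_mem ?_ h1 h2 (hno (by simp [Con.maj]) (by simp [Con.maj]) (by simp [Con.maj]))
    have hj : j < n := hok
    simp only [segs, Con.maj, List.getElem_cons_zero, List.getElem_cons_succ, List.mem_flatMap,
      List.mem_range]
    exact ⟨j, hj, by cases c <;> simp⟩
  case s8 c =>
    refine Dec.of_mem ?_ h1 h2 (hno (by simp [Con.maj]) (by simp [Con.maj]) (by simp [Con.maj]))
    cases c <;> simp [segs, Con.maj]
  case s7 c b x =>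
    refine Dec.of_mem ?_ h1 h2 (hno (by simp [Con.maj]) (by simp [Con.maj]) (by simp [Con.maj]))
    have hx : grp n (n + G.length) K c x := hok
    simp only [segs, Con.maj, List.getElem_cons_zero, List.getElem_cons_succ, List.mem_flatMap,
      List.mem_append, mem_grpL]
    cases c
    · exact Or.inl ⟨x, hx, by cases b <;> simp⟩
    · exact Or.inr ⟨x, hx, by cases b <;> simp⟩
  case s9 c x =>
    refine Dec.of_mem ?_ h1 h2 (hno (by simp [Con.maj]) (by simp [Con.maj]) (by simp [Con.maj]))
    have hx : dgrp K x := hok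
    simp only [segs, Con.maj, List.getElem_cons_zero, List.getElem_cons_succ, List.mem_flatMap,
      mem_dL]
    exact ⟨x, hx, by cases c <;> simp⟩
  case sx x =>
    refine Dec.of_mem ?_ h1 h2 (hno (by simp [Con.maj]) (by simp [Con.maj]) (by simp [Con.maj]))
    have hx : dgrp K x := hok
    simp only [segs, Con.maj, List.getElem_cons_zero, List.getElem_cons_succ, List.mem_map,
      mem_dL]
    exact ⟨x, hx, rfl⟩
  case s4 c b i =>
    refine Dec.of_mem ?_ h1 h2 (hno (by simp [Con.maj]) (by simp [Con.maj]) (by simp [Con.maj]))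
    have hi : i < n := hok
    simp only [segs, Con.maj, List.getElem_cons_zero, List.getElem_cons_succ, List.mem_flatMap,
      List.mem_range]
    exact ⟨i, hi, by cases c <;> cases b <;> simp⟩

end

end Pool.Agent.MPa0a715.TL
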