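import Pool.Agent.Lib.MP_a0a715_lc.Gadget
import Pool.Agent.Lib.MP_a0a715_lc_TL.All

/-!
# Circuits whose outputs are conjunctions of literals
-/

namespace Pool.Agent.MPa0a715.TL

open Pool.Agent.MPa0a715 Pool.Agent.PolyTime

/-- conjunctions of literals, the variables being numbers -/
abbrev NT := List (ℕ × Bool)

/-- names of the wires with the values of the literals -/
def litNames (T : NT) : List Name := T.map fun p => (if p.2 then 0 else 1, p.1)

/-- the gates -/
def tblocks (N : ℕ) (Ts : List NT) : List Blk :=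
  [ (N, fun i => (none, [(0, i)])),
    (Ts.length, fun q => (some true, litNames (Ts.getD q []))) ]

/-- the circuit -/
def termCircuit (N : ℕ) (Ts : List NT) : Circuit :=
  compile (inNames N) (toG 1 (tblocks N Ts)) (ws 2 (List.range Ts.length))

section
variable {N : ℕ} {Ts : List NT}

theorem tblocks_ok (h : ∀ T ∈ Ts, T ≠ [] ∧ ∀ p ∈ T, p.1 < N) :
    AllB (BlkOK N (tblocks N Ts)) 1 (tblocks N Ts) := by
  refine ⟨?_, ?_, trivial⟩
  · intro i hi
    refine ⟨List.cons_ne_nil _ _, ?_⟩
    intro r hr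
    change r ∈ [(0, i)] at hr
    rw [List.mem_singleton] at hr
    subst hr
    exact ⟨hi, Or.inl Nat.zero_lt_one⟩
  · intro q hq
    change q < Ts.length at hq
    have hT : Ts.getD q [] ∈ Ts := by
      rw [List.getD_eq_getElem _ _ hq]
      exact List.getElem_mem hq
    obtain ⟨h1, h2⟩ := h _ hT
    change litNames (Ts.getD q []) ≠ [] ∧ ∀ r ∈ litNames (Ts.getD q []), _
    refine ⟨?_, ?_⟩
    · unfold litNames
      intro hcon
      exact h1 (List.map_eq_nil_iff.1 hcon)
    · intro r hr
      unfold litNames at hr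
      obtain ⟨p, hp, rfl⟩ := List.mem_map.1 hr
      have := h2 p hp
      cases hb : p.2
      · exact ⟨this, Or.inl (by simp)⟩
      · exact ⟨this, Or.inl (by simp)⟩

theorem tc_wf (h : ∀ T ∈ Ts, T ≠ [] ∧ ∀ p ∈ T, p.1 < N) :
    WF (inNames N) (toG 1 (tblocks N Ts)) := wf_blocks (tblocks_ok h)

theorem tc_outs {o : Name} (ho : o ∈ ws 2 (List.range Ts.length)) :
    o ∈ (toG 1 (tblocks N Ts)).map Prod.fst := by
  obtain ⟨h1, h2⟩ := mem_ws.1 ho
  exact toG_names.2 ⟨1, _, rfl, by omega, List.mem_range.1 h2⟩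

theorem tc_valid (h : ∀ T ∈ Ts, T ≠ [] ∧ ∀ p ∈ T, p.1 < N) : (termCircuit N Ts).Valid :=
  compile_valid (tc_wf h) fun _ ho => tc_outs ho

theorem tc_n : (termCircuit N Ts).n = N := length_inNames N

theorem tc_env (h : ∀ T ∈ Ts, T ≠ [] ∧ ∀ p ∈ T, p.1 < N) {x : List Bool} (hx : x.length = N)
    {q : ℕ} (hq : q < Ts.length) :
    cenv (inNames N) (toG 1 (tblocks N Ts)) (ws 2 (List.range Ts.length)) x (2, q) = true ↔
      ∀ p ∈ Ts.getD q [], x.getD p.1 false = p.2 := by
  have hx' : x.length = (inNames N).length := by rw [length_inNames, hx]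
  have hE := compile_sat (tc_wf h) (fun o ho => tc_outs (N := N) (Ts := Ts) (o := o) ho) hx'
  set E := cenv (inNames N) (toG 1 (tblocks N Ts)) (ws 2 (List.range Ts.length)) x with hEdef
  have h0 : ∀ i < N, E (0, i) = x.getD i false := by
    intro i hi
    have h1 := cenv_input (outs := ws 2 (List.range Ts.length)) (tc_wf h) hx' (i := i)
      (by rw [length_inNames]; exact hi)
    have h2 : (inNames N)[i]'(by rw [length_inNames]; exact hi) = (0, i) := by
      unfold inNames
      rw [List.getElem_map, List.getElem_range]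
    rw [h2] at h1
    exact h1
  have h1 : ∀ i < N, E (1, i) = !x.getD i false := by
    intro i hi
    rw [← h0 i hi]
    exact sat_not (sat_blocks hE (i := 0) rfl i hi)
  have h2 := sat_and (sat_blocks hE (i := 1) rfl q hq)
  have hT : Ts.getD q [] ∈ Ts := by
    rw [List.getD_eq_getElem _ _ hq]
    exact List.getElem_mem hq
  have h3 := (h _ hT).2
  change E (2, q) = true ↔ ∀ r ∈ litNames (Ts.getD q []), E r = true at h2
  rw [h2]
  unfold litNames
  constructor
  · intro h4 p hp
    have h5 := h4 _ (List.mem_map.2 ⟨p, hp, rfl⟩)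
    cases hb : p.2 with
    | false =>
      rw [hb] at h5
      simp only [Bool.false_eq_true, if_false] at h5
      rw [h1 _ (h3 p hp)] at h5
      simpa using h5
    | true =>
      rw [hb] at h5
      simp only [if_true] at h5
      rw [h0 _ (h3 p hp)] at h5
      exact h5
  · intro h4 r hr
    obtain ⟨p, hp, rfl⟩ := List.mem_map.1 hr
    have h5 := h4 p hp
    cases hb : p.2 with
    | false =>
      simp only [Bool.false_eq_true, if_false]
      rw [h1 _ (h3 p hp), h5, hb]
      rfl
    | true =>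
      simp only [if_true]
      rw [h0 _ (h3 p hp), h5, hb]

theorem tc_out (h : ∀ T ∈ Ts, T ≠ [] ∧ ∀ p ∈ T, p.1 < N) {x : List Bool} (hx : x.length = N) :
    (termCircuit N Ts).out x = Ts.map fun T => decide (∀ p ∈ T, x.getD p.1 false = p.2) := by
  unfold termCircuit
  rw [compile_out]
  unfold ws
  rw [List.map_map]
  refine List.ext_getElem (by simp) fun q h1 h2 => ?_
  have hq : q < Ts.length := by simpa using h2
  rw [List.getElem_map, List.getElem_map, List.getElem_range]
  have h3 := tc_env h hx hq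
  rw [List.getD_eq_getElem _ _ hq] at h3
  have h4 : (cenv (inNames N) (toG 1 (tblocks N Ts)) (ws 2 (List.range Ts.length)) x (2, q)) =
      decide (∀ p ∈ Ts[q], x.getD p.1 false = p.2) := by
    rw [Bool.eq_iff_iff, h3, decide_eq_true_eq]
  exact h4

/-- the value of an output -/
theorem tc_terms (h : ∀ T ∈ Ts, T ≠ [] ∧ ∀ p ∈ T, p.1 < N) {o : ℕ}
    (ho : o ∈ (termCircuit N Ts).outs) : ∃ T ∈ Ts, ∀ x : List Bool, x.length = N →
      (((termCircuit N Ts).wires x).getD o false = true ↔
        ∀ p ∈ T, x.getD p.1 false = p.2) := by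
  unfold termCircuit compile at ho
  dsimp only at ho
  obtain ⟨o', ho', rfl⟩ := List.mem_map.1 ho
  obtain ⟨h1, h2⟩ := mem_ws.1 ho'
  rw [List.mem_range] at h2
  have hT : Ts.getD o'.2 [] ∈ Ts := by
    rw [List.getD_eq_getElem _ _ h2]
    exact List.getElem_mem h2
  refine ⟨_, hT, fun x hx => ?_⟩
  have h3 := tc_env h hx h2
  rw [← h3]
  have e : o' = (2, o'.2) := by rw [← h1]
  rw [← e]
  rfl

end

end Pool.Agent.MPa0a715.TL
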