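import Pool.Agent.Lib.MP_a0a715_lc_TL.Defs
import Pool.Agent.Lib.MP_a0a715_lc_TL.TC
import Pool.Agent.Lib.MP_a0a715_lc_TL.Next2

/-!
# The reduction is correct
-/

namespace Pool.Agent.MPa0a715.TL

open Pool.Agent.MPa0a715 Pool.Agent.PolyTime

/-- number of a variable -/
def idx (B : ℕ) (a : Var) : ℕ := a.kind * B + a.ix

/-- the conjunction with numbers of variables -/
def numT (B : ℕ) (T : Tm) : NT := T.map fun p => (idx B p.1, p.2)

/-- the state given by a list of bits -/
def st (B : ℕ) (s : List Bool) (a : Var) : Bool := s.getD (idx B a) false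

theorem idx_lt {B : ℕ} {a : Var} (ha : a.ix < B) : idx B a < 16 * B := by
  have h := a.kind_lt
  unfold idx
  have : (a.kind + 1) * B ≤ 16 * B := Nat.mul_le_mul_right _ h
  rw [Nat.add_mul, Nat.one_mul] at this
  omega

theorem idx_inj {B : ℕ} {a b : Var} (ha : a.ix < B) (hb : b.ix < B) (h : idx B a = idx B b) :
    a = b := by
  unfold idx at h
  have hB : 0 < B := by omega
  have h1 : a.kind = b.kind := by
    have e1 : (a.kind * B + a.ix) / B = a.kind := by
      rw [Nat.mul_comm, Nat.mul_add_div hB, Nat.div_eq_of_lt ha, Nat.add_zero]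
    have e2 : (b.kind * B + b.ix) / B = b.kind := by
      rw [Nat.mul_comm, Nat.mul_add_div hB, Nat.div_eq_of_lt hb, Nat.add_zero]
    rw [← e1, ← e2, h]
  have h2 : a.ix = b.ix := by
    rw [h1] at h
    omega
  rw [← Var.of_kind a, ← Var.of_kind b, h1, h2]

section
variable {n : ℕ} {G : List Gate} {K : ℕ} {w z : List ℕ}

theorem mem_all {T : Tm} (hT : T ∈ all n G K w z) :
    ∃ κ : Con, κ.Ok n G K ∧ T = κ.term w z := by
  unfold all at hT
  obtain ⟨l, hl, hTl⟩ := List.mem_flatten.1 hT
  obtain ⟨k, hk, rfl⟩ := List.getElem_of_mem hl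
  obtain ⟨κ, h1, _, h2⟩ := mem_segs hk hTl
  exact ⟨κ, h1, h2⟩

theorem imps_shape {c : Bool} {t : ℕ} {T : Tm} (hT : T ∈ imps n G c t) :
    T ≠ [] ∧ T.length ≤ 3 := by
  unfold imps at hT
  split_ifs at hT
  · simp only [List.mem_cons, List.not_mem_nil, or_false] at hT
    rcases hT with rfl | rfl <;> simp
  · revert hT
    cases G[t - n]? with
    | none => intro hT; exact absurd hT List.not_mem_nil
    | some g =>
      intro hT
      cases g <;> simp only [impG, List.mem_cons, List.not_mem_nil, or_false] at hT
      · rcases hT with rfl | rfl | rfl <;> simp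
      · rcases hT with rfl | rfl | rfl <;> simp
      · rcases hT with rfl | rfl <;> simp

theorem grp_ix {c : Bool} {x : Var} (h : grp n (n + G.length) K c x) : x.ix < bnd n G K := by
  cases x with
  | r c' s t => exact ix_r h.2
  | d c' i => exact ix_d h.2
  | u c' j => exact ix_u h.2
  | _ => exact h.elim

theorem dgrp_ix {x : Var} (h : dgrp K x) : x.ix < bnd n G K := by
  cases x with
  | f j => exact ix_f h
  | p c j => exact ix_p h
  | _ => exact h.elim

theorem ix_y : Var.y.ix < bnd n G K := by
  simp only [bnd, Var.ix]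
  omega

theorem con_ok (hG : GV n G) (hw : ∀ i < n, w.getD i 0 < n + G.length)
    (hz : ∀ j < K, z.getD j 0 < n + G.length) {κ : Con} (hκ : κ.Ok n G K) :
    κ.term w z ≠ [] ∧ (κ.term w z).length ≤ 3 ∧ ∀ p ∈ κ.term w z, p.1.ix < bnd n G K := by
  cases κ
  case im c t T =>
    obtain ⟨ht, hT⟩ := hκ
    obtain ⟨h1, h2⟩ := imps_shape hT
    refine ⟨h1, h2, fun p hp => ?_⟩
    rcases imps_lit hG ht hT hp with ⟨b, rfl, h⟩ | ⟨s, i, rfl, h⟩ | ⟨s, rfl⟩
    · exact ix_v h
    · exact ix_r (by omega)
    · exact ix_r ht
  case ee c =>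
    refine ⟨by simp [Con.term], by simp [Con.term], ?_⟩
    simp only [Con.term, List.forall_mem_cons, List.not_mem_nil, false_imp_iff, implies_true,
      and_true]
    exact ⟨ix_y, ix_e⟩
  case ex c t =>
    refine ⟨by simp [Con.term], by simp [Con.term], ?_⟩
    simp only [Con.term, List.forall_mem_cons, List.not_mem_nil, false_imp_iff, implies_true,
      and_true]
    exact ⟨ix_y, ix_r hκ, ix_r hκ⟩
  case dd c b i =>
    refine ⟨by simp [Con.term], by simp [Con.term], ?_⟩
    simp only [Con.term, List.forall_mem_cons, List.not_mem_nil, false_imp_iff, implies_true,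
      and_true]
    exact ⟨ix_v hκ, ix_r (hw i hκ), ix_d hκ⟩
  case ff j =>
    have hj : j + 1 < K := hκ
    refine ⟨by simp [Con.term], by simp [Con.term], ?_⟩
    simp only [Con.term, List.forall_mem_cons, List.not_mem_nil, false_imp_iff, implies_true,
      and_true]
    exact ⟨ix_f hκ, ix_f (by omega)⟩
  case fg b j =>
    have hj : j + 1 < K := hκ
    refine ⟨by simp [Con.term], by simp [Con.term], ?_⟩
    simp only [Con.term, List.forall_mem_cons, List.not_mem_nil, false_imp_iff, implies_true,
      and_true]
    exact ⟨ix_r (hz _ hκ), ix_r (hz _ hκ), ix_f (by omega)⟩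
  case p1 c j =>
    refine ⟨by simp [Con.term], by simp [Con.term], ?_⟩
    simp only [Con.term, List.forall_mem_cons, List.not_mem_nil, false_imp_iff, implies_true,
      and_true]
    exact ⟨ix_f hκ, ix_p hκ⟩
  case p2 c j =>
    refine ⟨by simp [Con.term], by simp [Con.term], ?_⟩
    simp only [Con.term, List.forall_mem_cons, List.not_mem_nil, false_imp_iff, implies_true,
      and_true]
    exact ⟨ix_r (hz _ hκ), ix_p hκ⟩
  case p3 c j =>
    refine ⟨by simp [Con.term], by simp [Con.term], ?_⟩
    simp only [Con.term, List.forall_mem_cons, List.not_mem_nil, false_imp_iff, implies_true,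
      and_true]
    exact ⟨ix_r (hz _ hκ), ix_p hκ⟩
  case u1 c j =>
    refine ⟨by simp [Con.term], by simp [Con.term], ?_⟩
    simp only [Con.term, List.forall_mem_cons, List.not_mem_nil, false_imp_iff, implies_true,
      and_true]
    exact ⟨ix_r (hz _ hκ), ix_p hκ, ix_u hκ⟩
  case u2 c j =>
    refine ⟨by simp [Con.term], by simp [Con.term], ?_⟩
    simp only [Con.term, List.forall_mem_cons, List.not_mem_nil, false_imp_iff, implies_true,
      and_true]
    exact ⟨ix_r (hz _ hκ), ix_e, ix_u hκ⟩
  case aa c j =>
    refine ⟨by simp [Con.term], by simp [Con.term], ?_⟩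
    simp only [Con.term, List.forall_mem_cons, List.not_mem_nil, false_imp_iff, implies_true,
      and_true]
    exact ⟨ix_y, ix_u hκ, ix_m hκ⟩
  case mm j =>
    refine ⟨by simp [Con.term], by simp [Con.term], ?_⟩
    simp only [Con.term, List.forall_mem_cons, List.not_mem_nil, false_imp_iff, implies_true,
      and_true]
    exact ix_m hκ
  case rr c j i =>
    obtain ⟨h1, h2⟩ : i < j ∧ j < K := hκ
    refine ⟨by simp [Con.term], by simp [Con.term], ?_⟩
    simp only [Con.term, List.forall_mem_cons, List.not_mem_nil, false_imp_iff, implies_true,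
      and_true]
    exact ⟨ix_p h2, ix_m h2, ix_m (by omega)⟩
  case tt c j =>
    refine ⟨by simp [Con.term], by simp [Con.term], ?_⟩
    simp only [Con.term, List.forall_mem_cons, List.not_mem_nil, false_imp_iff, implies_true,
      and_true]
    exact ⟨ix_y, ix_r (hz _ hκ), ix_m hκ⟩
  case s6 c i =>
    refine ⟨by simp [Con.term], by simp [Con.term], ?_⟩
    simp only [Con.term, List.forall_mem_cons, List.not_mem_nil, false_imp_iff, implies_true,
      and_true]
    exact ⟨ix_y, ix_d hκ, ix_e⟩
  case s8 c =>
    refine ⟨by simp [Con.term], by simp [Con.term], ?_⟩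
    simp only [Con.term, List.forall_mem_cons, List.not_mem_nil, false_imp_iff, implies_true,
      and_true]
    exact ix_e
  case s7 c b x =>
    refine ⟨by simp [Con.term], by simp [Con.term], ?_⟩
    simp only [Con.term, List.forall_mem_cons, List.not_mem_nil, false_imp_iff, implies_true,
      and_true]
    exact ⟨ix_e, grp_ix hκ⟩
  case s9 c x =>
    refine ⟨by simp [Con.term], by simp [Con.term], ?_⟩
    simp only [Con.term, List.forall_mem_cons, List.not_mem_nil, false_imp_iff, implies_true,
      and_true]
    exact ⟨ix_e, dgrp_ix hκ⟩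
  case sx x =>
    refine ⟨by simp [Con.term], by simp [Con.term], ?_⟩
    simp only [Con.term, List.forall_mem_cons, List.not_mem_nil, false_imp_iff, implies_true,
      and_true]
    exact dgrp_ix hκ
  case s4 c b i =>
    refine ⟨by simp [Con.term], by simp [Con.term], ?_⟩
    simp only [Con.term, List.forall_mem_cons, List.not_mem_nil, false_imp_iff, implies_true,
      and_true]
    exact ⟨ix_y, ix_v hκ, ix_r (hw i hκ)⟩

/-- the conjunctions, with numbers of variables, the least important ones first -/
def terms (n : ℕ) (G : List Gate) (K : ℕ) (w z : List ℕ) : List NT :=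
  ((all n G K w z).map (numT (bnd n G K))).reverse

theorem terms_ok (hG : GV n G) (hw : ∀ i < n, w.getD i 0 < n + G.length)
    (hz : ∀ j < K, z.getD j 0 < n + G.length) :
    ∀ T ∈ terms n G K w z, (T ≠ [] ∧ ∀ p ∈ T, p.1 < 16 * bnd n G K) ∧ T.length ≤ 3 := by
  intro T hT
  unfold terms at hT
  rw [List.mem_reverse, List.mem_map] at hT
  obtain ⟨T', hT', rfl⟩ := hT
  obtain ⟨κ, h1, rfl⟩ := mem_all hT'
  obtain ⟨h2, h3, h4⟩ := con_ok hG hw hz h1
  unfold numT
  refine ⟨⟨fun h => h2 (List.map_eq_nil_iff.1 h), ?_⟩, by rw [List.length_map]; exact h3⟩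
  intro p hp
  obtain ⟨q, hq, rfl⟩ := List.mem_map.1 hp
  exact idx_lt (h4 q hq)

theorem out_sys (hG : GV n G) (hw : ∀ i < n, w.getD i 0 < n + G.length)
    (hz : ∀ j < K, z.getD j 0 < n + G.length) {s : List Bool}
    (hs : s.length = 16 * bnd n G K) :
    (termCircuit (16 * bnd n G K) (terms n G K w z)).out s =
      bitsOf (st (bnd n G K) s) (all n G K w z) := by
  rw [tc_out (fun T hT => (terms_ok hG hw hz T hT).1) hs]
  unfold terms bitsOf
  rw [List.map_reverse, List.map_map]
  congr 1
  refine List.map_congr_left fun T _ => ?_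
  unfold numT st tv
  simp only [Function.comp_apply, List.forall_mem_map]

/-- local minima give states which cannot be improved -/
theorem min_of_localMin (hG : GV n G) (hw : ∀ i < n, w.getD i 0 < n + G.length)
    (hz : ∀ j < K, z.getD j 0 < n + G.length) {s : List Bool}
    (h : (termCircuit (16 * bnd n G K) (terms n G K w z)).IsLocalMin s) :
    Min n G K w z (st (bnd n G K) s) := by
  obtain ⟨hs, hmin⟩ := h
  rw [tc_n] at hs hmin
  intro κ0 a b hok ha hXa hmem htv H
  have h1 := hmin (idx (bnd n G K) a) (idx_lt ha)
  rw [Circuit.cost_eq, Circuit.cost_eq, out_sys hG hw hz hs,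
    out_sys hG hw hz (by rw [length_flip]; exact hs)] at h1
  have hXa' : st (bnd n G K) (flip s (idx (bnd n G K) a)) a = !b := by
    rw [← hXa]
    unfold st
    rw [getD_flip _ _ _ (by rw [hs]; exact idx_lt ha), if_pos rfl]
  have hX' : ∀ a', a'.ix < bnd n G K → a' ≠ a →
      st (bnd n G K) (flip s (idx (bnd n G K) a)) a' = st (bnd n G K) s a' := by
    intro a' ha' hne
    unfold st
    rw [getD_flip _ _ _ (by rw [hs]; exact idx_lt ha'), if_neg]
    intro h2
    exact hne (idx_inj ha' ha h2.symm)
  have hdec : Dec (st (bnd n G K) s) (st (bnd n G K) (flip s (idx (bnd n G K) a)))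
      (all n G K w z) := by
    refine dec_all hok htv ?_ ?_
    · intro hcon
      have h2 := hcon _ hmem
      dsimp only at h2
      rw [hXa'] at h2
      revert h2
      cases b <;> simp
    · intro κ hκ hle htv'
      have hix := (con_ok hG hw hz hκ).2.2
      by_cases hm : (a, !b) ∈ κ.term w z
      · exfalso
        obtain ⟨p, hp, hpa, hpX⟩ := H κ hκ hle hm
        apply hpX
        rw [← hX' p.1 (hix p hp) hpa]
        exact htv' p hp
      · intro p hp
        by_cases hpa : p.1 = a
        · exfalso
          apply hm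
          have h2 := htv' p hp
          rw [hpa, hXa'] at h2
          have : p = (a, !b) := Prod.ext hpa h2.symm
          rw [← this]
          exact hp
        · rw [← hX' p.1 (hix p hp) hpa]
          exact htv' p hp
  have := hdec.val_lt
  omega

end

/-- the constructed circuit -/
def sys (n : ℕ) (N : Circuit) : Circuit :=
  termCircuit (16 * bnd n N.gates (N.outs.length - n))
    (terms n N.gates (N.outs.length - n) (N.outs.take n) (N.outs.drop n))

/-- the solution given by a local minimum -/
def dcd (n B : ℕ) (s : List Bool) : List Bool :=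
  (List.range n).map fun i => s.getD (idx B (.v (s.getD 0 false) i)) false

section
variable {C : Circuit} (hC : C.Valid) (hn : 0 < C.n)

include hC hn in
theorem w_lt : ∀ i < C.n, ((nextC C).outs.take C.n).getD i 0 <
    C.n + (nextC C).gates.length := by
  intro i hi
  have hv := nextC_valid hC hn
  have hl := nextC_outs_length (C := C)
  rw [List.getD_eq_getElem _ _ (by rw [List.length_take, hl]; omega), List.getElem_take]
  have := (hv.2 _ (List.getElem_mem (by rw [hl]; omega : i < (nextC C).outs.length))).2
  rw [nextC_n] at this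
  exact this

include hC hn in
theorem z_lt : ∀ j < (nextC C).outs.length - C.n, ((nextC C).outs.drop C.n).getD j 0 <
    C.n + (nextC C).gates.length := by
  intro j hj
  have hv := nextC_valid hC hn
  rw [List.getD_eq_getElem _ _ (by rw [List.length_drop]; exact hj), List.getElem_drop]
  have := (hv.2 _ (List.getElem_mem (by omega : C.n + j < (nextC C).outs.length))).2
  rw [nextC_n] at this
  exact this

include hC hn in
theorem gv_next : GV C.n (nextC C).gates := by
  have hv := (nextC_valid hC hn).1
  rw [nextC_n] at hv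
  exact hv

include hC hn in
theorem sys_valid : (sys C.n (nextC C)).Valid :=
  tc_valid fun T hT => (terms_ok (gv_next hC hn) (w_lt hC hn) (z_lt hC hn) T hT).1

include hC hn in
theorem sys_conj : (sys C.n (nextC C)).ConjOuts 3 := by
  intro o ho
  have hok := terms_ok (gv_next hC hn) (w_lt hC hn) (z_lt hC hn)
  obtain ⟨T, hT, h⟩ := tc_terms (fun T hT => (hok T hT).1) ho
  refine ⟨T, (hok T hT).2, ?_, ?_⟩
  · intro p hp
    unfold sys
    rw [tc_n]
    exact (hok T hT).1.2 p hp
  · intro x hx
    unfold sys at hx
    rw [tc_n] at hx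
    exact h x hx

include hC hn in
theorem sys_correct {s : List Bool} (hs : (sys C.n (nextC C)).IsLocalMin s) :
    C.IsLocalMin (dcd C.n (bnd C.n (nextC C).gates ((nextC C).outs.length - C.n)) s) := by
  have hv := nextC_valid hC hn
  have hG := gv_next hC hn
  have hw := w_lt hC hn
  have hz := z_lt hC hn
  have hmin := min_of_localMin hG hw hz hs
  set B := bnd C.n (nextC C).gates ((nextC C).outs.length - C.n) with hB
  set X := st B s with hX
  have hK : (nextC C).outs.length - C.n = C.outs.length := by
    rw [nextC_outs_length]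
    omega
  -- the inputs of the two copies
  obtain ⟨inX, hinX⟩ : ∃ inX : Bool → List Bool, inX = fun c =>
    (List.range C.n).map fun i => X (.v c i) := ⟨_, rfl⟩
  have hlen : ∀ c, (inX c).length = C.n := by
    intro c
    rw [hinX]
    simp
  have hget : ∀ c, ∀ i < C.n, (inX c).getD i false = X (.v c i) := by
    intro c i hi
    rw [List.getD_eq_getElem _ _ (by rw [hlen]; exact hi)]
    simp only [hinX, List.getElem_map, List.getElem_range]
  have hcore := core hG hmin hw hz (ev := fun c => (nextC C).env (inX c)) (by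
    intro c t ht
    rw [Circuit.env_input _ (by rw [hlen]; exact ht)]
    exact hget c t ht) (by
    intro c k hk
    have := Circuit.env_gate hv (x := inX c) (by rw [hlen, nextC_n]) hk
    rw [nextC_n] at this
    exact this)
  obtain ⟨h1, h2⟩ := hcore
  set c := X .y with hc
  have hdec : dcd C.n B s = inX c := by
    unfold dcd
    rw [hinX]
    have : s.getD 0 false = c := by
      rw [hc, hX]
      unfold st idx Var.kind Var.ix
      simp
    rw [this]
    rfl
  rw [hdec]
  -- what the circuit computes
  obtain ⟨y, hy1, hy2, hy3⟩ := nextC_out hC hn (hlen c)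
  obtain ⟨y', hy1', hy2', _⟩ := nextC_out hC hn (hlen (!c))
  have hout : ∀ (x : List Bool) (q : ℕ), q < (nextC C).outs.length →
      ((nextC C).out x).getD q false = (nextC C).env x ((nextC C).outs.getD q 0) :=
    fun x q hq => out_getD' hq
  have hL := nextC_outs_length (C := C)
  have htake : ∀ q < C.n, ((nextC C).outs.take C.n).getD q 0 = (nextC C).outs.getD q 0 := by
    intro q hq
    rw [List.getD_eq_getElem _ _ (by rw [List.length_take, hL]; omega), List.getElem_take,
      List.getD_eq_getElem _ _ (by omega)]
  have hdrop : ∀ q < C.outs.length, ((nextC C).outs.drop C.n).getD q 0 =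
      (nextC C).outs.getD (C.n + q) 0 := by
    intro q hq
    rw [List.getD_eq_getElem _ _ (by rw [List.length_drop, hL]; omega), List.getElem_drop,
      List.getD_eq_getElem _ _ (by omega)]
  have hnext : inX (!c) = y := by
    refine ext_getD (by rw [hlen, hy2]) fun i hi => ?_
    rw [hlen] at hi
    have h3 := hout (inX c) i (by omega)
    rw [hy1, List.getD_append _ _ _ _ (by omega)] at h3
    rw [hget _ i hi, h1 i hi, h3, htake i hi]
  have hval : ¬ val (C.out y) < val (C.out (inX c)) := by
    rw [MPa0a715.val_lt_iff _ _ (by rw [length_out, length_out]), length_out]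
    rintro ⟨r, hr, h3, h4, h5⟩
    have e1 : ∀ q < C.outs.length, (C.out (inX c)).getD q false =
        (nextC C).env (inX c) (((nextC C).outs.drop C.n).getD q 0) := by
      intro q hq
      have h6 := hout (inX c) (C.n + q) (by omega)
      rw [hy1, List.getD_append_right _ _ _ _ (by omega), hy2, Nat.add_sub_cancel_left] at h6
      rw [h6, hdrop q hq]
    have e2 : ∀ q < C.outs.length, (C.out y).getD q false =
        (nextC C).env (inX (!c)) (((nextC C).outs.drop C.n).getD q 0) := by
      intro q hq
      have h6 := hout (inX (!c)) (C.n + q) (by omega)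
      rw [hy1', List.getD_append_right _ _ _ _ (by omega), hy2', Nat.add_sub_cancel_left] at h6
      rw [← hnext, h6, hdrop q hq]
    refine h2 r (by omega) ?_ ?_ ?_
    · rw [← e1 r hr]
      exact h4
    · rw [← e2 r hr]
      exact h3
    · intro j hj hrj
      rw [hK] at hj
      rw [← e1 j hj, ← e2 j hj]
      exact (h5 j hj hrj).symm
  rcases hy3 with ⟨_, h3⟩ | h3
  · exact h3
  · exfalso
    rw [Circuit.cost_eq, Circuit.cost_eq] at h3
    omega

end

end Pool.Agent.MPa0a715.TL
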