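import Pool.Agent.Lib.MP_a0a715_lc_TL.PTNext
import Pool.Agent.Lib.MP_a0a715_lc_TL.Red

/-!
# The reduction is computed in polynomial time
-/

namespace Pool.Agent.MPa0a715.TL

open Pool.Agent.MPa0a715 Pool.Agent.PolyTime

instance : Enc Var := ⟨fun a => enc (a.kind, a.ix)⟩

section
variable {α β γ : Type} [Enc α] [Enc β] [Enc γ]

theorem pv_y : PTime (fun _ : α => Var.y) := PTime.const _
theorem pv_e {c : Bool} : PTime (fun _ : α => Var.e c) := PTime.const _
theorem pv_v {c : Bool} {f : α → ℕ} (hf : PTime f) : PTime (fun a => Var.v c (f a)) :=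
  ((PTime.const (if c then 3 else 2)).pair hf).of_enc_eq (fun x => x) (fun _ => rfl)
    (fun _ => rfl)
theorem pv_r {c s : Bool} {f : α → ℕ} (hf : PTime f) : PTime (fun a => Var.r c s (f a)) :=
  ((PTime.const (if c then (if s then 7 else 6) else (if s then 5 else 4))).pair hf).of_enc_eq
    (fun x => x) (fun _ => rfl) (fun _ => rfl)
theorem pv_d {c : Bool} {f : α → ℕ} (hf : PTime f) : PTime (fun a => Var.d c (f a)) :=
  ((PTime.const (if c then 9 else 8)).pair hf).of_enc_eq (fun x => x) (fun _ => rfl)
    (fun _ => rfl)
theorem pv_f {f : α → ℕ} (hf : PTime f) : PTime (fun a => Var.f (f a)) :=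
  ((PTime.const 10).pair hf).of_enc_eq (fun x => x) (fun _ => rfl) (fun _ => rfl)
theorem pv_p {c : Bool} {f : α → ℕ} (hf : PTime f) : PTime (fun a => Var.p c (f a)) :=
  ((PTime.const (if c then 12 else 11)).pair hf).of_enc_eq (fun x => x) (fun _ => rfl)
    (fun _ => rfl)
theorem pv_u {c : Bool} {f : α → ℕ} (hf : PTime f) : PTime (fun a => Var.u c (f a)) :=
  ((PTime.const (if c then 14 else 13)).pair hf).of_enc_eq (fun x => x) (fun _ => rfl)
    (fun _ => rfl)
theorem pv_m {f : α → ℕ} (hf : PTime f) : PTime (fun a => Var.m (f a)) :=
  ((PTime.const 15).pair hf).of_enc_eq (fun x => x) (fun _ => rfl) (fun _ => rfl)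

theorem ptime_idx {B : α → ℕ} {f : α → Var} (hB : PTime B) (hf : PTime f) :
    PTime (fun a => idx (B a) (f a)) := by
  have h : PTime (fun a => ((f a).kind, (f a).ix)) :=
    hf.of_enc_eq (fun x => x) (fun _ => rfl) (fun _ => rfl)
  exact (h.fst'.mul hB).add h.snd'

theorem ptime_impG {c : Bool} {t : α → ℕ} {g : α → Gate} (ht : PTime t) (hg : PTime g) :
    PTime (fun a => impG c (t a) (g a)) := by
  have hc : PTime (fun a => (g a).code) := ptime_code hg
  have hk : PTime (fun a => (g a).code.1) := hc.fst'
  have hi : PTime (fun a => (g a).code.2.1) := hc.snd'.fst'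
  have hj : PTime (fun a => (g a).code.2.2) := hc.snd'.snd'
  have f1 : PTime (fun a => ([[(.r c true (g a).code.2.1, true), (.r c true (g a).code.2.2, true),
      (.r c true (t a), false)],
      [(.r c false (g a).code.2.1, true), (.r c false (t a), false)],
      [(.r c false (g a).code.2.2, true), (.r c false (t a), false)]] : List Tm)) := by
    repeat' first
      | exact PTime.const _
      | exact ht
      | exact hi
      | exact hj
      | apply pv_r
      | apply PTime.pair
      | apply PTime.cons
  have f2 : PTime (fun a => ([[(.r c false (g a).code.2.1, true),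
      (.r c false (g a).code.2.2, true), (.r c false (t a), false)],
      [(.r c true (g a).code.2.1, true), (.r c true (t a), false)],
      [(.r c true (g a).code.2.2, true), (.r c true (t a), false)]] : List Tm)) := by
    repeat' first
      | exact PTime.const _
      | exact ht
      | exact hi
      | exact hj
      | apply pv_r
      | apply PTime.pair
      | apply PTime.cons
  have f3 : PTime (fun a => ([[(.r c false (g a).code.2.1, true), (.r c true (t a), false)],
      [(.r c true (g a).code.2.1, true), (.r c false (t a), false)]] : List Tm)) := by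
    repeat' first
      | exact PTime.const _
      | exact ht
      | exact hi
      | apply pv_r
      | apply PTime.pair
      | apply PTime.cons
  refine (ptime_ite_eq hk (b := some true) f1 (ptime_ite_eq hk (b := some false) f2 f3)).of_eq
    fun a => ?_
  cases g a <;> rfl

theorem ptime_imps {c : Bool} {n t : α → ℕ} {G : α → List Gate} (hn : PTime n) (ht : PTime t)
    (hG : PTime G) : PTime (fun a => imps (n a) (G a) c (t a)) := by
  have hg : PTime (fun a => (G a)[t a - n a]?) := PTime.getElem? hG (ht.sub hn)
  have f1 : PTime (fun a => ([[(.v c (t a), true), (.r c true (t a), false)],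
      [(.v c (t a), false), (.r c false (t a), false)]] : List Tm)) := by
    repeat' first
      | exact PTime.const _
      | exact ht
      | apply pv_v
      | apply pv_r
      | apply PTime.pair
      | apply PTime.cons
  have f2 := PTime.option_cases (g := fun _ => ([] : List Tm))
    (h := fun p : α × Gate => impG c (t p.1) p.2) hg (PTime.const _)
    (ptime_impG (ht.comp PTime.fst) PTime.snd)
  refine (PTime.iteP (PTime.lt ht hn) f1 f2).of_eq fun a => ?_
  unfold imps
  congr 1
  cases (G a)[t a - n a]? <;> rfl


theorem ptime_grpL {n W K : α → ℕ} {c : Bool} (hn : PU n) (hW : PU W) (hK : PU K) :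
    PTime (fun a => grpL (n a) (W a) (K a) c) := by
  have e1 : PTime (fun a => (List.range (W a)).map (Var.r c false)) :=
    PTime.map (g := fun (_ : α) (i : ℕ) => Var.r c false i) hW.range (pv_r PTime.snd)
  have e2 : PTime (fun a => (List.range (W a)).map (Var.r c true)) :=
    PTime.map (g := fun (_ : α) (i : ℕ) => Var.r c true i) hW.range (pv_r PTime.snd)
  have e3 : PTime (fun a => (List.range (n a)).map (Var.d c)) :=
    PTime.map (g := fun (_ : α) (i : ℕ) => Var.d c i) hn.range (pv_d PTime.snd)
  have e4 : PTime (fun a => (List.range (K a)).map (Var.u c)) :=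
    PTime.map (g := fun (_ : α) (i : ℕ) => Var.u c i) hK.range (pv_u PTime.snd)
  exact e1.append (e2.append (e3.append e4))

theorem ptime_dL {K : α → ℕ} (hK : PU K) : PTime (fun a => dL (K a)) := by
  have e1 : PTime (fun a => (List.range (K a)).map Var.f) :=
    PTime.map (g := fun (_ : α) (i : ℕ) => Var.f i) hK.range (pv_f PTime.snd)
  have e2 : PTime (fun a => (List.range (K a)).map (Var.p false)) :=
    PTime.map (g := fun (_ : α) (i : ℕ) => Var.p false i) hK.range (pv_p PTime.snd)
  have e3 : PTime (fun a => (List.range (K a)).map (Var.p true)) :=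
    PTime.map (g := fun (_ : α) (i : ℕ) => Var.p true i) hK.range (pv_p PTime.snd)
  exact e1.append (e2.append e3)

theorem PU.sub1 {K : α → ℕ} (hK : PU K) : PU (fun a => K a - 1) := by
  have h1 : PTime (fun a => (List.replicate (K a) ()).tail) := PTime.tail hK
  refine PTime.of_eq h1 fun a => ?_
  rw [List.tail_replicate]

theorem ptime_segs {n K : α → ℕ} {G : α → List Gate} {w z : α → List ℕ} (hn : PU n) (hK : PU K)
    (hG : PTime G) (hw : PTime w) (hz : PTime z) :
    PTime (fun a => segs (n a) (G a) (K a) (w a) (z a)) := by
  have hW : PU (fun a => n a + (G a).length) := hn.add (PU.ofLength hG)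
  have hi : PTime (fun p : α × ℕ => p.2) := PTime.snd
  have hKp : PTime (fun p : α × ℕ => K p.1) := hK.toNat.comp PTime.fst
  have hwi : PTime (fun p : α × ℕ => (w p.1).getD p.2 0) :=
    PTime.listGetD (hw.comp PTime.fst) PTime.snd (PTime.const 0)
  have hzi : PTime (fun p : α × ℕ => (z p.1).getD p.2 0) :=
    PTime.listGetD (hz.comp PTime.fst) PTime.snd (PTime.const 0)
  have hj2 : PTime (fun p : α × ℕ => K p.1 - 2 - p.2) := (hKp.sub (PTime.const 2)).sub hi
  have hj2' : PTime (fun p : α × ℕ => K p.1 - 2 - p.2 + 1) := hj2.add (PTime.const 1)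
  have hzj2 : PTime (fun p : α × ℕ => (z p.1).getD (K p.1 - 2 - p.2 + 1) 0) :=
    PTime.listGetD (hz.comp PTime.fst) hj2' (PTime.const 0)
  have hj1 : PTime (fun p : α × ℕ => K p.1 - 1 - p.2) := (hKp.sub (PTime.const 1)).sub hi
  have himp : ∀ c, PTime (fun p : α × ℕ => imps (n p.1) (G p.1) c p.2) := fun c =>
    ptime_imps (hn.toNat.comp PTime.fst) PTime.snd (hG.comp PTime.fst)
  unfold segs
  simp only [Con.term, Bool.not_false, Bool.not_true]
  refine PTime.cons ?_ (PTime.cons ?_ (PTime.cons ?_ (PTime.cons ?_ (PTime.cons ?_
    (PTime.cons ?_ (PTime.cons ?_ (PTime.cons ?_ (PTime.cons ?_ (PTime.cons ?_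
    (PTime.cons ?_ (PTime.cons ?_ (PTime.cons ?_ (PTime.cons ?_ (PTime.cons ?_
    (PTime.const [])))))))))))))))
  · exact PTime.const _
  · refine PTime.flatMap hW.range (?_ : PTime (fun p : α × ℕ => _))
    refine (himp false).append ((himp true).append ?_)
    repeat' first
      | exact PTime.const _
      | exact hi
      | apply pv_r
      | apply PTime.pair
      | apply PTime.cons
  · refine PTime.flatMap hn.range (?_ : PTime (fun p : α × ℕ => _))
    repeat' first
      | exact PTime.const _
      | exact hi
      | exact hwi
      | apply pv_r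
      | apply pv_v
      | apply pv_d
      | apply PTime.pair
      | apply PTime.cons
  · refine PTime.flatMap (PU.sub1 hK).range (?_ : PTime (fun p : α × ℕ => _))
    repeat' first
      | exact PTime.const _
      | exact hj2
      | exact hj2'
      | exact hzj2
      | apply pv_r
      | apply pv_f
      | apply PTime.pair
      | apply PTime.cons
  · refine PTime.flatMap hK.range (?_ : PTime (fun p : α × ℕ => _))
    repeat' first
      | exact PTime.const _
      | exact hi
      | exact hzi
      | apply pv_r
      | apply pv_f
      | apply pv_p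
      | apply PTime.pair
      | apply PTime.cons
  · refine PTime.flatMap hK.range (?_ : PTime (fun p : α × ℕ => _))
    repeat' first
      | exact PTime.const _
      | exact hi
      | exact hzi
      | apply pv_r
      | apply pv_u
      | apply pv_p
      | apply PTime.pair
      | apply PTime.cons
  · refine PTime.flatMap hK.range (?_ : PTime (fun p : α × ℕ => _))
    repeat' first
      | exact PTime.const _
      | exact hi
      | apply pv_u
      | apply pv_m
      | apply PTime.pair
      | apply PTime.cons
  · refine PTime.flatMap hK.range (?_ : PTime (fun p : α × ℕ => _))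
    refine PTime.cons ?_ ?_
    · repeat' first
        | exact PTime.const _
        | exact hj1
        | apply pv_m
        | apply PTime.pair
        | apply PTime.cons
    · have hr : PTime (fun p : α × ℕ => List.range (K p.1 - 1 - p.2)) :=
        PTime.rangeLe hj1 (g := fun p : α × ℕ => List.replicate (K p.1) ())
          (PTime.comp hK PTime.fst) (fun p => by simp; omega)
      refine PTime.flatMap hr (?_ : PTime (fun q : (α × ℕ) × ℕ => _))
      have hj1' : PTime (fun q : (α × ℕ) × ℕ => K q.1.1 - 1 - q.1.2) := hj1.comp PTime.fst
      have hi' : PTime (fun q : (α × ℕ) × ℕ => q.2) := PTime.snd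
      repeat' first
        | exact PTime.const _
        | exact hj1'
        | exact hi'
        | apply pv_m
        | apply pv_p
        | apply PTime.pair
        | apply PTime.cons
  · refine PTime.flatMap hK.range (?_ : PTime (fun p : α × ℕ => _))
    repeat' first
      | exact PTime.const _
      | exact hi
      | exact hzi
      | apply pv_r
      | apply pv_m
      | apply PTime.pair
      | apply PTime.cons
  · refine PTime.flatMap hn.range (?_ : PTime (fun p : α × ℕ => _))
    repeat' first
      | exact PTime.const _
      | exact hi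
      | apply pv_d
      | apply PTime.pair
      | apply PTime.cons
  · exact PTime.const _
  · have hx : PTime (fun p : α × Var => p.2) := PTime.snd
    refine PTime.append ?_ ?_
    · refine PTime.flatMap (ptime_grpL hn hW hK) (?_ : PTime (fun p : α × Var => _))
      repeat' first
        | exact PTime.const _
        | exact hx
        | apply PTime.pair
        | apply PTime.cons
    · refine PTime.flatMap (ptime_grpL hn hW hK) (?_ : PTime (fun p : α × Var => _))
      repeat' first
        | exact PTime.const _
        | exact hx
        | apply PTime.pair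
        | apply PTime.cons
  · have hx : PTime (fun p : α × Var => p.2) := PTime.snd
    refine PTime.flatMap (ptime_dL hK) (?_ : PTime (fun p : α × Var => _))
    repeat' first
      | exact PTime.const _
      | exact hx
      | apply PTime.pair
      | apply PTime.cons
  · have hx : PTime (fun p : α × Var => p.2) := PTime.snd
    refine PTime.map (ptime_dL hK) (?_ : PTime (fun p : α × Var => _))
    repeat' first
      | exact PTime.const _
      | exact hx
      | apply PTime.pair
      | apply PTime.cons
  · refine PTime.flatMap hn.range (?_ : PTime (fun p : α × ℕ => _))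
    repeat' first
      | exact PTime.const _
      | exact hi
      | exact hwi
      | apply pv_r
      | apply pv_v
      | apply PTime.pair
      | apply PTime.cons


theorem ptime_numT {B : α → ℕ} {f : α → Tm} (hB : PTime B) (hf : PTime f) :
    PTime (fun a => numT (B a) (f a)) := by
  refine PTime.map (g := fun (a : α) (p : Var × Bool) => (idx (B a) p.1, p.2)) hf ?_
  have h1 : PTime (fun q : α × (Var × Bool) => q.2.1) := PTime.fst' PTime.snd
  have h2 : PTime (fun q : α × (Var × Bool) => q.2.2) := PTime.snd' PTime.snd
  exact (ptime_idx (hB.comp PTime.fst) h1).pair h2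

theorem pu_bnd {n K : α → ℕ} {G : α → List Gate} (hn : PU n) (hK : PU K) (hG : PTime G) :
    PU (fun a => bnd (n a) (G a) (K a)) :=
  ((hn.add (PU.ofLength hG)).add hK).add (PU.const 2)

theorem ptime_terms {n K : α → ℕ} {G : α → List Gate} {w z : α → List ℕ} (hn : PU n)
    (hK : PU K) (hG : PTime G) (hw : PTime w) (hz : PTime z) :
    PTime (fun a => terms (n a) (G a) (K a) (w a) (z a)) := by
  have h1 : PTime (fun a => all (n a) (G a) (K a) (w a) (z a)) :=
    PTime.flatten (ptime_segs hn hK hG hw hz)
  have h2 := (pu_bnd hn hK hG).toNat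
  exact PTime.reverse (PTime.map (g := fun (a : α) (T : Tm) =>
    numT (bnd (n a) (G a) (K a)) T) h1 (ptime_numT (h2.comp PTime.fst) PTime.snd))

theorem ptime_litNames {f : α → NT} (hf : PTime f) : PTime (fun a => litNames (f a)) := by
  refine PTime.map (g := fun (_ : α) (p : ℕ × Bool) => (((if p.2 then 0 else 1), p.1) : Name))
    hf ?_
  have h1 : PTime (fun q : α × (ℕ × Bool) => q.2.1) := PTime.fst' PTime.snd
  have h2 : PTime (fun q : α × (ℕ × Bool) => q.2.2) := PTime.snd' PTime.snd
  exact (PTime.iteP h2.boolP (PTime.const 0) (PTime.const 1)).pair h1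

theorem ptime_termCircuit {N : α → ℕ} {Ts : α → List NT} (hN : PU N) (hTs : PTime Ts) :
    PTime (fun a => termCircuit (N a) (Ts a)) := by
  have hin : PTime (fun a => inNames (N a)) :=
    PTime.map (g := fun (_ : α) (i : ℕ) => ((0, i) : Name)) hN.range
      ((PTime.const 0).pair PTime.snd)
  have hG : PTime (fun a => toG 1 (tblocks (N a) (Ts a))) := by
    unfold tblocks
    refine ptime_toG_cons hN ?_ (ptime_toG_cons (PU.ofLength hTs) ?_ (PTime.const _))
    · exact (PTime.const none).pair (((PTime.const 0).pair PTime.snd).cons (PTime.const []))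
    · exact (PTime.const (some true)).pair (ptime_litNames
        (PTime.listGetD (hTs.comp PTime.fst) PTime.snd (PTime.const [])))
  exact ptime_compile hin hG (ptime_ws (PU.ofLength hTs).range)

theorem ptime_drop {f : α → List β} {g : α → ℕ} (hf : PTime f)
    (hg : PTime g) : PTime (fun a => (f a).drop (g a)) := by
  refine (PTime.reverse (PTime.take hf.reverse ((PTime.length hf).sub hg))).of_eq fun a => ?_
  rw [List.take_reverse, List.reverse_reverse]
  by_cases h : g a ≤ (f a).length
  · congr 1
    omega
  · rw [List.drop_of_length_le (by omega), List.drop_of_length_le (by omega)]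

theorem ptime_sys : PTime (fun C : Circuit => sys C.n (nextC C)) := by
  have hN : PTime (fun C : Circuit => nextC C) := ptime_nextC PTime.id
  have hn := pu_n (PTime.id (α := Circuit))
  have hO := ptime_outs hN
  have hG := ptime_gates hN
  have hw : PTime (fun C : Circuit => (nextC C).outs.take C.n) := PTime.take hO hn.toNat
  have hz : PTime (fun C : Circuit => (nextC C).outs.drop C.n) := ptime_drop hO hn.toNat
  have hK : PU (fun C : Circuit => (nextC C).outs.length - C.n) :=
    (PU.ofLength hz).of_eq fun C => by rw [List.length_drop]
  exact ptime_termCircuit ((PU.const 16).mul (pu_bnd hn hK hG)) (ptime_terms hn hK hG hw hz)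

theorem ptime_dcd : PTime (fun p : Circuit × List Bool =>
    dcd p.1.n (bnd p.1.n (nextC p.1).gates ((nextC p.1).outs.length - p.1.n)) p.2) := by
  have hN : PTime (fun p : Circuit × List Bool => nextC p.1) := ptime_nextC PTime.fst
  have hn : PU (fun p : Circuit × List Bool => p.1.n) := pu_n PTime.fst
  have hO := ptime_outs hN
  have hG := ptime_gates hN
  have hz : PTime (fun p : Circuit × List Bool => (nextC p.1).outs.drop p.1.n) :=
    ptime_drop hO hn.toNat
  have hK : PU (fun p : Circuit × List Bool => (nextC p.1).outs.length - p.1.n) :=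
    (PU.ofLength hz).of_eq fun C => by rw [List.length_drop]
  have hB := (pu_bnd hn hK hG).toNat
  refine PTime.map (g := fun (p : Circuit × List Bool) (i : ℕ) =>
    p.2.getD (idx (bnd p.1.n (nextC p.1).gates ((nextC p.1).outs.length - p.1.n))
      (.v (p.2.getD 0 false) i)) false) hn.range ?_
  have hs : PTime (fun q : (Circuit × List Bool) × ℕ => q.1.2) := PTime.snd' PTime.fst
  have hc : PTime (fun q : (Circuit × List Bool) × ℕ => q.1.2.getD 0 false) :=
    PTime.listGetD hs (PTime.const 0) (PTime.const false)
  have hv : PTime (fun q : (Circuit × List Bool) × ℕ => Var.v (q.1.2.getD 0 false) q.2) :=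
    ((PTime.iteP hc.boolP (PTime.const 3) (PTime.const 2)).pair PTime.snd).of_enc_eq
      (fun x => x) (fun _ => rfl) (fun _ => rfl)
  exact PTime.listGetD hs (ptime_idx (hB.comp PTime.fst) hv) (PTime.const false)

end

end Pool.Agent.MPa0a715.TL
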