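import Pool.Agent.Lib.MP_a0a715_lc_TL.Defs
import Pool.Agent.Lib.MP_a0a715_lc.Sem

/-!
# 2-satisfiability by evaluation
-/

namespace Pool.Agent.MPa0a715.TL

open Pool.Agent.MPa0a715 Pool.Agent.PolyTime

/-- the negation of a literal -/
def neg (a : ℕ × Bool) : ℕ × Bool := (a.1, !a.2)

theorem neg_neg' (a : ℕ × Bool) : neg (neg a) = a := by
  unfold neg
  simp

theorem neg_ne (a : ℕ × Bool) : a ≠ neg a := by
  intro h
  have := congrArg Prod.snd h
  unfold neg at this
  revert this
  cases a.2 <;> simp

/-- the point where the literals `a` and `b` hold and all other inputs are `fill` -/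
def pt (n : ℕ) (a b : ℕ × Bool) (fill : Bool) : List Bool :=
  (List.range n).map fun k => if k = a.1 then a.2 else if k = b.1 then b.2 else fill

/-- `a` implies `b` because of a condition in `Z` -/
def edge (n : ℕ) (V : List Bool → List Bool) (Z : List ℕ) (a b : ℕ × Bool) : Bool :=
  !decide (a = b) && Z.any fun t => (V (pt n a (neg b) false)).getD t false &&
    (V (pt n a (neg b) true)).getD t false

/-- all literals -/
def lits (n : ℕ) : List (ℕ × Bool) := (List.range n).flatMap fun i => [(i, false), (i, true)]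

/-- one step of the propagation -/
def pstep (n : ℕ) (V : List Bool → List Bool) (Z : List ℕ) (S : List (ℕ × Bool)) :
    List (ℕ × Bool) :=
  (lits n).filter fun b => decide (b ∈ S) || S.any fun a => edge n V Z a b

/-- the literals implied by `a` -/
def rset (n : ℕ) (V : List Bool → List Bool) (Z : List ℕ) (a : ℕ × Bool) : List (ℕ × Bool) :=
  (lits n).foldl (fun S _ => pstep n V Z S) [a]

/-- the set contains a literal and its negation -/
def conf (n : ℕ) (S : List (ℕ × Bool)) : Bool :=
  (List.range n).any fun i => decide ((i, false) ∈ S) && decide ((i, true) ∈ S)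

/-- the decision procedure -/
def sat (n : ℕ) (V : List Bool → List Bool) (Z : List ℕ) : Bool :=
  (List.range n).all fun i => !conf n (rset n V Z (i, false)) || !conf n (rset n V Z (i, true))

theorem mem_lits {n : ℕ} {a : ℕ × Bool} : a ∈ lits n ↔ a.1 < n := by
  unfold lits
  rw [List.mem_flatMap]
  constructor
  · rintro ⟨i, hi, h⟩
    rw [List.mem_range] at hi
    simp only [List.mem_cons, List.not_mem_nil, or_false] at h
    rcases h with rfl | rfl <;> exact hi
  · intro h
    refine ⟨a.1, List.mem_range.2 h, ?_⟩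
    obtain ⟨i, b⟩ := a
    cases b <;> simp

theorem length_lits (n : ℕ) : (lits n).length = 2 * n := by
  unfold lits
  rw [List.length_flatMap]
  simp [Nat.mul_comm]

theorem pt_getD {n : ℕ} {a b : ℕ × Bool} {fill : Bool} {k : ℕ} (hk : k < n) :
    (pt n a b fill).getD k false =
      if k = a.1 then a.2 else if k = b.1 then b.2 else fill := by
  unfold pt
  rw [List.getD_eq_getElem _ _ (by simpa using hk), List.getElem_map, List.getElem_range]

theorem length_pt {n : ℕ} {a b : ℕ × Bool} {fill : Bool} : (pt n a b fill).length = n := by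
  unfold pt
  simp

section
variable {n : ℕ} {V : List Bool → List Bool} {Z : List ℕ}
  (l : ℕ → List (ℕ × Bool)) (hl : ∀ t ∈ Z, (l t).length ≤ 2 ∧ (∀ p ∈ l t, p.1 < n) ∧
    ∀ x : List Bool, x.length = n →
      ((V x).getD t false = true ↔ ∀ p ∈ l t, x.getD p.1 false = p.2))

include hl in
theorem edge_iff {a b : ℕ × Bool} (ha : a.1 < n) (hb : b.1 < n) :
    edge n V Z a b = true ↔ a ≠ b ∧ ∃ t ∈ Z, ∀ p ∈ l t, p = a ∨ p = neg b := by
  unfold edge
  rw [Bool.and_eq_true, Bool.not_eq_true', decide_eq_false_iff_not, List.any_eq_true]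
  refine and_congr_right fun hab => ?_
  constructor
  · rintro ⟨t, ht, h⟩
    rw [Bool.and_eq_true, (hl t ht).2.2 _ length_pt, (hl t ht).2.2 _ length_pt] at h
    refine ⟨t, ht, fun p hp => ?_⟩
    have hpn := (hl t ht).2.1 p hp
    have h1 := h.1 p hp
    have h2 := h.2 p hp
    rw [pt_getD hpn] at h1 h2
    by_cases h3 : p.1 = a.1
    · rw [if_pos h3] at h1
      exact Or.inl (Prod.ext h3 h1.symm)
    · rw [if_neg h3] at h1 h2
      by_cases h4 : p.1 = (neg b).1
      · rw [if_pos h4] at h1
        exact Or.inr (Prod.ext h4 h1.symm)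
      · rw [if_neg h4] at h1 h2
        rw [← h1] at h2
        exact absurd h2 (by simp)
  · rintro ⟨t, ht, h⟩
    refine ⟨t, ht, ?_⟩
    rw [Bool.and_eq_true, (hl t ht).2.2 _ length_pt, (hl t ht).2.2 _ length_pt]
    have key : ∀ fill, ∀ p ∈ l t, (pt n a (neg b) fill).getD p.1 false = p.2 := by
      intro fill p hp
      rw [pt_getD ((hl t ht).2.1 p hp)]
      rcases h p hp with rfl | rfl
      · rw [if_pos rfl]
      · by_cases h3 : (neg b).1 = a.1
        · rw [if_pos h3]
          have h4 : a.2 ≠ b.2 := fun h4 => hab (Prod.ext h3.symm h4)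
          unfold neg
          dsimp only
          revert h4
          cases a.2 <;> cases b.2 <;> simp
        · rw [if_neg h3, if_pos rfl]
    exact ⟨key false, key true⟩

/-- the implications between literals -/
def E (n : ℕ) (V : List Bool → List Bool) (Z : List ℕ) (a b : ℕ × Bool) : Prop :=
  a.1 < n ∧ b.1 < n ∧ edge n V Z a b = true

include hl in
theorem E_skew {a b : ℕ × Bool} (h : E n V Z a b) : E n V Z (neg b) (neg a) := by
  obtain ⟨ha, hb, h⟩ := h
  rw [edge_iff l hl ha hb] at h
  refine ⟨hb, ha, ?_⟩
  rw [edge_iff l hl (a := neg b) (b := neg a) hb ha]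
  obtain ⟨h1, t, ht, h2⟩ := h
  refine ⟨fun h3 => h1 ?_, t, ht, fun p hp => ?_⟩
  · rw [← neg_neg' a, ← neg_neg' b, h3]
  · rw [neg_neg']
    exact (h2 p hp).symm

/-- reachability -/
def Rch (n : ℕ) (V : List Bool → List Bool) (Z : List ℕ) : ℕ × Bool → ℕ × Bool → Prop :=
  Relation.ReflTransGen (E n V Z)

include hl in
theorem Rch_skew {a b : ℕ × Bool} (h : Rch n V Z a b) : Rch n V Z (neg b) (neg a) := by
  induction h with
  | refl => exact Relation.ReflTransGen.refl
  | tail _ h2 ih => exact Relation.ReflTransGen.head (E_skew l hl h2) ih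

theorem Rch_lt {a b : ℕ × Bool} (ha : a.1 < n) (h : Rch n V Z a b) : b.1 < n := by
  induction h with
  | refl => exact ha
  | tail _ h2 _ => exact h2.2.1

/-- no two contradictory conclusions -/
def Good (n : ℕ) (V : List Bool → List Bool) (Z : List ℕ) (a : ℕ × Bool) : Prop :=
  ∀ b, Rch n V Z a b → ¬ Rch n V Z a (neg b)

include hl in
theorem exists_set (H : ∀ i < n, ∃ s, Good n V Z (i, s)) (m : ℕ) (hm : m ≤ n) :
    ∃ S : Set (ℕ × Bool), (∀ a ∈ S, ∀ b, E n V Z a b → b ∈ S) ∧ (∀ a ∈ S, neg a ∉ S) ∧
      ∀ i < m, (i, true) ∈ S ∨ (i, false) ∈ S := by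
  induction m with
  | zero => exact ⟨∅, by simp, by simp, by simp⟩
  | succ m ih =>
    obtain ⟨S, h1, h2, h3⟩ := ih (by omega)
    by_cases h : (m, true) ∈ S ∨ (m, false) ∈ S
    · refine ⟨S, h1, h2, fun i hi => ?_⟩
      rcases Nat.lt_succ_iff_lt_or_eq.1 hi with h4 | rfl
      · exact h3 i h4
      · exact h
    · obtain ⟨s, hs⟩ := H m (by omega)
      have hcl : ∀ a ∈ S, ∀ b, Rch n V Z a b → b ∈ S := by
        intro a ha b hb
        induction hb with
        | refl => exact ha
        | tail _ h5 ih => exact h1 _ ih _ h5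
      have hno : ∀ b, Rch n V Z (m, s) b → neg b ∉ S := by
        intro b hb hcon
        have h4 := hcl _ hcon _ (Rch_skew l hl hb)
        apply h
        unfold neg at h4
        cases s
        · exact Or.inl h4
        · exact Or.inr h4
      refine ⟨S ∪ {b | Rch n V Z (m, s) b}, ?_, ?_, ?_⟩
      · rintro a (ha | ha) b hb
        · exact Or.inl (h1 a ha b hb)
        · exact Or.inr (Relation.ReflTransGen.tail ha hb)
      · rintro a (ha | ha) (hb | hb)
        · exact h2 a ha hb
        · have := hno _ hb
          rw [neg_neg'] at this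
          exact this ha
        · exact hno _ ha hb
        · exact hs a ha hb
      · intro i hi
        rcases Nat.lt_succ_iff_lt_or_eq.1 hi with h4 | rfl
        · rcases h3 i h4 with h5 | h5
          · exact Or.inl (Or.inl h5)
          · exact Or.inr (Or.inl h5)
        · cases s
          · exact Or.inr (Or.inr Relation.ReflTransGen.refl)
          · exact Or.inl (Or.inr Relation.ReflTransGen.refl)

include hl in
theorem sat_of_good (hn : 0 < n) (H : ∀ i < n, ∃ s, Good n V Z (i, s)) :
    ∃ x : List Bool, x.length = n ∧ ∀ t ∈ Z, (V x).getD t false = false := by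
  classical
  obtain ⟨S, h1, h2, h3⟩ := exists_set l hl H n le_rfl
  refine ⟨(List.range n).map fun i => decide ((i, true) ∈ S), by simp, fun t ht => ?_⟩
  rw [← Bool.not_eq_true]
  intro hcon
  rw [(hl t ht).2.2 _ (by simp)] at hcon
  have hS : ∀ p ∈ l t, p ∈ S := by
    intro p hp
    have h4 := hcon p hp
    have hpn := (hl t ht).2.1 p hp
    rw [List.getD_eq_getElem _ _ (by simpa using hpn), List.getElem_map,
      List.getElem_range] at h4
    obtain ⟨i, b⟩ := p
    cases b with
    | true => exact of_decide_eq_true h4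
    | false =>
      rcases h3 i hpn with h5 | h5
      · exact absurd h5 (of_decide_eq_false h4)
      · exact h5
  obtain ⟨p, q, hp, hq, hpn, hqn, hpq⟩ : ∃ p q : ℕ × Bool, p ∈ S ∧ q ∈ S ∧ p.1 < n ∧ q.1 < n ∧
      ∀ r ∈ l t, r = p ∨ r = q := by
    have hlen := (hl t ht).1
    have hlt := (hl t ht).2.1
    generalize l t = L at hS hlen hlt
    match L with
    | [] =>
      rcases h3 0 hn with h5 | h5
      · exact ⟨_, _, h5, h5, hn, hn, by simp⟩
      · exact ⟨_, _, h5, h5, hn, hn, by simp⟩
    | [a] =>
      exact ⟨a, a, hS a (by simp), hS a (by simp), hlt a (by simp), hlt a (by simp), by simp⟩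
    | [a, b] =>
      exact ⟨a, b, hS a (by simp), hS b (by simp), hlt a (by simp), hlt b (by simp), by simp⟩
    | a :: b :: c :: L => simp at hlen
  have hE : E n V Z p (neg q) := by
    refine ⟨hpn, hqn, ?_⟩
    rw [edge_iff l hl (b := neg q) hpn hqn]
    refine ⟨?_, t, ht, ?_⟩
    · intro h5
      rw [h5] at hp
      exact h2 q hq hp
    · rw [neg_neg']
      exact hpq
  exact h2 q hq (h1 p hp _ hE)

include hl in
theorem good_of_sat {x : List Bool} (hx : x.length = n)
    (h : ∀ t ∈ Z, (V x).getD t false = false) {i : ℕ} (hi : i < n) :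
    Good n V Z (i, x.getD i false) := by
  have key : ∀ b, Rch n V Z (i, x.getD i false) b → x.getD b.1 false = b.2 := by
    intro b hb
    induction hb with
    | refl => rfl
    | tail _ h2 ih =>
      rename_i b c hb'
      obtain ⟨hb1, hc1, h3⟩ := h2
      rw [edge_iff l hl hb1 hc1] at h3
      obtain ⟨_, t, ht, h4⟩ := h3
      by_contra hcon
      have h5 := h t ht
      rw [← Bool.not_eq_true] at h5
      apply h5
      rw [(hl t ht).2.2 _ hx]
      intro p hp
      rcases h4 p hp with rfl | rfl
      · exact ih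
      · unfold neg
        dsimp only
        revert hcon
        cases x.getD c.1 false <;> cases c.2 <;> simp
  intro b h1 h2
  have h3 := key b h1
  have h4 := key _ h2
  unfold neg at h4
  dsimp only at h4
  rw [h3] at h4
  revert h4
  cases b.2 <;> simp

end

/-! ### the computation of the reachable sets -/

section
variable {n : ℕ} {V : List Bool → List Bool} {Z : List ℕ}

theorem mem_pstep {S : List (ℕ × Bool)} {b : ℕ × Bool} :
    b ∈ pstep n V Z S ↔ b.1 < n ∧ (b ∈ S ∨ ∃ a ∈ S, edge n V Z a b = true) := by
  unfold pstep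
  rw [List.mem_filter, mem_lits, Bool.or_eq_true, decide_eq_true_eq, List.any_eq_true]

theorem foldl_const {α β : Type*} (f : α → α) (l : List β) (a : α) :
    l.foldl (fun S _ => f S) a = f^[l.length] a := by
  induction l generalizing a with
  | nil => rfl
  | cons b l ih => rw [List.foldl_cons, ih, List.length_cons, Function.iterate_succ_apply]

theorem mem_rset {a b : ℕ × Bool} (ha : a.1 < n) : b ∈ rset n V Z a ↔ Rch n V Z a b := by
  unfold rset
  rw [foldl_const, length_lits]
  have hsub : ∀ k, ∀ c ∈ (pstep n V Z)^[k] [a], c.1 < n ∧ Rch n V Z a c := by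
    intro k
    induction k with
    | zero =>
      intro c hc
      rw [Function.iterate_zero, id, List.mem_singleton] at hc
      rw [hc]
      exact ⟨ha, Relation.ReflTransGen.refl⟩
    | succ k ih =>
      intro c hc
      rw [Function.iterate_succ_apply', mem_pstep] at hc
      obtain ⟨hc1, hc2 | ⟨d, hd, hc2⟩⟩ := hc
      · exact ih c hc2
      · exact ⟨hc1, Relation.ReflTransGen.tail (ih d hd).2 ⟨(ih d hd).1, hc1, hc2⟩⟩
  have hmono : ∀ k, ∀ c ∈ (pstep n V Z)^[k] [a], c ∈ (pstep n V Z)^[k + 1] [a] := by
    intro k c hc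
    rw [Function.iterate_succ_apply', mem_pstep]
    exact ⟨(hsub k c hc).1, Or.inl hc⟩
  have hcard : ∀ k, (∀ c ∈ (pstep n V Z)^[k + 1] [a], c ∈ (pstep n V Z)^[k] [a]) ∨
      k + 1 ≤ ((pstep n V Z)^[k] [a]).toFinset.card := by
    intro k
    induction k with
    | zero =>
      right
      rw [Function.iterate_zero, id]
      simp
    | succ k ih =>
      by_cases hcl : ∀ c ∈ (pstep n V Z)^[k + 1] [a], c ∈ (pstep n V Z)^[k] [a]
      · left
        intro c hc
        rw [Function.iterate_succ_apply', mem_pstep] at hc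
        obtain ⟨hc1, hc2 | ⟨d, hd, hc2⟩⟩ := hc
        · exact hc2
        · rw [Function.iterate_succ_apply', mem_pstep]
          exact ⟨hc1, Or.inr ⟨d, hcl d hd, hc2⟩⟩
      · right
        rcases ih with h | h
        · exact absurd h hcl
        · push Not at hcl
          obtain ⟨c, hc1, hc2⟩ := hcl
          have hlt : ((pstep n V Z)^[k] [a]).toFinset ⊂ ((pstep n V Z)^[k + 1] [a]).toFinset := by
            rw [Finset.ssubset_iff_of_subset (by
              intro d hd
              rw [List.mem_toFinset] at hd ⊢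
              exact hmono k d hd)]
            exact ⟨c, List.mem_toFinset.2 hc1, fun h => hc2 (List.mem_toFinset.1 h)⟩
          have := Finset.card_lt_card hlt
          omega
  have hclosed : ∀ c ∈ (pstep n V Z)^[2 * n + 1] [a], c ∈ (pstep n V Z)^[2 * n] [a] := by
    rcases hcard (2 * n) with h | h
    · exact h
    · exfalso
      have h1 : ((pstep n V Z)^[2 * n] [a]).toFinset ⊆ (lits n).toFinset := by
        intro d hd
        rw [List.mem_toFinset] at hd ⊢
        exact mem_lits.2 (hsub _ d hd).1
      have h2 := Finset.card_le_card h1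
      have h3 := List.toFinset_card_le (lits n)
      rw [length_lits] at h3
      omega
  constructor
  · intro h
    exact (hsub _ b h).2
  · intro h
    induction h with
    | refl =>
      have : ∀ k, a ∈ (pstep n V Z)^[k] [a] := by
        intro k
        induction k with
        | zero => simp
        | succ k ih => exact hmono k a ih
      exact this _
    | tail _ h2 ih =>
      apply hclosed
      rw [Function.iterate_succ_apply', mem_pstep]
      exact ⟨h2.2.1, Or.inr ⟨_, ih, h2.2.2⟩⟩

theorem conf_iff {a : ℕ × Bool} (ha : a.1 < n) :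
    conf n (rset n V Z a) = false ↔ Good n V Z a := by
  unfold conf Good
  rw [← Bool.not_eq_true, List.any_eq_true]
  simp only [Bool.and_eq_true, decide_eq_true_eq, mem_rset ha, List.mem_range, not_exists,
    not_and]
  constructor
  · intro h b h1 h2
    have hb := Rch_lt ha h1
    obtain ⟨i, s⟩ := b
    cases s
    · exact h i hb h1 h2
    · exact h i hb h2 h1
  · intro h i hi h1 h2
    exact h _ h1 h2

/-- the decision procedure is correct -/
theorem sat_iff (hn : 0 < n) (l : ℕ → List (ℕ × Bool)) (hl : ∀ t ∈ Z, (l t).length ≤ 2 ∧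
    (∀ p ∈ l t, p.1 < n) ∧ ∀ x : List Bool, x.length = n →
      ((V x).getD t false = true ↔ ∀ p ∈ l t, x.getD p.1 false = p.2)) :
    sat n V Z = true ↔ ∃ x : List Bool, x.length = n ∧ ∀ t ∈ Z, (V x).getD t false = false := by
  unfold sat
  rw [List.all_eq_true]
  simp only [Bool.or_eq_true, Bool.not_eq_true', List.mem_range]
  constructor
  · intro h
    refine sat_of_good l hl hn fun i hi => ?_
    rcases h i hi with h1 | h1
    · exact ⟨false, (conf_iff (a := (i, false)) hi).1 h1⟩
    · exact ⟨true, (conf_iff (a := (i, true)) hi).1 h1⟩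
  · rintro ⟨x, hx, h⟩ i hi
    have h1 := good_of_sat l hl hx h hi
    cases hb : x.getD i false with
    | false =>
      rw [hb] at h1
      exact Or.inl ((conf_iff (a := (i, false)) hi).2 h1)
    | true =>
      rw [hb] at h1
      exact Or.inr ((conf_iff (a := (i, true)) hi).2 h1)

end

end Pool.Agent.MPa0a715.TL
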