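import Pool.Agent.Lib.MP_a0a715_lc_TL.Sys

/-!
# Local minima of the system of conjunctions
-/

namespace Pool.Agent.MPa0a715.TL

open Pool.Agent.MPa0a715

section
variable {n : ℕ} {G : List Gate} {K : ℕ} {w z : List ℕ} {X : Var → Bool}

theorem ix_r {c s : Bool} {t : ℕ} (ht : t < n + G.length) :
    (Var.r c s t).ix < bnd n G K := by
  simp only [bnd, Var.ix]
  omega

theorem ix_e {c : Bool} : (Var.e c).ix < bnd n G K := by
  simp only [bnd, Var.ix]
  split_ifs <;> omega

theorem ix_v {c : Bool} {i : ℕ} (hi : i < n) : (Var.v c i).ix < bnd n G K := by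
  simp only [bnd, Var.ix]
  omega

theorem ix_d {c : Bool} {i : ℕ} (hi : i < n) : (Var.d c i).ix < bnd n G K := by
  simp only [bnd, Var.ix]
  omega

theorem ix_f {j : ℕ} (hj : j < K) : (Var.f j).ix < bnd n G K := by
  simp only [bnd, Var.ix]
  omega

theorem ix_p {c : Bool} {j : ℕ} (hj : j < K) : (Var.p c j).ix < bnd n G K := by
  simp only [bnd, Var.ix]
  omega

theorem ix_u {c : Bool} {j : ℕ} (hj : j < K) : (Var.u c j).ix < bnd n G K := by
  simp only [bnd, Var.ix]
  omega

theorem ix_m {j : ℕ} (hj : j < K) : (Var.m j).ix < bnd n G K := by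
  simp only [bnd, Var.ix]
  omega

theorem im_no (hG : GV n G) {c : Bool} {t : ℕ} {T : Tm}
    (h : t < n + G.length ∧ T ∈ imps n G c t) {a : Var} {b : Bool} (hm : (a, b) ∈ T)
    (hv : ∀ c i, a ≠ .v c i) (hr : ∀ c s i, a ≠ .r c s i) : False := by
  rcases imps_lit hG h.1 h.2 hm with ⟨_, h, _⟩ | ⟨_, _, h, _⟩ | ⟨_, h⟩
  · exact hv _ _ (Prod.ext_iff.1 h).1
  · exact hr _ _ _ (Prod.ext_iff.1 h).1
  · exact hr _ _ _ (Prod.ext_iff.1 h).1

/-- the active copy is in the mode of evaluation -/
theorem fact_e (hG : GV n G) (hX : Min n G K w z X) {c : Bool} (hy : X .y = c) :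
    X (.e c) = true := by
  by_contra h
  rw [Bool.not_eq_true] at h
  refine hX (.ee c) (.e c) false trivial ix_e h (by simp [Con.term]) ?_ ?_
  · intro q hq
    simp only [Con.term, List.mem_cons, List.not_mem_nil, or_false] at hq
    rcases hq with rfl | rfl
    · exact hy
    · exact h
  · intro κ hok hle hmem
    cases κ
    case im => exact (im_no hG hok hmem (by simp) (by simp)).elim
    all_goals first
      | (simp [Con.term] at hmem; done)
      | (simp [Con.le, Con.maj] at hle; done)

/-- implications of rails hold -/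
theorem fact_im (hG : GV n G) (hX : Min n G K w z X) {c : Bool} {t : ℕ}
    (ht : t < n + G.length) {T : Tm} (hT : T ∈ imps n G c t) : ¬ tv X T := by
  intro htv
  obtain ⟨s, hs⟩ := imps_concl hT
  refine hX (.im c t T) (.r c s t) false ⟨ht, hT⟩ (ix_r ht) (htv _ hs) hs htv ?_
  intro κ hok hle hmem
  cases κ
  case im c' t' T' =>
    exfalso
    have h1 : t' ≤ t := by
      rcases hle with h | ⟨_, h⟩
      · exact absurd h (by simp [Con.maj])
      · simp only [Con.mino] at h
        omega
    rcases imps_lit hG hok.1 hok.2 hmem with ⟨b, h, _⟩ | ⟨s', i, h, hi⟩ | ⟨s', h⟩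
    · simp at h
    · simp only [Prod.mk.injEq, Var.r.injEq] at h
      omega
    · simp at h
  case ex c' t' =>
    exfalso
    have h1 : t' < t := by
      rcases hle with h | ⟨_, h⟩
      · exact absurd h (by simp [Con.maj])
      · simp only [Con.mino] at h
        omega
    simp only [Con.term, List.mem_cons, List.not_mem_nil, or_false, Prod.mk.injEq,
      Var.r.injEq, reduceCtorEq, false_and, false_or] at hmem
    omega
  all_goals first
    | (simp [Con.term] at hmem; done)
    | (simp [Con.le, Con.maj] at hle; done)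

theorem fact_dd (hG : GV n G) (hX : Min n G K w z X) {c b : Bool} {i : ℕ} (hi : i < n)
    (htv : tv X (Con.term w z (.dd c b i))) : False := by
  refine hX (.dd c b i) (.d c i) false hi (ix_d hi) (htv (.d c i, false) (by simp [Con.term]))
    (by simp [Con.term]) htv ?_
  intro κ hok hle hmem
  cases κ
  case im => exact (im_no hG hok hmem (by simp) (by simp)).elim
  all_goals first
    | (simp [Con.term] at hmem; done)
    | (simp [Con.le, Con.maj] at hle; done)

theorem fact_ff (hG : GV n G) (hX : Min n G K w z X) {j : ℕ} (hj : j + 1 < K)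
    (htv : tv X (Con.term w z (.ff j))) : False := by
  refine hX (.ff j) (.f j) false hj (ix_f (by omega)) (htv (.f j, false) (by simp [Con.term]))
    (by simp [Con.term]) htv ?_
  intro κ hok hle hmem
  cases κ
  case im => exact (im_no hG hok hmem (by simp) (by simp)).elim
  case ff j' =>
    exfalso
    simp [Con.le, Con.maj, Con.mino, Con.term, Con.Ok] at hle hmem hok
    omega
  all_goals first
    | (simp [Con.term] at hmem; done)
    | (simp [Con.le, Con.maj] at hle; done)

theorem fact_fg (hG : GV n G) (hX : Min n G K w z X) {b : Bool} {j : ℕ} (hj : j + 1 < K)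
    (htv : tv X (Con.term w z (.fg b j))) : False := by
  refine hX (.fg b j) (.f j) false hj (ix_f (by omega)) (htv (.f j, false) (by simp [Con.term]))
    (by simp [Con.term]) htv ?_
  intro κ hok hle hmem
  cases κ
  case im => exact (im_no hG hok hmem (by simp) (by simp)).elim
  case ff j' =>
    exfalso
    simp [Con.le, Con.maj, Con.mino, Con.term, Con.Ok] at hle hmem hok
    omega
  all_goals first
    | (simp [Con.term] at hmem; done)
    | (simp [Con.le, Con.maj] at hle; done)

theorem fact_p1 (hG : GV n G) (hX : Min n G K w z X) {c : Bool} {j : ℕ} (hj : j < K)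
    (htv : tv X (Con.term w z (.p1 c j))) : False := by
  refine hX (.p1 c j) (.p c j) false hj (ix_p hj) (htv (.p c j, false) (by simp [Con.term]))
    (by simp [Con.term]) htv ?_
  intro κ hok hle hmem
  cases κ
  case im => exact (im_no hG hok hmem (by simp) (by simp)).elim
  all_goals first
    | (simp [Con.term] at hmem; done)
    | (simp [Con.le, Con.maj] at hle; done)

theorem fact_p2 (hG : GV n G) (hX : Min n G K w z X) {c : Bool} {j : ℕ} (hj : j < K)
    (htv : tv X (Con.term w z (.p2 c j))) : False := by
  refine hX (.p2 c j) (.p c j) false hj (ix_p hj) (htv (.p c j, false) (by simp [Con.term]))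
    (by simp [Con.term]) htv ?_
  intro κ hok hle hmem
  cases κ
  case im => exact (im_no hG hok hmem (by simp) (by simp)).elim
  all_goals first
    | (simp [Con.term] at hmem; done)
    | (simp [Con.le, Con.maj] at hle; done)

theorem fact_p3 (hG : GV n G) (hX : Min n G K w z X) {c : Bool} {j : ℕ} (hj : j < K)
    (htv : tv X (Con.term w z (.p3 c j))) : False := by
  refine hX (.p3 c j) (.p c j) false hj (ix_p hj) (htv (.p c j, false) (by simp [Con.term]))
    (by simp [Con.term]) htv ?_
  intro κ hok hle hmem
  cases κ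
  case im => exact (im_no hG hok hmem (by simp) (by simp)).elim
  all_goals first
    | (simp [Con.term] at hmem; done)
    | (simp [Con.le, Con.maj] at hle; done)

theorem fact_u1 (hG : GV n G) (hX : Min n G K w z X) {c : Bool} {j : ℕ} (hj : j < K)
    (htv : tv X (Con.term w z (.u1 c j))) : False := by
  refine hX (.u1 c j) (.u c j) false hj (ix_u hj) (htv (.u c j, false) (by simp [Con.term]))
    (by simp [Con.term]) htv ?_
  intro κ hok hle hmem
  cases κ
  case im => exact (im_no hG hok hmem (by simp) (by simp)).elim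
  all_goals first
    | (simp [Con.term] at hmem; done)
    | (simp [Con.le, Con.maj] at hle; done)

theorem fact_u2 (hG : GV n G) (hX : Min n G K w z X) {c : Bool} {j : ℕ} (hj : j < K)
    (htv : tv X (Con.term w z (.u2 c j))) : False := by
  refine hX (.u2 c j) (.u c j) false hj (ix_u hj) (htv (.u c j, false) (by simp [Con.term]))
    (by simp [Con.term]) htv ?_
  intro κ hok hle hmem
  cases κ
  case im => exact (im_no hG hok hmem (by simp) (by simp)).elim
  all_goals first
    | (simp [Con.term] at hmem; done)
    | (simp [Con.le, Con.maj] at hle; done)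

theorem fact_aa (hG : GV n G) (hX : Min n G K w z X) {c : Bool} {j : ℕ} (hj : j < K)
    (htv : tv X (Con.term w z (.aa c j))) : False := by
  refine hX (.aa c j) (.m j) false hj (ix_m hj) (htv (.m j, false) (by simp [Con.term]))
    (by simp [Con.term]) htv ?_
  intro κ hok hle hmem
  cases κ
  case im => exact (im_no hG hok hmem (by simp) (by simp)).elim
  all_goals first
    | (simp [Con.term] at hmem; done)
    | (simp [Con.le, Con.maj] at hle; done)

theorem bex_cons {α : Type*} {a : α} {l : List α} {P : α → Prop} :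
    (∃ p ∈ a :: l, P p) ↔ P a ∨ ∃ p ∈ l, P p := by simp

theorem bex_nil {α : Type*} {P : α → Prop} : (∃ p ∈ ([] : List α), P p) ↔ False := by simp

theorem ball_cons {α : Type*} {a : α} {l : List α} {P : α → Prop} :
    (∀ p ∈ a :: l, P p) ↔ P a ∧ ∀ p ∈ l, P p := by simp

theorem ball_nil {α : Type*} {P : α → Prop} : (∀ p ∈ ([] : List α), P p) ↔ True := by simp

theorem gate_imp {c : Bool} {t : ℕ} {ev : ℕ → Bool} {g : Gate}
    (h : ∀ i ∈ g.refs, i < t ∧ ∀ s, X (.r c s i) = (ev i == s)) :
    (∃ T ∈ impG c t g, ∀ p ∈ T, p ≠ (.r c (g.evalW ev) t, false) → X p.1 = p.2) ∧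
    (∀ T ∈ impG c t g, (Var.r c (!g.evalW ev) t, false) ∈ T →
      ∃ p ∈ T, p.1 ≠ .r c (!g.evalW ev) t ∧ X p.1 ≠ p.2) := by
  cases g with
  | and i j =>
    simp only [Gate.refs, List.mem_cons, List.not_mem_nil, or_false, forall_eq_or_imp,
      forall_eq] at h
    obtain ⟨⟨hi, h1⟩, hj, h2⟩ := h
    have hi' : i ≠ t := by omega
    have hj' : j ≠ t := by omega
    simp only [impG, Gate.evalW, ball_cons, ball_nil, bex_cons, bex_nil]
    cases hei : ev i <;> cases hej : ev j <;> simp [h1, h2, hei, hej, hi', hj']
  | or i j =>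
    simp only [Gate.refs, List.mem_cons, List.not_mem_nil, or_false, forall_eq_or_imp,
      forall_eq] at h
    obtain ⟨⟨hi, h1⟩, hj, h2⟩ := h
    have hi' : i ≠ t := by omega
    have hj' : j ≠ t := by omega
    simp only [impG, Gate.evalW, ball_cons, ball_nil, bex_cons, bex_nil]
    cases hei : ev i <;> cases hej : ev j <;> simp [h1, h2, hei, hej, hi', hj']
  | not i =>
    simp only [Gate.refs, List.mem_cons, List.not_mem_nil, or_false, forall_eq] at h
    obtain ⟨hi, h1⟩ := h
    have hi' : i ≠ t := by omega
    simp only [impG, Gate.evalW, ball_cons, ball_nil, bex_cons, bex_nil]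
    cases hei : ev i <;> simp [h1, hei, hi']

theorem rails (hG : GV n G) (hX : Min n G K w z X) {c : Bool} {ev : ℕ → Bool}
    (he1 : ∀ t < n, ev t = X (.v c t))
    (he2 : ∀ (k : ℕ) (h : k < G.length), ev (n + k) = (G[k]).evalW ev)
    (hw : ∀ t < n + G.length, ∀ s, X (.r c s t) = true → X (.r c (!s) t) = true →
      (∀ T ∈ imps n G c t, (Var.r c s t, false) ∈ T → ∃ p ∈ T, p.1 ≠ .r c s t ∧ X p.1 ≠ p.2) →
      False) : ∀ t < n + G.length, ∀ s, X (.r c s t) = (ev t == s) := by
  intro t
  induction t using Nat.strong_induction_on with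
  | _ t ih =>
    intro ht
    have key : (∃ T ∈ imps n G c t, ∀ p ∈ T, p ≠ (.r c (ev t) t, false) → X p.1 = p.2) ∧
        (∀ T ∈ imps n G c t, (Var.r c (!ev t) t, false) ∈ T →
          ∃ p ∈ T, p.1 ≠ .r c (!ev t) t ∧ X p.1 ≠ p.2) := by
      by_cases h : t < n
      · have himp : imps n G c t = [[(.v c t, true), (.r c true t, false)],
            [(.v c t, false), (.r c false t, false)]] := by
          unfold imps
          rw [if_pos h]
        rw [himp, he1 t h]
        simp only [ball_cons, ball_nil, bex_cons, bex_nil]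
        cases hv : X (.v c t) <;> simp
      · obtain ⟨k, rfl⟩ : ∃ k, t = n + k := ⟨t - n, by omega⟩
        have hk : k < G.length := by omega
        unfold imps
        rw [if_neg h, Nat.add_sub_cancel_left, List.getElem?_eq_getElem hk, he2 k hk]
        refine gate_imp fun i hi => ?_
        have hlt := hG k hk i hi
        exact ⟨hlt, ih i hlt (by omega)⟩
    have hup : X (.r c (ev t) t) = true := by
      obtain ⟨T, hT, hp⟩ := key.1
      by_contra hcon
      rw [Bool.not_eq_true] at hcon
      refine fact_im hG hX ht hT fun p hp' => ?_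
      by_cases h : p = (.r c (ev t) t, false)
      · rw [h]
        exact hcon
      · exact hp p hp' h
    intro s
    by_cases hs : ev t = s
    · rw [← hs, hup]
      simp
    · have hs' : s = !ev t := by
        revert hs
        cases ev t <;> cases s <;> simp
      subst hs'
      cases hv : X (.r c (!ev t) t) with
      | false => simp
      | true =>
        exact (hw t ht (!ev t) hv (by rw [Bool.not_not]; exact hup) key.2).elim

end

end Pool.Agent.MPa0a715.TL
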