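import Pool.Agent.Lib.MP_a0a715_lc_TL.Core

/-!
# Local minima of the system of conjunctions: the active copy and the mode of resetting
-/

namespace Pool.Agent.MPa0a715.TL

open Pool.Agent.MPa0a715

section
variable {n : ℕ} {G : List Gate} {K : ℕ} {w z : List ℕ} {X : Var → Bool}

theorem act_rails (hG : GV n G) (hX : Min n G K w z X) {c : Bool} (hy : X .y = c)
    {ev : ℕ → Bool} (he1 : ∀ t < n, ev t = X (.v c t))
    (he2 : ∀ (k : ℕ) (h : k < G.length), ev (n + k) = (G[k]).evalW ev) :
    ∀ t < n + G.length, ∀ s, X (.r c s t) = (ev t == s) := by
  refine rails hG hX he1 he2 ?_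
  intro t ht s h1 h2 hprem
  refine hX (.ex c t) (.r c s t) true ht (ix_r ht) h1 ?_ ?_ ?_
  · cases s <;> simp [Con.term]
  · intro q hq
    simp only [Con.term, List.mem_cons, List.not_mem_nil, or_false] at hq
    cases s
    · rcases hq with rfl | rfl | rfl
      · exact hy
      · exact h2
      · exact h1
    · rcases hq with rfl | rfl | rfl
      · exact hy
      · exact h1
      · exact h2
  · intro κ hok hle hmem
    cases κ
    case im c' t' T' =>
      rcases imps_lit hG hok.1 hok.2 hmem with ⟨b, h, _⟩ | ⟨s', i, h, hi⟩ | ⟨s', h⟩
      · simp at h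
      · simp at h
      · simp only [Prod.mk.injEq, Var.r.injEq] at h
        obtain ⟨⟨rfl, rfl, rfl⟩, _⟩ := h
        exact hprem T' hok.2 hmem
    all_goals first
      | (simp [Con.term] at hmem; done)
      | (simp [Con.le, Con.maj] at hle; done)

/-- the comparison of the inputs of the inactive copy with the next solution -/
theorem act_d (hG : GV n G) (hX : Min n G K w z X) {c : Bool} (hy : X .y = c)
    (hw : ∀ i < n, w.getD i 0 < n + G.length) {ev : ℕ → Bool}
    (hr : ∀ t < n + G.length, ∀ s, X (.r c s t) = (ev t == s)) {i : ℕ} (hi : i < n) :
    X (.d c i) = (X (.v (!c) i) != ev (w.getD i 0)) := by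
  have hri := hr _ (hw i hi)
  have he := fact_e hG hX hy
  by_cases h : X (.v (!c) i) = ev (w.getD i 0)
  · rw [h, bne_self_eq_false]
    by_contra hcon
    rw [Bool.not_eq_false] at hcon
    refine hX (.s7 c true (.d c i)) (.d c i) true ⟨rfl, hi⟩ (ix_d hi) hcon (by simp [Con.term])
      ?_ ?_
    · intro q hq
      simp only [Con.term, List.mem_cons, List.not_mem_nil, or_false] at hq
      rcases hq with rfl | rfl
      · exact he
      · exact hcon
    · intro κ hok hle hmem
      cases κ
      case im => exact (im_no hG hok hmem (by simp) (by simp)).elim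
      case dd c' b' i' =>
        simp only [Con.term, List.mem_cons, List.not_mem_nil, or_false, Prod.mk.injEq,
          reduceCtorEq, false_and, false_or, Var.d.injEq, Bool.not_true, and_true] at hmem
        obtain ⟨rfl, rfl⟩ := hmem
        by_cases hb : X (.v (!c) i) = b'
        · refine ⟨(.r c (!b') (w.getD i 0), true), by simp [Con.term], by simp, ?_⟩
          rw [hri, ← h, hb]
          cases b' <;> simp
        · exact ⟨(.v (!c) i, b'), by simp [Con.term], by simp, hb⟩
      case s7 c' b' x' =>
        simp only [Con.term, List.mem_cons, List.not_mem_nil, or_false, Prod.mk.injEq,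
          reduceCtorEq, false_and, false_or, Bool.not_true] at hmem
        obtain ⟨rfl, rfl⟩ := hmem
        have hc : c = c' := hok.1
        subst hc
        exact ⟨(.e c, false), by simp [Con.term], by simp, by simp [he]⟩
      all_goals first
        | (simp [Con.term] at hmem; done)
        | (simp [Con.le, Con.maj] at hle; done)
  · have h1 : X (.v (!c) i) = !ev (w.getD i 0) := by
      revert h
      cases X (.v (!c) i) <;> cases ev (w.getD i 0) <;> simp
    rw [h1]
    have h2 : ((!ev (w.getD i 0)) != ev (w.getD i 0)) = true := by
      cases ev (w.getD i 0) <;> rfl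
    rw [h2]
    by_contra hcon
    rw [Bool.not_eq_true] at hcon
    refine fact_dd hG hX (c := c) (b := X (.v (!c) i)) hi ?_
    intro q hq
    simp only [Con.term, List.mem_cons, List.not_mem_nil, or_false] at hq
    rcases hq with rfl | rfl | rfl
    · rfl
    · dsimp only
      rw [hri, h1]
      simp
    · exact hcon


/-! ### the mode of resetting -/

section
variable (hG : GV n G) (hX : Min n G K w z X) {c : Bool} (hy : X .y = c)
  (hw : ∀ i < n, w.getD i 0 < n + G.length) (hz : ∀ j < K, z.getD j 0 < n + G.length)
  {ev : ℕ → Bool} (hr : ∀ t < n + G.length, ∀ s, X (.r c s t) = (ev t == s))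
  (he : X (.e (!c)) = false)

include hG hX he in
theorem res_u (hr : ∀ t < n + G.length, ∀ s, X (.r c s t) = (ev t == s))
    (hz : ∀ j < K, z.getD j 0 < n + G.length) {j : ℕ} (hj : j < K)
    (h : ev (z.getD j 0) = true) : X (.u c j) = true := by
  by_contra hcon
  rw [Bool.not_eq_true] at hcon
  refine fact_u2 hG hX (c := c) hj ?_
  intro q hq
  simp only [Con.term, List.mem_cons, List.not_mem_nil, or_false] at hq
  rcases hq with rfl | rfl | rfl
  · dsimp only
    rw [hr _ (hz j hj), h]
    rfl
  · exact he
  · exact hcon

include hG hX hy he in
theorem res_u' {j : ℕ} (hj : j < K) : X (.u (!c) j) = true := by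
  by_contra hcon
  rw [Bool.not_eq_true] at hcon
  refine hX (.s7 (!c) false (.u (!c) j)) (.u (!c) j) false ⟨rfl, hj⟩ (ix_u hj) hcon
    (by simp [Con.term]) ?_ ?_
  · intro q hq
    simp only [Con.term, List.mem_cons, List.not_mem_nil, or_false] at hq
    rcases hq with rfl | rfl
    · exact he
    · exact hcon
  · intro κ hok hle hmem
    cases κ
    case im => exact (im_no hG hok hmem (by simp) (by simp)).elim
    case aa c' j' =>
      simp only [Con.term, List.mem_cons, List.not_mem_nil, or_false, Prod.mk.injEq,
        reduceCtorEq, false_and, false_or, Var.u.injEq, Bool.not_false, and_true] at hmem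
      obtain ⟨rfl, rfl⟩ := hmem
      exact ⟨(.y, !c), by simp [Con.term], by simp, by simp [hy]⟩
    case s7 c' b' x' =>
      simp only [Con.term, List.mem_cons, List.not_mem_nil, or_false, Prod.mk.injEq,
        reduceCtorEq, false_and, false_or, Bool.not_false] at hmem
      obtain ⟨rfl, rfl⟩ := hmem
      have hc : (!c) = c' := hok.1
      subst hc
      exact ⟨(.e (!c), true), by simp [Con.term], by simp, by simp [he]⟩
    all_goals first
      | (simp [Con.term] at hmem; done)
      | (simp [Con.le, Con.maj] at hle; done)

include hG hX hy hr hz he in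
theorem res_p {c' : Bool} {j : ℕ} (hj : j < K) : X (.p c' j) = true := by
  by_contra hcon
  rw [Bool.not_eq_true] at hcon
  refine hX (.s9 (!c) (.p c' j)) (.p c' j) false hj (ix_p hj) hcon (by simp [Con.term]) ?_ ?_
  · intro q hq
    simp only [Con.term, List.mem_cons, List.not_mem_nil, or_false] at hq
    rcases hq with rfl | rfl
    · exact he
    · exact hcon
  · intro κ hok hle hmem
    cases κ
    case im => exact (im_no hG hok hmem (by simp) (by simp)).elim
    case u1 c1 j1 =>
      simp only [Con.term, List.mem_cons, List.not_mem_nil, or_false, Prod.mk.injEq,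
        reduceCtorEq, false_and, false_or, Var.p.injEq, Bool.not_false, and_true] at hmem
      obtain ⟨rfl, rfl⟩ := hmem
      by_cases hc : c' = c
      · subst hc
        cases h1 : ev (z.getD j 0) with
        | false =>
          refine ⟨(.r c' true (z.getD j 0), true), by simp [Con.term], by simp, ?_⟩
          rw [hr _ (hz j hj), h1]
          simp
        | true =>
          refine ⟨(.u c' j, false), by simp [Con.term], by simp, ?_⟩
          rw [res_u hG hX he hr hz hj h1]
          simp
      · have hc' : c' = !c := by
          revert hc
          cases c' <;> cases c <;> simp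
        subst hc'
        refine ⟨(.u (!c) j, false), by simp [Con.term], by simp, ?_⟩
        rw [res_u' hG hX hy he hj]
        simp
    case s7 c' b' x' =>
      simp only [Con.term, List.mem_cons, List.not_mem_nil, or_false, Prod.mk.injEq,
        reduceCtorEq, false_and, false_or, Bool.not_false] at hmem
      obtain ⟨rfl, rfl⟩ := hmem
      exact hok.elim
    all_goals first
      | (simp [Con.term] at hmem; done)
      | (simp [Con.le, Con.maj] at hle; done)

include hG hX hy hr hz he in
theorem res_f {j : ℕ} (hj : j < K) : X (.f j) = true := by
  induction j with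
  | zero =>
    by_contra hcon
    rw [Bool.not_eq_true] at hcon
    refine hX (.s9 (!c) (.f 0)) (.f 0) false hj (ix_f hj) hcon (by simp [Con.term]) ?_ ?_
    · intro q hq
      simp only [Con.term, List.mem_cons, List.not_mem_nil, or_false] at hq
      rcases hq with rfl | rfl
      · exact he
      · exact hcon
    · intro κ hok hle hmem
      cases κ
      case im => exact (im_no hG hok hmem (by simp) (by simp)).elim
      case p1 c1 j1 =>
        simp only [Con.term, List.mem_cons, List.not_mem_nil, or_false, Prod.mk.injEq,
          reduceCtorEq, false_and, Var.f.injEq, Bool.not_false, and_true] at hmem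
        subst hmem
        refine ⟨(.p c1 0, false), by simp [Con.term], by simp, ?_⟩
        rw [res_p hG hX hy hz hr he hj]
        simp
      case s7 c' b' x' =>
        simp only [Con.term, List.mem_cons, List.not_mem_nil, or_false, Prod.mk.injEq,
          reduceCtorEq, false_and, false_or, Bool.not_false] at hmem
        obtain ⟨rfl, rfl⟩ := hmem
        exact hok.elim
      all_goals first
        | (simp [Con.term] at hmem; done)
        | (simp [Con.le, Con.maj] at hle; done)
  | succ j ih =>
    have ih' := ih (by omega)
    by_contra hcon
    rw [Bool.not_eq_true] at hcon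
    refine hX (.s9 (!c) (.f (j + 1))) (.f (j + 1)) false hj (ix_f hj) hcon (by simp [Con.term])
      ?_ ?_
    · intro q hq
      simp only [Con.term, List.mem_cons, List.not_mem_nil, or_false] at hq
      rcases hq with rfl | rfl
      · exact he
      · exact hcon
    · intro κ hok hle hmem
      cases κ
      case im => exact (im_no hG hok hmem (by simp) (by simp)).elim
      case ff j1 =>
        simp [Con.term] at hmem
        subst hmem
        refine ⟨(.f j, false), by simp [Con.term], by simp, ?_⟩
        rw [ih']
        simp
      case p1 c1 j1 =>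
        simp only [Con.term, List.mem_cons, List.not_mem_nil, or_false, Prod.mk.injEq,
          reduceCtorEq, false_and, Var.f.injEq, Bool.not_false, and_true] at hmem
        subst hmem
        refine ⟨(.p c1 (j + 1), false), by simp [Con.term], by simp, ?_⟩
        rw [res_p hG hX hy hz hr he hj]
        simp
      case s7 c' b' x' =>
        simp only [Con.term, List.mem_cons, List.not_mem_nil, or_false, Prod.mk.injEq,
          reduceCtorEq, false_and, false_or, Bool.not_false] at hmem
        obtain ⟨rfl, rfl⟩ := hmem
        exact hok.elim
      all_goals first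
        | (simp [Con.term] at hmem; done)
        | (simp [Con.le, Con.maj] at hle; done)

include hG hX hy he in
theorem res_d {i : ℕ} (hi : i < n) : X (.d (!c) i) = true := by
  by_contra hcon
  rw [Bool.not_eq_true] at hcon
  refine hX (.s7 (!c) false (.d (!c) i)) (.d (!c) i) false ⟨rfl, hi⟩ (ix_d hi) hcon
    (by simp [Con.term]) ?_ ?_
  · intro q hq
    simp only [Con.term, List.mem_cons, List.not_mem_nil, or_false] at hq
    rcases hq with rfl | rfl
    · exact he
    · exact hcon
  · intro κ hok hle hmem
    cases κ
    case im => exact (im_no hG hok hmem (by simp) (by simp)).elim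
    case s6 c' i' =>
      simp only [Con.term, List.mem_cons, List.not_mem_nil, or_false, Prod.mk.injEq,
        reduceCtorEq, false_and, false_or, Var.d.injEq, Bool.not_false, and_true] at hmem
      obtain ⟨rfl, rfl⟩ := hmem
      exact ⟨(.y, !c), by simp [Con.term], by simp, by simp [hy]⟩
    case s7 c' b' x' =>
      simp only [Con.term, List.mem_cons, List.not_mem_nil, or_false, Prod.mk.injEq,
        reduceCtorEq, false_and, false_or, Bool.not_false] at hmem
      obtain ⟨rfl, rfl⟩ := hmem
      have hc : (!c) = c' := hok.1
      subst hc
      exact ⟨(.e (!c), true), by simp [Con.term], by simp, by simp [he]⟩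
    all_goals first
      | (simp [Con.term] at hmem; done)
      | (simp [Con.le, Con.maj] at hle; done)

end

end

end Pool.Agent.MPa0a715.TL
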