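import Pool.Agent.Lib.MP_a0a715_lc_TL.Core2

/-!
# Local minima of the system of conjunctions: the mode of resetting is left
-/

namespace Pool.Agent.MPa0a715.TL

open Pool.Agent.MPa0a715

section
variable {n : ℕ} {G : List Gate} {K : ℕ} {w z : List ℕ} {X : Var → Bool}
variable (hG : GV n G) (hX : Min n G K w z X) {c : Bool} (hy : X .y = c)
  (hw : ∀ i < n, w.getD i 0 < n + G.length) (hz : ∀ j < K, z.getD j 0 < n + G.length)
  {ev : ℕ → Bool} (hr : ∀ t < n + G.length, ∀ s, X (.r c s t) = (ev t == s))
  (he : X (.e (!c)) = false)

include hG hX hy hr hz he in
theorem res_r (m : ℕ) : ∀ t < n + G.length, n + G.length ≤ t + m → ∀ s,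
    X (.r (!c) s t) = true := by
  induction m with
  | zero =>
    intro t ht h
    omega
  | succ m ih =>
    intro t ht hm s
    by_contra hcon
    rw [Bool.not_eq_true] at hcon
    refine hX (.s7 (!c) false (.r (!c) s t)) (.r (!c) s t) false ⟨rfl, ht⟩ (ix_r ht) hcon
      (by simp [Con.term]) ?_ ?_
    · intro q hq
      simp only [Con.term, List.mem_cons, List.not_mem_nil, or_false] at hq
      rcases hq with rfl | rfl
      · exact he
      · exact hcon
    · intro κ hok hle hmem
      cases κ
      case im c' t' T' =>
        obtain ⟨s1, hs1⟩ := imps_concl hok.2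
        rcases imps_lit hG hok.1 hok.2 hmem with ⟨b, h, _⟩ | ⟨s', i, h, hi⟩ | ⟨s', h⟩
        · simp at h
        · simp only [Prod.mk.injEq, Var.r.injEq] at h
          obtain ⟨⟨rfl, rfl, rfl⟩, _⟩ := h
          refine ⟨_, hs1, ?_, ?_⟩
          · simp only [ne_eq, Var.r.injEq, not_and]
            intro _ _ h3
            omega
          · dsimp only
            rw [ih t' hok.1 (by omega) s1]
            simp
        · simp at h
      case ex c' t' =>
        simp only [Con.term, List.mem_cons, List.not_mem_nil, or_false, Prod.mk.injEq,
          reduceCtorEq, false_and, false_or, Var.r.injEq] at hmem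
        have hc : c' = !c := by
          rcases hmem with h | h
          · exact h.1.1.symm
          · exact h.1.1.symm
        subst hc
        exact ⟨(.y, !c), by simp [Con.term], by simp, by simp [hy]⟩
      case dd c' b i =>
        have hi : i < n := hok
        simp only [Con.term, List.mem_cons, List.not_mem_nil, or_false, Prod.mk.injEq,
          reduceCtorEq, false_and, false_or, Var.r.injEq] at hmem
        have hc : c' = !c := hmem.1.1.symm
        subst hc
        refine ⟨(.d (!c) i, false), by simp [Con.term], by simp, ?_⟩
        rw [res_d hG hX hy he hi]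
        simp
      case fg b j =>
        have hj : j + 1 < K := hok
        refine ⟨(.f j, false), by simp [Con.term], by simp, ?_⟩
        rw [res_f hG hX hy hz hr he (by omega)]
        simp
      case p2 c' j =>
        have hj : j < K := hok
        refine ⟨(.p c' j, false), by simp [Con.term], by simp, ?_⟩
        rw [res_p hG hX hy hz hr he hj]
        simp
      case p3 c' j =>
        have hj : j < K := hok
        refine ⟨(.p c' j, false), by simp [Con.term], by simp, ?_⟩
        rw [res_p hG hX hy hz hr he hj]
        simp
      case u1 c' j =>
        have hj : j < K := hok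
        simp only [Con.term, List.mem_cons, List.not_mem_nil, or_false, Prod.mk.injEq,
          reduceCtorEq, false_and, Var.r.injEq] at hmem
        have hc : c' = !c := hmem.1.1.symm
        subst hc
        refine ⟨(.u (!c) j, false), by simp [Con.term], by simp, ?_⟩
        rw [res_u' hG hX hy he hj]
        simp
      case u2 c' j =>
        have hj : j < K := hok
        simp only [Con.term, List.mem_cons, List.not_mem_nil, or_false, Prod.mk.injEq,
          reduceCtorEq, false_and, Var.r.injEq] at hmem
        have hc : c' = !c := hmem.1.1.symm
        subst hc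
        refine ⟨(.u (!c) j, false), by simp [Con.term], by simp, ?_⟩
        rw [res_u' hG hX hy he hj]
        simp
      case tt c' j =>
        simp only [Con.term, List.mem_cons, List.not_mem_nil, or_false, Prod.mk.injEq,
          reduceCtorEq, false_and, false_or, Var.r.injEq] at hmem
        have hc : c' = !c := hmem.1.1.symm
        subst hc
        exact ⟨(.y, !c), by simp [Con.term], by simp, by simp [hy]⟩
      case s7 c' b' x' =>
        simp only [Con.term, List.mem_cons, List.not_mem_nil, or_false, Prod.mk.injEq,
          reduceCtorEq, false_and, false_or, Bool.not_false] at hmem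
        obtain ⟨rfl, rfl⟩ := hmem
        have hc : (!c) = c' := hok.1
        subst hc
        exact ⟨(.e (!c), true), by simp [Con.term], by simp, by simp [he]⟩
      all_goals first
        | (simp [Con.term] at hmem; done)
        | (simp [Con.le, Con.maj] at hle; done)

include hG hX hy hr hz hw he in
theorem res_v {i : ℕ} (hi : i < n) : X (.v (!c) i) = ev (w.getD i 0) := by
  by_contra hcon
  have hri := hr _ (hw i hi)
  have hd := act_d hG hX hy hw hr hi
  have hd1 : X (.d c i) = true := by
    rw [hd]
    revert hcon
    cases X (.v (!c) i) <;> cases ev (w.getD i 0) <;> simp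
  have hev : ev (w.getD i 0) = !X (.v (!c) i) := by
    revert hcon
    cases X (.v (!c) i) <;> cases ev (w.getD i 0) <;> simp
  refine hX (.s4 c (X (.v (!c) i)) i) (.v (!c) i) (X (.v (!c) i)) hi (ix_v hi) rfl
    (by simp [Con.term]) ?_ ?_
  · intro q hq
    simp only [Con.term, List.mem_cons, List.not_mem_nil, or_false] at hq
    rcases hq with rfl | rfl | rfl
    · exact hy
    · rfl
    · dsimp only
      rw [hri, hev]
      simp
  · intro κ hok hle hmem
    cases κ
    case im c' t' T' =>
      obtain ⟨s1, hs1⟩ := imps_concl hok.2
      rcases imps_lit hG hok.1 hok.2 hmem with ⟨b, h, h'⟩ | ⟨s', i, h, hi⟩ | ⟨s', h⟩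
      · simp only [Prod.mk.injEq, Var.v.injEq] at h
        obtain ⟨⟨rfl, rfl⟩, _⟩ := h
        refine ⟨_, hs1, by simp, ?_⟩
        dsimp only
        rw [res_r hG hX hy hz hr he (n + G.length) i (by omega) (by omega) s1]
        simp
      · simp at h
      · simp at h
    case dd c' b' i' =>
      simp only [Con.term, List.mem_cons, List.not_mem_nil, or_false, Prod.mk.injEq,
        reduceCtorEq, false_and, Var.v.injEq] at hmem
      obtain ⟨⟨h1, rfl⟩, h2⟩ := hmem
      have hc : c' = c := by
        revert h1
        cases c' <;> cases c <;> simp
      subst hc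
      refine ⟨(.d c' i, false), by simp [Con.term], by simp, ?_⟩
      rw [hd1]
      simp
    case s4 c' b' i' =>
      simp only [Con.term, List.mem_cons, List.not_mem_nil, or_false, Prod.mk.injEq,
        reduceCtorEq, false_and, false_or, Var.v.injEq] at hmem
      obtain ⟨⟨h1, rfl⟩, h2⟩ := hmem
      have hc : c' = c := by
        revert h1
        cases c' <;> cases c <;> simp
      subst hc
      refine ⟨(.r c' (!b') (w.getD i 0), true), by simp [Con.term], by simp, ?_⟩
      rw [hri, hev, ← h2]
      cases X (.v (!c') i) <;> simp
    case s7 c' b' x' =>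
      simp only [Con.term, List.mem_cons, List.not_mem_nil, or_false, Prod.mk.injEq,
        reduceCtorEq, false_and, false_or] at hmem
      obtain ⟨rfl, rfl⟩ := hmem
      exact hok.elim
    case s9 c' x' =>
      simp only [Con.term, List.mem_cons, List.not_mem_nil, or_false, Prod.mk.injEq,
        reduceCtorEq, false_and, false_or] at hmem
      obtain ⟨rfl, h2⟩ := hmem
      exact hok.elim
    case sx x' =>
      simp only [Con.term, List.mem_cons, List.not_mem_nil, or_false, Prod.mk.injEq] at hmem
      obtain ⟨rfl, h2⟩ := hmem
      exact hok.elim
    all_goals first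
      | (simp [Con.term] at hmem; done)
      | (simp [Con.le, Con.maj] at hle; done)

include hG hX hy hr hz hw in
theorem not_res : X (.e (!c)) = true := by
  by_contra hcon
  rw [Bool.not_eq_true] at hcon
  have hd : ∀ i < n, X (.d c i) = false := by
    intro i hi
    rw [act_d hG hX hy hw hr hi, res_v hG hX hy hw hz hr hcon hi]
    exact bne_self_eq_false _
  refine hX (.s8 (!c)) (.e (!c)) false trivial ix_e hcon (by simp [Con.term]) ?_ ?_
  · intro q hq
    simp only [Con.term, List.mem_cons, List.not_mem_nil, or_false] at hq
    subst hq
    exact hcon
  · intro κ hok hle hmem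
    cases κ
    case im => exact (im_no hG hok hmem (by simp) (by simp)).elim
    case s6 c' i =>
      have hi : i < n := hok
      simp only [Con.term, List.mem_cons, List.not_mem_nil, or_false, Prod.mk.injEq,
        reduceCtorEq, false_and, false_or, Var.e.injEq] at hmem
      have hc : c' = c := by
        have := hmem.1
        revert this
        cases c' <;> cases c <;> simp
      subst hc
      refine ⟨(.d c' i, true), by simp [Con.term], by simp, ?_⟩
      rw [hd i hi]
      simp
    all_goals first
      | (simp [Con.term] at hmem; done)
      | (simp [Con.le, Con.maj] at hle; done)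

end

end Pool.Agent.MPa0a715.TL
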