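import Pool.Agent.Lib.MP_a0a715_lc_TL.Core3

/-!
# Local minima of the system of conjunctions: both copies are evaluated
-/

namespace Pool.Agent.MPa0a715.TL

open Pool.Agent.MPa0a715

section
variable {n : ℕ} {G : List Gate} {K : ℕ} {w z : List ℕ} {X : Var → Bool}
variable (hG : GV n G) (hX : Min n G K w z X) {c : Bool} (hy : X .y = c)
  (hw : ∀ i < n, w.getD i 0 < n + G.length) (hz : ∀ j < K, z.getD j 0 < n + G.length)
  (hee : ∀ c', X (.e c') = true)

include hG hX hee in
/-- the inactive copy is evaluated correctly -/
theorem ev_rails {ev : ℕ → Bool} (he1 : ∀ t < n, ev t = X (.v c t))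
    (he2 : ∀ (k : ℕ) (h : k < G.length), ev (n + k) = (G[k]).evalW ev) :
    ∀ t < n + G.length, ∀ s, X (.r c s t) = (ev t == s) := by
  refine rails hG hX he1 he2 ?_
  intro t ht s h1 h2 hprem
  refine hX (.s7 c true (.r c s t)) (.r c s t) true ⟨rfl, ht⟩ (ix_r ht) h1 (by simp [Con.term])
    ?_ ?_
  · intro q hq
    simp only [Con.term, List.mem_cons, List.not_mem_nil, or_false] at hq
    rcases hq with rfl | rfl
    · exact hee c
    · exact h1
  · intro κ hok hle hmem
    cases κ
    case im c' t' T' =>
      rcases imps_lit hG hok.1 hok.2 hmem with ⟨b, h, _⟩ | ⟨s', i, h, hi⟩ | ⟨s', h⟩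
      · simp at h
      · simp at h
      · simp only [Prod.mk.injEq, Var.r.injEq] at h
        obtain ⟨⟨rfl, rfl, rfl⟩, _⟩ := h
        exact hprem T' hok.2 hmem
    case s7 c' b' x' =>
      simp only [Con.term, List.mem_cons, List.not_mem_nil, or_false, Prod.mk.injEq,
        reduceCtorEq, false_and, false_or, Bool.not_true] at hmem
      obtain ⟨rfl, rfl⟩ := hmem
      exact ⟨(.e c', false), by simp [Con.term], by simp, by simp [hee]⟩
    all_goals first
      | (simp [Con.term] at hmem; done)
      | (simp [Con.le, Con.maj] at hle; done)

variable {ev : Bool → ℕ → Bool}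
  (hr : ∀ c', ∀ t < n + G.length, ∀ s, X (.r c' s t) = (ev c' t == s))

include hG hX hr hz in
theorem f_up {j j' : ℕ} (hj : j < j') (hj' : j' < K)
    (h : ev false (z.getD j' 0) ≠ ev true (z.getD j' 0)) : X (.f j) = true := by
  obtain ⟨m, rfl⟩ : ∃ m, j' = j + 1 + m := ⟨j' - j - 1, by omega⟩
  clear hj
  induction m generalizing j with
  | zero =>
    by_contra hcon
    rw [Bool.not_eq_true] at hcon
    refine fact_fg hG hX (b := ev false (z.getD (j + 1) 0)) (j := j) (by omega) ?_
    intro q hq
    simp only [Con.term, List.mem_cons, List.not_mem_nil, or_false] at hq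
    rcases hq with rfl | rfl | rfl
    · dsimp only
      rw [hr _ _ (hz _ (by omega))]
      simp
    · dsimp only
      rw [hr _ _ (hz _ (by omega))]
      revert h
      rw [Nat.add_zero]
      cases ev false (z.getD (j + 1) 0) <;> cases ev true (z.getD (j + 1) 0) <;> simp
    · exact hcon
  | succ m ih =>
    have e : j + 1 + (m + 1) = (j + 1) + 1 + m := by omega
    rw [e] at h hj'
    have h1 := ih hj' h
    by_contra hcon
    rw [Bool.not_eq_true] at hcon
    refine fact_ff hG hX (j := j) (by omega) ?_
    intro q hq
    simp only [Con.term, List.mem_cons, List.not_mem_nil, or_false] at hq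
    rcases hq with rfl | rfl
    · exact h1
    · exact hcon

include hG hX hr hz hee in
theorem f_down (m : ℕ) : ∀ j < K, K ≤ j + m →
    (∀ j' < K, j < j' → ev false (z.getD j' 0) = ev true (z.getD j' 0)) →
    X (.f j) = false := by
  induction m with
  | zero =>
    intro j hj h
    omega
  | succ m ih =>
    intro j hj hm h
    by_contra hcon
    rw [Bool.not_eq_false] at hcon
    refine hX (.sx (.f j)) (.f j) true hj (ix_f hj) hcon (by simp [Con.term]) ?_ ?_
    · intro q hq
      simp only [Con.term, List.mem_cons, List.not_mem_nil, or_false] at hq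
      subst hq
      exact hcon
    · intro κ hok hle hmem
      cases κ
      case im => exact (im_no hG hok hmem (by simp) (by simp)).elim
      case ff j' =>
        have hj' : j' + 1 < K := hok
        simp only [Con.term, List.mem_cons, List.not_mem_nil, or_false, Prod.mk.injEq,
          reduceCtorEq, and_false, false_or, Var.f.injEq, Bool.not_true, and_true] at hmem
        subst hmem
        refine ⟨(.f (j + 1), true), by simp [Con.term], by simp, ?_⟩
        rw [ih (j + 1) hj' (by omega) fun j2 h1 h2 => h j2 h1 (by omega)]
        simp
      case fg b j' =>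
        have hj' : j' + 1 < K := hok
        simp only [Con.term, List.mem_cons, List.not_mem_nil, or_false, Prod.mk.injEq,
          reduceCtorEq, and_false, false_or, Var.f.injEq, Bool.not_true, and_true] at hmem
        subst hmem
        have heq := h (j + 1) hj' (by omega)
        by_cases hb : ev false (z.getD (j + 1) 0) = b
        · refine ⟨(.r true (!b) (z.getD (j + 1) 0), true), by simp [Con.term], by simp, ?_⟩
          rw [hr _ _ (hz _ hj'), ← heq, hb]
          cases b <;> simp
        · refine ⟨(.r false b (z.getD (j + 1) 0), true), by simp [Con.term], by simp, ?_⟩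
          rw [hr _ _ (hz _ hj')]
          revert hb
          cases ev false (z.getD (j + 1) 0) <;> cases b <;> simp
      case s7 c' b' x' =>
        simp only [Con.term, List.mem_cons, List.not_mem_nil, or_false, Prod.mk.injEq,
          reduceCtorEq, false_and, false_or] at hmem
        obtain ⟨rfl, rfl⟩ := hmem
        exact hok.elim
      case s9 c' x' =>
        exact ⟨(.e c', false), by simp [Con.term], by simp, by simp [hee]⟩
      all_goals first
        | (simp [Con.term] at hmem; done)
        | (simp [Con.le, Con.maj] at hle; done)

include hG hX hr hz in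
/-- `p c j` is true unless `j` is the highest difference and copy `c` is larger there -/
theorem p_up {c' : Bool} {j : ℕ} (hj : j < K)
    (h : X (.f j) = true ∨ ev c' (z.getD j 0) = false ∨ ev (!c') (z.getD j 0) = true) :
    X (.p c' j) = true := by
  by_contra hcon
  rw [Bool.not_eq_true] at hcon
  rcases h with h | h | h
  · refine fact_p1 hG hX (c := c') hj ?_
    intro q hq
    simp only [Con.term, List.mem_cons, List.not_mem_nil, or_false] at hq
    rcases hq with rfl | rfl
    · exact h
    · exact hcon
  · refine fact_p2 hG hX (c := c') hj ?_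
    intro q hq
    simp only [Con.term, List.mem_cons, List.not_mem_nil, or_false] at hq
    rcases hq with rfl | rfl
    · dsimp only
      rw [hr _ _ (hz _ hj), h]
      rfl
    · exact hcon
  · refine fact_p3 hG hX (c := c') hj ?_
    intro q hq
    simp only [Con.term, List.mem_cons, List.not_mem_nil, or_false] at hq
    rcases hq with rfl | rfl
    · dsimp only
      rw [hr _ _ (hz _ hj), h]
      rfl
    · exact hcon

include hG hX hy hr hz in
/-- the register is at least the value of the active copy where it is enforced -/
theorem m_up {j : ℕ} (hj : j < K) (h : ev c (z.getD j 0) = true) (hp : X (.p c j) = true) :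
    X (.u c j) = true ∧ X (.m j) = true := by
  have hu : X (.u c j) = true := by
    by_contra hcon
    rw [Bool.not_eq_true] at hcon
    refine fact_u1 hG hX (c := c) hj ?_
    intro q hq
    simp only [Con.term, List.mem_cons, List.not_mem_nil, or_false] at hq
    rcases hq with rfl | rfl | rfl
    · dsimp only
      rw [hr _ _ (hz _ hj), h]
      rfl
    · exact hp
    · exact hcon
  refine ⟨hu, ?_⟩
  by_contra hcon
  rw [Bool.not_eq_true] at hcon
  refine fact_aa hG hX (c := c) hj ?_
  intro q hq
  simp only [Con.term, List.mem_cons, List.not_mem_nil, or_false] at hq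
  rcases hq with rfl | rfl | rfl
  · exact hy
  · exact hu
  · exact hcon

include hG hX hr hz hee in
theorem u_down {c' : Bool} {j : ℕ} (hj : j < K)
    (h : ev c' (z.getD j 0) = false ∨ X (.p c' j) = false) : X (.u c' j) = false := by
  by_contra hcon
  rw [Bool.not_eq_false] at hcon
  refine hX (.s7 c' true (.u c' j)) (.u c' j) true ⟨rfl, hj⟩ (ix_u hj) hcon
    (by simp [Con.term]) ?_ ?_
  · intro q hq
    simp only [Con.term, List.mem_cons, List.not_mem_nil, or_false] at hq
    rcases hq with rfl | rfl
    · exact hee c'
    · exact hcon
  · intro κ hok hle hmem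
    cases κ
    case im => exact (im_no hG hok hmem (by simp) (by simp)).elim
    case u1 c1 j1 =>
      simp only [Con.term, List.mem_cons, List.not_mem_nil, or_false, Prod.mk.injEq,
        reduceCtorEq, false_and, false_or, Var.u.injEq, Bool.not_true, and_true] at hmem
      obtain ⟨rfl, rfl⟩ := hmem
      rcases h with h | h
      · refine ⟨(.r c' true (z.getD j 0), true), by simp [Con.term], by simp, ?_⟩
        rw [hr _ _ (hz _ hj), h]
        simp
      · exact ⟨(.p c' j, true), by simp [Con.term], by simp, by simp [h]⟩
    case u2 c1 j1 =>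
      exact ⟨(.e (!c1), false), by simp [Con.term], by simp, by simp [hee]⟩
    case s7 c1 b' x' =>
      simp only [Con.term, List.mem_cons, List.not_mem_nil, or_false, Prod.mk.injEq,
        reduceCtorEq, false_and, false_or, Bool.not_true] at hmem
      obtain ⟨rfl, rfl⟩ := hmem
      exact ⟨(.e c1, false), by simp [Con.term], by simp, by simp [hee]⟩
    all_goals first
      | (simp [Con.term] at hmem; done)
      | (simp [Con.le, Con.maj] at hle; done)

end

end Pool.Agent.MPa0a715.TL
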