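import Pool.Agent.Lib.MP_a0a715_lc_TL.Core4

/-!
# Local minima of the system of conjunctions: the next solution is not better
-/

namespace Pool.Agent.MPa0a715.TL

open Pool.Agent.MPa0a715

section
variable {n : ℕ} {G : List Gate} {K : ℕ} {w z : List ℕ} {X : Var → Bool}
variable (hG : GV n G) (hX : Min n G K w z X) {c : Bool} (hy : X .y = c)
  (hw : ∀ i < n, w.getD i 0 < n + G.length) (hz : ∀ j < K, z.getD j 0 < n + G.length)
  (hee : ∀ c', X (.e c') = true)
  {ev : Bool → ℕ → Bool}
  (hr : ∀ c', ∀ t < n + G.length, ∀ s, X (.r c' s t) = (ev c' t == s))

include hG hX hy hr hz hee in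
/-- the inactive copy is not better than the active one -/
theorem not_better {j0 : ℕ} (hj0 : j0 < K) (h1 : ev c (z.getD j0 0) = true)
    (h2 : ev (!c) (z.getD j0 0) = false)
    (h3 : ∀ j < K, j0 < j → ev c (z.getD j 0) = ev (!c) (z.getD j 0)) : False := by
  have hne : ev false (z.getD j0 0) ≠ ev true (z.getD j0 0) := by
    cases c
    · rw [h1]
      rw [Bool.not_false] at h2
      rw [h2]
      simp
    · rw [h1]
      rw [Bool.not_true] at h2
      rw [h2]
      simp
  have heq : ∀ j < K, j0 < j → ev false (z.getD j 0) = ev true (z.getD j 0) := by
    intro j hj hlt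
    have := h3 j hj hlt
    cases c
    · exact this
    · exact this.symm
  have hf0 : X (.f j0) = false := f_down hG hX hz hee hr K j0 hj0 (by omega) heq
  have hf1 : ∀ j < j0, X (.f j) = true := fun j hj => f_up hG hX hz hr hj hj0 hne
  -- the variables `p`
  have hpc : ∀ j < K, j ≠ j0 → ∀ c', X (.p c' j) = true := by
    intro j hj hjne c'
    refine p_up hG hX hz hr hj ?_
    rcases Nat.lt_or_gt_of_ne hjne with hlt | hlt
    · exact Or.inl (hf1 j hlt)
    · right
      have := heq j hj hlt
      cases c' with
      | false =>
        rw [Bool.not_false, ← this]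
        cases ev false (z.getD j 0) <;> simp
      | true =>
        rw [Bool.not_true, this]
        cases ev true (z.getD j 0) <;> simp
  have hpd : X (.p (!c) j0) = true := p_up hG hX hz hr hj0 (Or.inr (Or.inl h2))
  have hp0 : X (.p c j0) = false := by
    by_contra hcon
    rw [Bool.not_eq_false] at hcon
    have hm := (m_up hG hX hy hz hr hj0 h1 hcon).2
    refine hX (.sx (.p c j0)) (.p c j0) true hj0 (ix_p hj0) hcon (by simp [Con.term]) ?_ ?_
    · intro q hq
      simp only [Con.term, List.mem_cons, List.not_mem_nil, or_false] at hq
      subst hq
      exact hcon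
    · intro κ hok hle hmem
      cases κ
      case im => exact (im_no hG hok hmem (by simp) (by simp)).elim
      case p1 c1 j1 =>
        simp only [Con.term, List.mem_cons, List.not_mem_nil, or_false, Prod.mk.injEq,
          reduceCtorEq, false_and, false_or, Var.p.injEq, Bool.not_true, and_true] at hmem
        obtain ⟨rfl, rfl⟩ := hmem
        exact ⟨(.f j0, true), by simp [Con.term], by simp, by simp [hf0]⟩
      case p2 c1 j1 =>
        simp only [Con.term, List.mem_cons, List.not_mem_nil, or_false, Prod.mk.injEq,
          reduceCtorEq, false_and, false_or, Var.p.injEq, Bool.not_true, and_true] at hmem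
        obtain ⟨rfl, rfl⟩ := hmem
        refine ⟨(.r c false (z.getD j0 0), true), by simp [Con.term], by simp, ?_⟩
        rw [hr _ _ (hz _ hj0), h1]
        simp
      case p3 c1 j1 =>
        simp only [Con.term, List.mem_cons, List.not_mem_nil, or_false, Prod.mk.injEq,
          reduceCtorEq, false_and, false_or, Var.p.injEq, Bool.not_true, and_true] at hmem
        obtain ⟨rfl, rfl⟩ := hmem
        refine ⟨(.r (!c) true (z.getD j0 0), true), by simp [Con.term], by simp, ?_⟩
        rw [hr _ _ (hz _ hj0), h2]
        simp
      case rr c1 j1 i1 =>
        simp only [Con.term, List.mem_cons, List.not_mem_nil, or_false, Prod.mk.injEq,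
          reduceCtorEq, false_and, Var.p.injEq, Bool.not_true, and_true] at hmem
        obtain ⟨rfl, rfl⟩ := hmem
        exact ⟨(.m j0, false), by simp [Con.term], by simp, by simp [hm]⟩
      case s7 c' b' x' =>
        simp only [Con.term, List.mem_cons, List.not_mem_nil, or_false, Prod.mk.injEq,
          reduceCtorEq, false_and, false_or] at hmem
        obtain ⟨rfl, rfl⟩ := hmem
        exact hok.elim
      case s9 c' x' =>
        exact ⟨(.e c', false), by simp [Con.term], by simp, by simp [hee]⟩
      all_goals first
        | (simp [Con.term] at hmem; done)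
        | (simp [Con.le, Con.maj] at hle; done)
  have hu0 : X (.u c j0) = false := u_down hG hX hz hee hr hj0 (Or.inr hp0)
  -- the register
  have hm1 : ∀ j < K, j ≠ j0 → ev c (z.getD j 0) = true → X (.m j) = true := fun j hj hne' h =>
    (m_up hG hX hy hz hr hj h (hpc j hj hne' c)).2
  have hm0 : X (.m j0) = false := by
    by_contra hcon
    rw [Bool.not_eq_false] at hcon
    refine hX (.mm j0) (.m j0) true hj0 (ix_m hj0) hcon (by simp [Con.term]) ?_ ?_
    · intro q hq
      simp only [Con.term, List.mem_cons, List.not_mem_nil, or_false] at hq
      subst hq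
      exact hcon
    · intro κ hok hle hmem
      cases κ
      case im => exact (im_no hG hok hmem (by simp) (by simp)).elim
      case aa c1 j1 =>
        simp only [Con.term, List.mem_cons, List.not_mem_nil, or_false, Prod.mk.injEq,
          reduceCtorEq, false_and, false_or, Var.m.injEq, Bool.not_true, and_true] at hmem
        subst hmem
        by_cases hc : c1 = c
        · subst hc
          exact ⟨(.u c1 j0, true), by simp [Con.term], by simp, by simp [hu0]⟩
        · refine ⟨(.y, c1), by simp [Con.term], by simp, ?_⟩
          dsimp only
          rw [hy]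
          exact fun h => hc h.symm
      case rr c1 j1 i1 =>
        obtain ⟨hok1, hok2⟩ : i1 < j1 ∧ j1 < K := hok
        have hlt : j0 < j1 := by
          rcases hle with h | ⟨_, h⟩
          · exact absurd h (by simp [Con.maj])
          · simp only [Con.mino] at h
            omega
        refine ⟨(.p c1 j1, false), by simp [Con.term], by simp, ?_⟩
        rw [hpc j1 hok2 (by omega) c1]
        simp
      all_goals first
        | (simp [Con.term] at hmem; done)
        | (simp [Con.le, Con.maj] at hle; done)
  have hm2 : ∀ j < j0, X (.m j) = true := by
    intro j hj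
    by_contra hcon
    rw [Bool.not_eq_true] at hcon
    refine hX (.rr c j0 j) (.m j) false ⟨hj, hj0⟩ (ix_m (by omega)) hcon (by simp [Con.term])
      ?_ ?_
    · intro q hq
      simp only [Con.term, List.mem_cons, List.not_mem_nil, or_false] at hq
      rcases hq with rfl | rfl | rfl
      · exact hp0
      · exact hm0
      · exact hcon
    · intro κ hok hle hmem
      cases κ
      case im => exact (im_no hG hok hmem (by simp) (by simp)).elim
      case mm j1 =>
        exfalso
        have hj1 : j1 < K := hok
        simp only [Con.term, List.mem_cons, List.not_mem_nil, or_false, Prod.mk.injEq,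
          Var.m.injEq] at hmem
        rcases hle with h | ⟨_, h⟩
        · exact absurd h (by simp [Con.maj])
        · simp only [Con.mino] at h
          omega
      all_goals first
        | (simp [Con.term] at hmem; done)
        | (simp [Con.le, Con.maj] at hle; done)
  -- flip `y`
  refine hX (.tt c j0) .y c hj0 ?_ hy (by simp [Con.term]) ?_ ?_
  · simp only [bnd, Var.ix]
    omega
  · intro q hq
    simp only [Con.term, List.mem_cons, List.not_mem_nil, or_false] at hq
    rcases hq with rfl | rfl | rfl
    · exact hy
    · dsimp only
      rw [hr _ _ (hz _ hj0), h1]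
      rfl
    · exact hm0
  · intro κ hok hle hmem
    cases κ
    case im => exact (im_no hG hok hmem (by simp) (by simp)).elim
    case ee c1 =>
      exact ⟨(.e c1, false), by simp [Con.term], by simp, by simp [hee]⟩
    case ex c1 t =>
      have ht : t < n + G.length := hok
      cases hev : ev c1 t with
      | false =>
        refine ⟨(.r c1 true t, true), by simp [Con.term], by simp, ?_⟩
        rw [hr _ _ ht, hev]
        simp
      | true =>
        refine ⟨(.r c1 false t, true), by simp [Con.term], by simp, ?_⟩
        rw [hr _ _ ht, hev]
        simp
    case aa c1 j =>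
      have hj : j < K := hok
      simp only [Con.term, List.mem_cons, List.not_mem_nil, or_false, Prod.mk.injEq,
        reduceCtorEq, false_and, true_and] at hmem
      subst hmem
      cases hev : ev (!c) (z.getD j 0) with
      | false =>
        refine ⟨(.u (!c) j, true), by simp [Con.term], by simp, ?_⟩
        rw [u_down hG hX hz hee hr hj (Or.inl hev)]
        simp
      | true =>
        refine ⟨(.m j, false), by simp [Con.term], by simp, ?_⟩
        have : X (.m j) = true := by
          rcases Nat.lt_trichotomy j j0 with h | h | h
          · exact hm2 j h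
          · rw [h, h2] at hev
            exact absurd hev (by simp)
          · exact hm1 j hj (by omega) (by rw [h3 j hj h, hev])
        rw [this]
        simp
    case tt c1 j =>
      have hj : j < K := hok
      simp only [Con.term, List.mem_cons, List.not_mem_nil, or_false, Prod.mk.injEq,
        reduceCtorEq, false_and, true_and] at hmem
      subst hmem
      cases hev : ev (!c) (z.getD j 0) with
      | false =>
        refine ⟨(.r (!c) true (z.getD j 0), true), by simp [Con.term], by simp, ?_⟩
        rw [hr _ _ (hz _ hj), hev]
        simp
      | true =>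
        refine ⟨(.m j, false), by simp [Con.term], by simp, ?_⟩
        have : X (.m j) = true := by
          rcases Nat.lt_trichotomy j j0 with h | h | h
          · exact hm2 j h
          · rw [h, h2] at hev
            exact absurd hev (by simp)
          · exact hm1 j hj (by omega) (by rw [h3 j hj h, hev])
        rw [this]
        simp
    all_goals first
      | (simp [Con.term] at hmem; done)
      | (simp [Con.le, Con.maj] at hle; done)

include hG hX hy hr hz hee in
/-- where the active copy has a digit one the variable `u` is true -/
theorem u_all {j : ℕ} (hj : j < K) (h1 : ev c (z.getD j 0) = true) : X (.u c j) = true := by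
  have hp : X (.p c j) = true := by
    refine p_up hG hX hz hr hj ?_
    by_cases h2 : ev (!c) (z.getD j 0) = true
    · exact Or.inr (Or.inr h2)
    · left
      rw [Bool.not_eq_true] at h2
      by_contra hcon
      refine not_better hG hX hy hz hee hr hj h1 h2 ?_
      intro j' hj' hlt
      by_contra hne
      apply hcon
      refine f_up hG hX hz hr hlt hj' ?_
      cases c
      · exact hne
      · exact fun h => hne h.symm
  exact (m_up hG hX hy hz hr hj h1 hp).1

include hG hX hy hr hz hw hee in
/-- the inactive copy has the next solution as its input -/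
theorem v_next {i : ℕ} (hi : i < n) : X (.v (!c) i) = ev c (w.getD i 0) := by
  by_contra hcon
  have hd : X (.d c i) = true := by
    rw [act_d hG hX hy hw (hr c) hi]
    revert hcon
    cases X (.v (!c) i) <;> cases ev c (w.getD i 0) <;> simp
  refine hX (.s6 c i) (.e (!c)) true hi ix_e (hee _) (by simp [Con.term]) ?_ ?_
  · intro q hq
    simp only [Con.term, List.mem_cons, List.not_mem_nil, or_false] at hq
    rcases hq with rfl | rfl | rfl
    · exact hy
    · exact hd
    · exact hee _
  · intro κ hok hle hmem
    cases κ
    case im => exact (im_no hG hok hmem (by simp) (by simp)).elim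
    case ee c1 =>
      simp only [Con.term, List.mem_cons, List.not_mem_nil, or_false, Prod.mk.injEq,
        reduceCtorEq, false_and, false_or, Var.e.injEq, Bool.not_true, and_true] at hmem
      subst hmem
      exact ⟨(.y, !c), by simp [Con.term], by simp, by simp [hy]⟩
    case u2 c1 j =>
      have hj : j < K := hok
      simp only [Con.term, List.mem_cons, List.not_mem_nil, or_false, Prod.mk.injEq,
        reduceCtorEq, false_and, false_or, Var.e.injEq, Bool.not_true, and_true] at hmem
      have hc : c1 = c := by
        revert hmem
        cases c1 <;> cases c <;> simp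
      subst hc
      cases hev : ev c1 (z.getD j 0) with
      | false =>
        refine ⟨(.r c1 true (z.getD j 0), true), by simp [Con.term], by simp, ?_⟩
        rw [hr _ _ (hz _ hj), hev]
        simp
      | true =>
        refine ⟨(.u c1 j, false), by simp [Con.term], by simp, ?_⟩
        rw [u_all hG hX hy hz hee hr hj hev]
        simp
    all_goals first
      | (simp [Con.term] at hmem; done)
      | (simp [Con.le, Con.maj] at hle; done)

end

/-- **The analysis of local minima.** In a local minimum with active copy `c` the inactive copy
has the next solution as its input and its value is not smaller. -/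
theorem core {n : ℕ} {G : List Gate} {K : ℕ} {w z : List ℕ} {X : Var → Bool} (hG : GV n G)
    (hX : Min n G K w z X) (hw : ∀ i < n, w.getD i 0 < n + G.length)
    (hz : ∀ j < K, z.getD j 0 < n + G.length) {ev : Bool → ℕ → Bool}
    (he1 : ∀ c, ∀ t < n, ev c t = X (.v c t))
    (he2 : ∀ c, ∀ (k : ℕ) (h : k < G.length), ev c (n + k) = (G[k]).evalW (ev c)) :
    (∀ i < n, X (.v (!X .y) i) = ev (X .y) (w.getD i 0)) ∧
    ∀ j0 < K, ev (X .y) (z.getD j0 0) = true → ev (!X .y) (z.getD j0 0) = false →
      ¬ ∀ j < K, j0 < j → ev (X .y) (z.getD j 0) = ev (!X .y) (z.getD j 0) := by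
  have hr0 := act_rails hG hX rfl (he1 (X .y)) (he2 (X .y))
  have h1 := fact_e hG hX (c := X .y) rfl
  have h2 := not_res hG hX (c := X .y) rfl hw hz hr0
  have hee : ∀ c', X (.e c') = true := by
    intro c'
    by_cases hc : c' = X .y
    · rw [hc]
      exact h1
    · have : c' = !X .y := by
        revert hc
        cases c' <;> cases X .y <;> simp
      rw [this]
      exact h2
  have hr : ∀ c', ∀ t < n + G.length, ∀ s, X (.r c' s t) = (ev c' t == s) := fun c' =>
    ev_rails hG hX hee (he1 c') (he2 c')
  refine ⟨fun i hi => v_next hG hX rfl hw hz hee hr hi, ?_⟩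
  intro j0 hj0 h3 h4 h5
  exact not_better hG hX rfl hz hee hr hj0 h3 h4 h5

end Pool.Agent.MPa0a715.TL
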