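import Pool.Agent.Lib.MP_a0a715_lc.Defs

/-!
# Circuits whose outputs are conjunctions of few input literals
-/

namespace Pool.Agent.MPa0a715

/-- Every output of the circuit is the conjunction of at most `k` literals: for every output wire
there is a list of at most `k` pairs (number of an input, sign) such that, on every input, the
wire has the value true iff all inputs in the list have the given signs. -/
def Circuit.ConjOuts (k : ℕ) (C : Circuit) : Prop :=
  ∀ o ∈ C.outs, ∃ l : List (ℕ × Bool), l.length ≤ k ∧ (∀ p ∈ l, p.1 < C.n) ∧
    ∀ x : List Bool, x.length = C.n →
      ((C.wires x).getD o false = true ↔ ∀ p ∈ l, x.getD p.1 false = p.2)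

end Pool.Agent.MPa0a715
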