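import Pool.Agent.Lib.MP_a0a715_lc.Easy
import Pool.Agent.Lib.MP_a0a715_lc_TL.TwoSat
import Pool.Agent.Lib.MP_a0a715_lc_TL.Next2

/-!
# A polynomial-time solver when every output is a conjunction of at most two literals
-/

namespace Pool.Agent.MPa0a715.TL

open Pool.Agent.MPa0a715 Pool.Agent.PolyTime

/-- the outputs and the inputs -/
def vec (C : Circuit) (x : List Bool) : List Bool := C.out x ++ x

/-- the order in which the conditions are treated -/
def ord (n m : ℕ) : List ℕ := (List.range m).reverse ++ (List.range n).map (fun i => m + i)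

/-- one step of the greedy algorithm -/
def gstep (n : ℕ) (V : List Bool → List Bool) (Z : List ℕ) (t : ℕ) : List ℕ :=
  if sat n V (t :: Z) = true then t :: Z else Z

/-- the greedy algorithm -/
def greedy (n : ℕ) (V : List Bool → List Bool) (L : List ℕ) : List ℕ := L.foldl (gstep n V) []

/-- the solver -/
def solve2 (C : Circuit) : List Bool :=
  (List.range C.n).map fun i =>
    !decide (C.outs.length + i ∈ greedy C.n (vec C) (ord C.n C.outs.length))

section
variable {n : ℕ} {V : List Bool → List Bool}

theorem gstep_sub (Z : List ℕ) (t : ℕ) : ∀ s ∈ Z, s ∈ gstep n V Z t := by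
  intro s hs
  unfold gstep
  split_ifs
  · exact List.mem_cons_of_mem _ hs
  · exact hs

theorem foldl_sub (L : List ℕ) (Z : List ℕ) : ∀ s ∈ Z, s ∈ L.foldl (gstep n V) Z := by
  induction L generalizing Z with
  | nil => intro s hs; exact hs
  | cons t L ih =>
    intro s hs
    exact ih _ s (gstep_sub Z t s hs)

theorem foldl_mem (L : List ℕ) (Z : List ℕ) : ∀ s ∈ L.foldl (gstep n V) Z, s ∈ Z ∨ s ∈ L := by
  induction L generalizing Z with
  | nil => intro s hs; exact Or.inl hs
  | cons t L ih =>
    intro s hs
    rcases ih _ s hs with h | h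
    · unfold gstep at h
      split_ifs at h
      · rcases List.mem_cons.1 h with rfl | h
        · exact Or.inr List.mem_cons_self
        · exact Or.inl h
      · exact Or.inl h
    · exact Or.inr (List.mem_cons_of_mem _ h)

/-- satisfiability of a set of conditions -/
def Sat (n : ℕ) (V : List Bool → List Bool) (Z : List ℕ) : Prop :=
  ∃ x : List Bool, x.length = n ∧ ∀ t ∈ Z, (V x).getD t false = false

variable {D : ℕ → Prop} (hD : ∀ Z : List ℕ, (∀ t ∈ Z, D t) → (sat n V Z = true ↔ Sat n V Z))

include hD in
theorem greedy_sat (L : List ℕ) (hL : ∀ t ∈ L, D t) (Z : List ℕ) (hZ : ∀ t ∈ Z, D t)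
    (h : Sat n V Z) : Sat n V (L.foldl (gstep n V) Z) := by
  induction L generalizing Z with
  | nil => exact h
  | cons t L ih =>
    rw [List.foldl_cons]
    have hc : ∀ s ∈ t :: Z, D s := by
      intro s hs
      rcases List.mem_cons.1 hs with rfl | hs
      · exact hL s List.mem_cons_self
      · exact hZ s hs
    refine ih (fun s hs => hL s (List.mem_cons_of_mem _ hs)) _ ?_ ?_
    · intro s hs
      unfold gstep at hs
      split_ifs at hs
      · exact hc s hs
      · exact hZ s hs
    · unfold gstep
      split_ifs with h1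
      · exact (hD _ hc).1 h1
      · exact h

include hD in
/-- conditions that are left out contradict the earlier chosen ones -/
theorem greedy_out (L : List ℕ) (hL : ∀ t ∈ L, D t) (Z : List ℕ) (hZ : ∀ t ∈ Z, D t)
    {R : ℕ → ℕ → Prop} (hR : L.Pairwise R) (hR' : ∀ s ∈ Z, ∀ t ∈ L, R s t) {t : ℕ} (ht : t ∈ L)
    (hnot : t ∉ L.foldl (gstep n V) Z) :
    ∃ Z1 : List ℕ, (∀ s ∈ Z1, s ∈ L.foldl (gstep n V) Z) ∧ (∀ s ∈ Z1, R s t) ∧
      ¬ Sat n V (t :: Z1) := by
  induction L generalizing Z with
  | nil => exact absurd ht List.not_mem_nil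
  | cons a L ih =>
    rw [List.foldl_cons] at hnot ⊢
    rw [List.pairwise_cons] at hR
    have hc : ∀ s ∈ a :: Z, D s := by
      intro s hs
      rcases List.mem_cons.1 hs with rfl | hs
      · exact hL s List.mem_cons_self
      · exact hZ s hs
    by_cases hta : t = a
    · subst hta
      refine ⟨Z, fun s hs => foldl_sub _ _ s (gstep_sub Z t s hs), fun s hs =>
        hR' s hs t List.mem_cons_self, fun h => hnot ?_⟩
      refine foldl_sub _ _ t ?_
      unfold gstep
      rw [if_pos ((hD _ hc).2 h)]
      exact List.mem_cons_self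
    · have htL : t ∈ L := (List.mem_cons.1 ht).resolve_left hta
      refine ih (fun s hs => hL s (List.mem_cons_of_mem _ hs)) _ ?_ hR.2 ?_ htL hnot
      · intro s hs
        unfold gstep at hs
        split_ifs at hs
        · exact hc s hs
        · exact hZ s hs
      · intro s hs t' ht'
        unfold gstep at hs
        split_ifs at hs
        · rcases List.mem_cons.1 hs with rfl | hs
          · exact hR.1 t' ht'
          · exact hR' s hs t' (List.mem_cons_of_mem _ ht')
        · exact hR' s hs t' (List.mem_cons_of_mem _ ht')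

end

theorem length_solve2 (C : Circuit) : (solve2 C).length = C.n := by
  unfold solve2
  simp

theorem vec_lt {C : Circuit} {x : List Bool} {t : ℕ} (ht : t < C.outs.length) :
    (vec C x).getD t false = (C.out x).getD t false := by
  unfold vec
  rw [List.getD_append _ _ _ _ (by rw [length_out]; exact ht)]

theorem vec_ge {C : Circuit} {x : List Bool} {i : ℕ} :
    (vec C x).getD (C.outs.length + i) false = x.getD i false := by
  unfold vec
  rw [List.getD_append_right _ _ _ _ (by rw [length_out]; omega), length_out,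
    Nat.add_sub_cancel_left]

/-- the solver finds a local minimum -/
theorem solve2_correct {C : Circuit} (h2 : C.ConjOuts 2) : C.IsLocalMin (solve2 C) := by
  rcases Nat.eq_zero_or_pos C.n with hn | hn
  · refine ⟨length_solve2 C, fun i hi => ?_⟩
    rw [hn] at hi
    exact absurd hi (Nat.not_lt_zero i)
  -- the literals of the conditions
  have hex : ∀ t, ∃ l : List (ℕ × Bool), t < C.outs.length + C.n → l.length ≤ 2 ∧
      (∀ p ∈ l, p.1 < C.n) ∧ ∀ x : List Bool, x.length = C.n →
      ((vec C x).getD t false = true ↔ ∀ p ∈ l, x.getD p.1 false = p.2) := by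
    intro t
    by_cases ht : t < C.outs.length
    · obtain ⟨l, h3, h4, h5⟩ := h2 _ (List.getElem_mem ht)
      refine ⟨l, fun _ => ⟨h3, h4, fun x hx => ?_⟩⟩
      rw [← h5 x hx, vec_lt ht, out_getD' ht, List.getD_eq_getElem _ _ ht]
      rfl
    · refine ⟨[(t - C.outs.length, true)], fun ht' => ⟨by simp, ?_, fun x hx => ?_⟩⟩
      · intro p hp
        rw [List.mem_singleton] at hp
        subst hp
        change t - C.outs.length < C.n
        omega
      · have e : t = C.outs.length + (t - C.outs.length) := by omega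
        have := vec_ge (C := C) (x := x) (i := t - C.outs.length)
        rw [← e] at this
        rw [this]
        simp
  choose l hl using hex
  have hD : ∀ Z : List ℕ, (∀ t ∈ Z, t < C.outs.length + C.n) →
      (sat C.n (vec C) Z = true ↔ Sat C.n (vec C) Z) := by
    intro Z hZ
    exact sat_iff hn l fun t ht => hl t (hZ t ht)
  have hord : ∀ t ∈ ord C.n C.outs.length, t < C.outs.length + C.n := by
    intro t ht
    unfold ord at ht
    rw [List.mem_append, List.mem_reverse, List.mem_range, List.mem_map] at ht
    rcases ht with ht | ⟨i, hi, rfl⟩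
    · omega
    · rw [List.mem_range] at hi
      omega
  have hpair : (ord C.n C.outs.length).Pairwise (fun s r => r < C.outs.length →
      (r < s ∧ s < C.outs.length)) := by
    unfold ord
    rw [List.pairwise_append]
    refine ⟨?_, ?_, ?_⟩
    · rw [List.pairwise_reverse]
      refine List.Pairwise.imp_of_mem ?_ List.pairwise_lt_range
      intro a b ha hb hab _
      exact ⟨hab, List.mem_range.1 hb⟩
    · rw [List.pairwise_map]
      refine List.Pairwise.imp ?_ List.pairwise_lt_range
      intro a b _ h
      omega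
    · intro a _ b hb h
      obtain ⟨i, _, rfl⟩ := List.mem_map.1 hb
      omega
  obtain ⟨Z, hZ⟩ : ∃ Z, Z = greedy C.n (vec C) (ord C.n C.outs.length) := ⟨_, rfl⟩
  have hsat : Sat C.n (vec C) Z := by
    rw [hZ]
    exact greedy_sat hD _ hord [] (by simp) ⟨List.replicate C.n false, by simp, by simp⟩
  obtain ⟨x, hx, hxZ⟩ := hsat
  have hout : ∀ t ∈ ord C.n C.outs.length, t ∉ Z → ∃ Z1 : List ℕ, (∀ s ∈ Z1, s ∈ Z) ∧
      (∀ s ∈ Z1, t < C.outs.length → (t < s ∧ s < C.outs.length)) ∧
      ¬ Sat C.n (vec C) (t :: Z1) := by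
    intro t ht hnot
    rw [hZ] at hnot ⊢
    exact greedy_out hD _ hord [] (by simp) hpair (by simp) ht hnot
  have hsol : solve2 C = x := by
    refine ext_getD (by rw [length_solve2, hx]) fun i hi => ?_
    rw [length_solve2] at hi
    unfold solve2
    rw [List.getD_eq_getElem _ _ (by simpa using hi), List.getElem_map, List.getElem_range,
      ← hZ]
    by_cases hmem : C.outs.length + i ∈ Z
    · have := hxZ _ hmem
      rw [vec_ge] at this
      rw [this, decide_eq_true hmem]
      rfl
    · rw [decide_eq_false hmem]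
      obtain ⟨Z1, h3, _, h5⟩ := hout (C.outs.length + i) (by
        unfold ord
        exact List.mem_append_right _ (List.mem_map.2 ⟨i, List.mem_range.2 hi, rfl⟩)) hmem
      by_contra hcon
      apply h5
      refine ⟨x, hx, fun t ht => ?_⟩
      rcases List.mem_cons.1 ht with rfl | ht
      · rw [vec_ge]
        revert hcon
        cases x.getD i false <;> simp
      · exact hxZ t (h3 t ht)
  rw [hsol]
  refine ⟨hx, fun i hi => ?_⟩
  rw [Circuit.cost_eq, Circuit.cost_eq]
  have hy : (flip x i).length = C.n := by rw [length_flip, hx]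
  generalize flip x i = y at hy
  suffices h : ¬ val (C.out y) < val (C.out x) by omega
  rw [MPa0a715.val_lt_iff _ _ (by rw [length_out, length_out]), length_out]
  rintro ⟨r, hr, h3, h4, h5⟩
  have hrZ : r ∉ Z := by
    intro hmem
    have := hxZ r hmem
    rw [vec_lt hr, h4] at this
    exact absurd this (by simp)
  obtain ⟨Z1, h6, h7, h8⟩ := hout r (by
    unfold ord
    exact List.mem_append_left _ (List.mem_reverse.2 (List.mem_range.2 hr))) hrZ
  apply h8
  refine ⟨y, hy, fun t ht => ?_⟩
  rcases List.mem_cons.1 ht with rfl | ht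
  · rw [vec_lt hr]
    exact h3
  · obtain ⟨h9, h10⟩ := h7 t ht hr
    rw [vec_lt h10, h5 t h10 h9, ← vec_lt h10]
    exact hxZ t (h6 t ht)

/-! ### polynomial time -/

section
variable {α β γ : Type} [Enc α] [Enc β] [Enc γ]

theorem ptime_vec {C : α → Circuit} {x : α → List Bool} (hC : PTime C) (hx : PTime x) :
    PTime (fun a => vec (C a) (x a)) := (ptime_out hC hx).append hx

theorem ptime_neg {f : α → ℕ × Bool} (hf : PTime f) : PTime (fun a => neg (f a)) :=
  hf.fst'.pair hf.snd'.not

theorem ptime_pt {n : α → ℕ} {f g : α → ℕ × Bool} {b : Bool} (hn : PU n) (hf : PTime f)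
    (hg : PTime g) : PTime (fun a => pt (n a) (f a) (g a) b) := by
  refine PTime.map (g := fun (a : α) (k : ℕ) => if k = (f a).1 then (f a).2 else
    if k = (g a).1 then (g a).2 else b) hn.range ?_
  have hf' : PTime (fun p : α × ℕ => f p.1) := hf.comp PTime.fst
  have hg' : PTime (fun p : α × ℕ => g p.1) := hg.comp PTime.fst
  exact PTime.iteP (PTime.eq PTime.snd hf'.fst') hf'.snd'
    (PTime.iteP (PTime.eq PTime.snd hg'.fst') hg'.snd' (PTime.const b))

theorem ptime_edge {C : α → Circuit} {Z : α → List ℕ} {f g : α → ℕ × Bool} (hC : PTime C)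
    (hZ : PTime Z) (hf : PTime f) (hg : PTime g) :
    PTime (fun a => edge (C a).n (vec (C a)) (Z a) (f a) (g a)) := by
  have hn := pu_n hC
  have h1 : ∀ b, PTime (fun a => vec (C a) (pt (C a).n (f a) (neg (g a)) b)) := fun b =>
    ptime_vec hC (ptime_pt hn hf (ptime_neg hg))
  refine PTime.and (PTime.not (PTime.eq hf hg)) (PTime.any hZ ?_)
  have h2 : ∀ b, PTime (fun p : α × ℕ =>
      (vec (C p.1) (pt (C p.1).n (f p.1) (neg (g p.1)) b)).getD p.2 false) := fun b =>
    PTime.listGetD ((h1 b).comp PTime.fst) PTime.snd (PTime.const false)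
  exact PTime.and (h2 false) (h2 true)

theorem ptime_lits {n : α → ℕ} (hn : PU n) : PTime (fun a => lits (n a)) := by
  refine PTime.flatMap (g := fun (_ : α) (i : ℕ) => [(i, false), (i, true)]) hn.range ?_
  have hi : PTime (fun p : α × ℕ => p.2) := PTime.snd
  exact (hi.pair (PTime.const false)).cons ((hi.pair (PTime.const true)).cons (PTime.const []))

theorem ptime_pstep {C : α → Circuit} {Z : α → List ℕ} {S : α → List (ℕ × Bool)} (hC : PTime C)
    (hZ : PTime Z) (hS : PTime S) :
    PTime (fun a => pstep (C a).n (vec (C a)) (Z a) (S a)) := by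
  refine PTime.filter (g := fun (a : α) (b : ℕ × Bool) => decide (b ∈ S a) ||
    (S a).any fun c => edge (C a).n (vec (C a)) (Z a) c b) (ptime_lits (pu_n hC)) ?_
  refine PTime.or (PTime.mem PTime.snd (hS.comp PTime.fst)) (PTime.any (hS.comp PTime.fst) ?_)
  have hC' : PTime (fun p : (α × (ℕ × Bool)) × (ℕ × Bool) => C p.1.1) :=
    hC.comp (PTime.fst' PTime.fst)
  have hZ' : PTime (fun p : (α × (ℕ × Bool)) × (ℕ × Bool) => Z p.1.1) :=
    hZ.comp (PTime.fst' PTime.fst)
  exact ptime_edge hC' hZ' PTime.snd (PTime.snd' PTime.fst)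

theorem ptime_rset {C : α → Circuit} {Z : α → List ℕ} {f : α → ℕ × Bool} (hC : PTime C)
    (hZ : PTime Z) (hf : PTime f) :
    PTime (fun a => rset (C a).n (vec (C a)) (Z a) (f a)) := by
  have hL := ptime_lits (pu_n hC)
  have hg : PTime (fun a => [f a]) := hf.cons (PTime.const [])
  obtain ⟨F, hF, _, hFs⟩ := hL.size_le
  obtain ⟨F', hF', _, hFs'⟩ := hg.size_le
  have hC' : PTime (fun p : α × (List (ℕ × Bool) × (ℕ × Bool)) => C p.1) := hC.comp PTime.fst
  have hZ' : PTime (fun p : α × (List (ℕ × Bool) × (ℕ × Bool)) => Z p.1) := hZ.comp PTime.fst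
  refine PTime.foldl (h := fun a S _ => pstep (C a).n (vec (C a)) (Z a) S) hL hg
    (ptime_pstep hC' hZ' (PTime.fst' PTime.snd)) (B := fun k => F k + F' k) (hF.add hF') ?_
  intro a l₁ l₂ _
  rw [foldl_const]
  cases l₁.length with
  | zero =>
    have := hFs' a
    rw [Function.iterate_zero, id]
    omega
  | succ k =>
    rw [Function.iterate_succ_apply']
    have h1 : size (enc (pstep (C a).n (vec (C a)) (Z a)
        ((pstep (C a).n (vec (C a)) (Z a))^[k] [f a]))) ≤ size (enc (lits (C a).n)) :=
      size_sublist List.filter_sublist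
    have := hFs a
    omega

theorem ptime_conf {n : α → ℕ} {S : α → List (ℕ × Bool)} (hn : PU n) (hS : PTime S) :
    PTime (fun a => conf (n a) (S a)) := by
  refine PTime.any hn.range ?_
  have hS' : PTime (fun p : α × ℕ => S p.1) := hS.comp PTime.fst
  have hi : PTime (fun p : α × ℕ => p.2) := PTime.snd
  exact PTime.and (PTime.mem (hi.pair (PTime.const false)) hS')
    (PTime.mem (hi.pair (PTime.const true)) hS')

theorem ptime_sat {C : α → Circuit} {Z : α → List ℕ} (hC : PTime C) (hZ : PTime Z) :
    PTime (fun a => sat (C a).n (vec (C a)) (Z a)) := by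
  have hn := pu_n hC
  refine PTime.all hn.range ?_
  have hC' : PTime (fun p : α × ℕ => C p.1) := hC.comp PTime.fst
  have hZ' : PTime (fun p : α × ℕ => Z p.1) := hZ.comp PTime.fst
  have hi : PTime (fun p : α × ℕ => p.2) := PTime.snd
  exact PTime.or (PTime.not (ptime_conf (pu_n hC') (ptime_rset hC' hZ'
    (hi.pair (PTime.const false))))) (PTime.not (ptime_conf (pu_n hC') (ptime_rset hC' hZ'
    (hi.pair (PTime.const true)))))

theorem ptime_ord {n m : α → ℕ} (hn : PU n) (hm : PU m) : PTime (fun a => ord (n a) (m a)) := by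
  refine (PTime.reverse hm.range).append (PTime.map (g := fun (a : α) (i : ℕ) => m a + i)
    hn.range ?_)
  exact (hm.toNat.comp PTime.fst).add PTime.snd

theorem greedy_sublist {n : ℕ} {V : List Bool → List Bool} (L : List ℕ) :
    (greedy n V L).Sublist L.reverse := by
  unfold greedy
  induction L using List.reverseRecOn with
  | nil => exact List.Sublist.refl _
  | append_singleton L t ih =>
    rw [List.foldl_append, List.foldl_cons, List.foldl_nil, List.reverse_append,
      List.reverse_singleton, List.singleton_append]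
    unfold gstep
    split_ifs
    · exact List.Sublist.cons_cons _ ih
    · exact List.Sublist.cons _ ih

theorem size_reverse (l : List α) : size (enc l.reverse) = size (enc l) := by
  induction l with
  | nil => rfl
  | cons x l ih =>
    rw [List.reverse_cons]
    have h1 := size_append l.reverse [x]
    have h2 := size_lcons x ([] : List α)
    have h3 := size_lcons x l
    have h4 : size (enc ([] : List α)) = 1 := by simp [enc_nil]
    omega

theorem ptime_solve2 : PTime solve2 := by
  have hC : PTime (fun C : Circuit => C) := PTime.id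
  have hn := pu_n hC
  have hm := PU.ofLength (ptime_outs hC)
  have hL := ptime_ord hn hm
  have hG : PTime (fun C : Circuit => greedy C.n (vec C) (ord C.n C.outs.length)) := by
    obtain ⟨F, hF, _, hFs⟩ := hL.size_le
    have hC' : PTime (fun p : Circuit × (List ℕ × ℕ) => p.1) := PTime.fst
    have hZ' : PTime (fun p : Circuit × (List ℕ × ℕ) => p.2.1) := PTime.fst' PTime.snd
    have ht' : PTime (fun p : Circuit × (List ℕ × ℕ) => p.2.2) := PTime.snd' PTime.snd
    have hstep : PTime (fun p : Circuit × (List ℕ × ℕ) => gstep p.1.n (vec p.1) p.2.1 p.2.2) :=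
      PTime.iteP (ptime_sat hC' (ht'.cons hZ')).boolP (ht'.cons hZ') hZ'
    refine PTime.foldl (h := fun C Z t => gstep C.n (vec C) Z t) hL (PTime.const []) hstep
      (B := F) hF ?_
    intro C l₁ l₂ hl
    have h1 : size (enc (greedy C.n (vec C) l₁)) ≤ size (enc l₁.reverse) :=
      size_sublist (greedy_sublist l₁)
    rw [size_reverse] at h1
    have h2 := size_append l₁ l₂
    have h3 := hFs C
    rw [hl] at h3
    have h4 := size_pos (enc l₂)
    change size (enc (greedy C.n (vec C) l₁)) ≤ _
    omega
  refine PTime.map (g := fun (C : Circuit) (i : ℕ) =>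
    !decide (C.outs.length + i ∈ greedy C.n (vec C) (ord C.n C.outs.length))) hn.range ?_
  exact PTime.not (PTime.mem ((hm.toNat.comp PTime.fst).add PTime.snd) (hG.comp PTime.fst))

end

end Pool.Agent.MPa0a715.TL
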