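import Mathlib
import Pool.Agent.Lib.MP_a0a715_lc.Sem

/-!
# The system of conjunctions of at most three literals

Two copies of a circuit, in dual-rail encoding, run in turn; all conditions are conjunctions of at
most three literals which should be false, ordered by priority.
-/

namespace Pool.Agent.MPa0a715.TL

open Pool.Agent.MPa0a715

/-- the variables -/
inductive Var
  | y
  | e (c : Bool)
  | v (c : Bool) (i : ℕ)
  | r (c s : Bool) (t : ℕ)
  | d (c : Bool) (i : ℕ)
  | f (j : ℕ)
  | p (c : Bool) (j : ℕ)
  | u (c : Bool) (j : ℕ)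
  | m (j : ℕ)
  deriving DecidableEq

/-- number of the kind of a variable -/
def Var.kind : Var → ℕ
  | .y => 0
  | .e _ => 1
  | .v c _ => if c then 3 else 2
  | .r c s _ => if c then (if s then 7 else 6) else (if s then 5 else 4)
  | .d c _ => if c then 9 else 8
  | .f _ => 10
  | .p c _ => if c then 12 else 11
  | .u c _ => if c then 14 else 13
  | .m _ => 15

/-- index of a variable -/
def Var.ix : Var → ℕ
  | .y => 0
  | .e c => if c then 1 else 0
  | .v _ i => i
  | .r _ _ t => t
  | .d _ i => i
  | .f j => j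
  | .p _ j => j
  | .u _ j => j
  | .m j => j

/-- the variable with given kind and index -/
def Var.of (k x : ℕ) : Var :=
  match k with
  | 0 => .y
  | 1 => .e (decide (x = 1))
  | 2 => .v false x
  | 3 => .v true x
  | 4 => .r false false x
  | 5 => .r false true x
  | 6 => .r true false x
  | 7 => .r true true x
  | 8 => .d false x
  | 9 => .d true x
  | 10 => .f x
  | 11 => .p false x
  | 12 => .p true x
  | 13 => .u false x
  | 14 => .u true x
  | _ => .m x

theorem Var.of_kind (a : Var) : Var.of a.kind a.ix = a := by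
  cases a with
  | y => rfl
  | e c => cases c <;> rfl
  | v c i => cases c <;> rfl
  | r c s t => cases c <;> cases s <;> rfl
  | d c i => cases c <;> rfl
  | f j => rfl
  | p c j => cases c <;> rfl
  | u c j => cases c <;> rfl
  | m j => rfl

theorem Var.kind_lt (a : Var) : a.kind < 16 := by
  cases a with
  | y => simp [Var.kind]
  | e c => simp [Var.kind]
  | v c i => cases c <;> simp [Var.kind]
  | r c s t => cases c <;> cases s <;> simp [Var.kind]
  | d c i => cases c <;> simp [Var.kind]
  | f j => simp [Var.kind]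
  | p c j => cases c <;> simp [Var.kind]
  | u c j => cases c <;> simp [Var.kind]
  | m j => simp [Var.kind]

/-- conjunctions of literals -/
abbrev Tm := List (Var × Bool)

/-- the conjunction is true in the state -/
def tv (X : Var → Bool) (T : Tm) : Prop := ∀ p ∈ T, X p.1 = p.2

/-- the implications at a gate -/
def impG (c : Bool) (t : ℕ) : Gate → List Tm
  | .and i j => [[(.r c true i, true), (.r c true j, true), (.r c true t, false)],
      [(.r c false i, true), (.r c false t, false)],
      [(.r c false j, true), (.r c false t, false)]]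
  | .or i j => [[(.r c false i, true), (.r c false j, true), (.r c false t, false)],
      [(.r c true i, true), (.r c true t, false)],
      [(.r c true j, true), (.r c true t, false)]]
  | .not i => [[(.r c false i, true), (.r c true t, false)],
      [(.r c true i, true), (.r c false t, false)]]

/-- the implications for the rails of wire `t` in copy `c` -/
def imps (n : ℕ) (G : List Gate) (c : Bool) (t : ℕ) : List Tm :=
  if t < n then [[(.v c t, true), (.r c true t, false)], [(.v c t, false), (.r c false t, false)]]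
  else match G[t - n]? with
    | none => []
    | some g => impG c t g

/-- the kinds of conditions -/
inductive Con
  | ee (c : Bool)
  | im (c : Bool) (t : ℕ) (T : Tm)
  | ex (c : Bool) (t : ℕ)
  | dd (c b : Bool) (i : ℕ)
  | ff (j : ℕ)
  | fg (b : Bool) (j : ℕ)
  | p1 (c : Bool) (j : ℕ)
  | p2 (c : Bool) (j : ℕ)
  | p3 (c : Bool) (j : ℕ)
  | u1 (c : Bool) (j : ℕ)
  | u2 (c : Bool) (j : ℕ)
  | aa (c : Bool) (j : ℕ)
  | mm (j : ℕ)
  | rr (c : Bool) (j i : ℕ)
  | tt (c : Bool) (j : ℕ)
  | s6 (c : Bool) (i : ℕ)
  | s8 (c : Bool)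
  | s7 (c b : Bool) (x : Var)
  | s9 (c : Bool) (x : Var)
  | sx (x : Var)
  | s4 (c b : Bool) (i : ℕ)

/-- variables controlled by the flag `e c` -/
def grp (n W K : ℕ) (c : Bool) : Var → Prop
  | .r c' _ t => c' = c ∧ t < W
  | .d c' i => c' = c ∧ i < n
  | .u c' j => c' = c ∧ j < K
  | _ => False

/-- variables controlled by both flags -/
def dgrp (K : ℕ) : Var → Prop
  | .f j => j < K
  | .p _ j => j < K
  | _ => False

section
variable (n : ℕ) (G : List Gate) (K : ℕ) (w z : List ℕ)

/-- the conditions that are present -/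
def Con.Ok : Con → Prop
  | .ee _ => True
  | .im c t T => t < n + G.length ∧ T ∈ imps n G c t
  | .ex _ t => t < n + G.length
  | .dd _ _ i => i < n
  | .ff j => j + 1 < K
  | .fg _ j => j + 1 < K
  | .p1 _ j => j < K
  | .p2 _ j => j < K
  | .p3 _ j => j < K
  | .u1 _ j => j < K
  | .u2 _ j => j < K
  | .aa _ j => j < K
  | .mm j => j < K
  | .rr _ j i => i < j ∧ j < K
  | .tt _ j => j < K
  | .s6 _ i => i < n
  | .s8 _ => True
  | .s7 c _ x => grp n (n + G.length) K c x
  | .s9 _ x => dgrp K x
  | .sx x => dgrp K x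
  | .s4 _ _ i => i < n

/-- the conjunction which should be false -/
def Con.term : Con → Tm
  | .ee c => [(.y, c), (.e c, false)]
  | .im _ _ T => T
  | .ex c t => [(.y, c), (.r c true t, true), (.r c false t, true)]
  | .dd c b i => [(.v (!c) i, b), (.r c (!b) (w.getD i 0), true), (.d c i, false)]
  | .ff j => [(.f (j + 1), true), (.f j, false)]
  | .fg b j => [(.r false b (z.getD (j + 1) 0), true), (.r true (!b) (z.getD (j + 1) 0), true),
      (.f j, false)]
  | .p1 c j => [(.f j, true), (.p c j, false)]
  | .p2 c j => [(.r c false (z.getD j 0), true), (.p c j, false)]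
  | .p3 c j => [(.r (!c) true (z.getD j 0), true), (.p c j, false)]
  | .u1 c j => [(.r c true (z.getD j 0), true), (.p c j, true), (.u c j, false)]
  | .u2 c j => [(.r c true (z.getD j 0), true), (.e (!c), false), (.u c j, false)]
  | .aa c j => [(.y, c), (.u c j, true), (.m j, false)]
  | .mm j => [(.m j, true)]
  | .rr c j i => [(.p c j, false), (.m j, false), (.m i, false)]
  | .tt c j => [(.y, c), (.r c true (z.getD j 0), true), (.m j, false)]
  | .s6 c i => [(.y, c), (.d c i, true), (.e (!c), true)]
  | .s8 c => [(.e c, false)]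
  | .s7 c b x => [(.e c, b), (x, b)]
  | .s9 c x => [(.e c, false), (x, false)]
  | .sx x => [(x, true)]
  | .s4 c b i => [(.y, c), (.v (!c) i, b), (.r c (!b) (w.getD i 0), true)]

/-- first part of the priority (0 is the highest) -/
def Con.maj : Con → ℕ
  | .ee _ => 0
  | .im _ _ _ => 1
  | .ex _ _ => 1
  | .dd _ _ _ => 2
  | .ff _ => 3
  | .fg _ _ => 3
  | .p1 _ _ => 4
  | .p2 _ _ => 4
  | .p3 _ _ => 4
  | .u1 _ _ => 5
  | .u2 _ _ => 5
  | .aa _ _ => 6
  | .mm _ => 7
  | .rr _ _ _ => 7
  | .tt _ _ => 8
  | .s6 _ _ => 9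
  | .s8 _ => 10
  | .s7 _ _ _ => 11
  | .s9 _ _ => 12
  | .sx _ => 13
  | .s4 _ _ _ => 14

/-- second part of the priority -/
def Con.mino : Con → ℕ
  | .im _ t _ => 2 * t
  | .ex _ t => 2 * t + 1
  | .ff j => K - j
  | .fg _ j => K - j
  | .mm j => 2 * (K - j)
  | .rr _ j _ => 2 * (K - j) + 1
  | _ => 0

/-- at least as important -/
def Con.le (κ κ0 : Con) : Prop :=
  κ.maj < κ0.maj ∨ (κ.maj = κ0.maj ∧ κ.mino K ≤ κ0.mino K)

/-- bound for the indices -/
def bnd : ℕ := n + G.length + K + 2

/-- the state cannot be improved by a flip -/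
def Min (X : Var → Bool) : Prop :=
  ∀ (κ0 : Con) (a : Var) (b : Bool), κ0.Ok n G K → a.ix < bnd n G K → X a = b →
    (a, b) ∈ κ0.term w z → tv X (κ0.term w z) →
    (∀ κ : Con, κ.Ok n G K → κ.le K κ0 → (a, !b) ∈ κ.term w z →
      ∃ p ∈ κ.term w z, p.1 ≠ a ∧ X p.1 ≠ p.2) → False

end

/-- wires of valid circuits read inputs or earlier wires -/
def GV (n : ℕ) (G : List Gate) : Prop := ∀ (k : ℕ) (h : k < G.length), ∀ r ∈ G[k].refs, r < n + k

theorem imps_lit {n : ℕ} {G : List Gate} (hG : GV n G) {c : Bool} {t : ℕ}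
    (ht : t < n + G.length) {T : Tm} (hT : T ∈ imps n G c t) {q : Var × Bool} (hq : q ∈ T) :
    (∃ b, q = (.v c t, b) ∧ t < n) ∨ (∃ s i, q = (.r c s i, true) ∧ i < t) ∨
      ∃ s, q = (.r c s t, false) := by
  unfold imps at hT
  split_ifs at hT with h
  · simp only [List.mem_cons, List.not_mem_nil, or_false] at hT
    rcases hT with rfl | rfl <;>
    simp only [List.mem_cons, List.not_mem_nil, or_false] at hq <;>
    rcases hq with rfl | rfl
    · exact Or.inl ⟨_, rfl, h⟩
    · exact Or.inr (Or.inr ⟨_, rfl⟩)
    · exact Or.inl ⟨_, rfl, h⟩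
    · exact Or.inr (Or.inr ⟨_, rfl⟩)
  · have hk : t - n < G.length := by omega
    rw [List.getElem?_eq_getElem hk] at hT
    have hr := hG _ hk
    generalize G[t - n] = g at hT hr
    have hr' : ∀ i ∈ g.refs, i < t := fun i hi => by
      have := hr i hi
      omega
    cases g with
    | and i j =>
      have hi := hr' i (by simp [Gate.refs])
      have hj := hr' j (by simp [Gate.refs])
      simp only [impG, List.mem_cons, List.not_mem_nil, or_false] at hT
      rcases hT with rfl | rfl | rfl <;>
      simp only [List.mem_cons, List.not_mem_nil, or_false] at hq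
      · rcases hq with rfl | rfl | rfl
        · exact Or.inr (Or.inl ⟨_, _, rfl, hi⟩)
        · exact Or.inr (Or.inl ⟨_, _, rfl, hj⟩)
        · exact Or.inr (Or.inr ⟨_, rfl⟩)
      · rcases hq with rfl | rfl
        · exact Or.inr (Or.inl ⟨_, _, rfl, hi⟩)
        · exact Or.inr (Or.inr ⟨_, rfl⟩)
      · rcases hq with rfl | rfl
        · exact Or.inr (Or.inl ⟨_, _, rfl, hj⟩)
        · exact Or.inr (Or.inr ⟨_, rfl⟩)
    | or i j =>
      have hi := hr' i (by simp [Gate.refs])
      have hj := hr' j (by simp [Gate.refs])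
      simp only [impG, List.mem_cons, List.not_mem_nil, or_false] at hT
      rcases hT with rfl | rfl | rfl <;>
      simp only [List.mem_cons, List.not_mem_nil, or_false] at hq
      · rcases hq with rfl | rfl | rfl
        · exact Or.inr (Or.inl ⟨_, _, rfl, hi⟩)
        · exact Or.inr (Or.inl ⟨_, _, rfl, hj⟩)
        · exact Or.inr (Or.inr ⟨_, rfl⟩)
      · rcases hq with rfl | rfl
        · exact Or.inr (Or.inl ⟨_, _, rfl, hi⟩)
        · exact Or.inr (Or.inr ⟨_, rfl⟩)
      · rcases hq with rfl | rfl
        · exact Or.inr (Or.inl ⟨_, _, rfl, hj⟩)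
        · exact Or.inr (Or.inr ⟨_, rfl⟩)
    | not i =>
      have hi := hr' i (by simp [Gate.refs])
      simp only [impG, List.mem_cons, List.not_mem_nil, or_false] at hT
      rcases hT with rfl | rfl <;>
      simp only [List.mem_cons, List.not_mem_nil, or_false] at hq
      · rcases hq with rfl | rfl
        · exact Or.inr (Or.inl ⟨_, _, rfl, hi⟩)
        · exact Or.inr (Or.inr ⟨_, rfl⟩)
      · rcases hq with rfl | rfl
        · exact Or.inr (Or.inl ⟨_, _, rfl, hi⟩)
        · exact Or.inr (Or.inr ⟨_, rfl⟩)

/-- every implication has a conclusion -/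
theorem imps_concl {n : ℕ} {G : List Gate} {c : Bool} {t : ℕ} {T : Tm}
    (hT : T ∈ imps n G c t) : ∃ s, (Var.r c s t, false) ∈ T := by
  unfold imps at hT
  split_ifs at hT with h
  · simp only [List.mem_cons, List.not_mem_nil, or_false] at hT
    rcases hT with rfl | rfl
    · exact ⟨true, by simp⟩
    · exact ⟨false, by simp⟩
  · revert hT
    cases G[t - n]? with
    | none => intro hT; exact absurd hT List.not_mem_nil
    | some g =>
      intro hT
      cases g <;> simp only [impG, List.mem_cons, List.not_mem_nil, or_false] at hT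
      · rcases hT with rfl | rfl | rfl
        · exact ⟨true, by simp⟩
        · exact ⟨false, by simp⟩
        · exact ⟨false, by simp⟩
      · rcases hT with rfl | rfl | rfl
        · exact ⟨false, by simp⟩
        · exact ⟨true, by simp⟩
        · exact ⟨true, by simp⟩
      · rcases hT with rfl | rfl
        · exact ⟨true, by simp⟩
        · exact ⟨false, by simp⟩

end Pool.Agent.MPa0a715.TL
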