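import Pool.Agent.Lib.PolyTime.Converse
import Pool.Agent.Lib.MP_a0a715_lc.Easy
import Pool.Agent.Lib.MP_a0a715_lc_TL.PTRed
import Pool.Agent.Lib.MP_a0a715_lc_TL.Solve2

/-!
# Circuit-FLIP when every output is a conjunction of few literals

Circuit-FLIP restricted to circuits in which every output is a conjunction of at most two input
literals has a polynomial-time solver.  Circuit-FLIP without restriction reduces, in the sense of
PLS, to Circuit-FLIP restricted to circuits in which every output is a conjunction of at most
three input literals.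
-/

namespace Pool.Agent.Results.MP_a0a715_lc.ThreeLiteralOutputs

open Pool.Agent.PolyTime Pool.Agent.MPa0a715 Pool.Agent.MPa0a715.TL

/-- If every output is a conjunction of at most two input literals, local minima are found in
polynomial time. Circuit-FLIP without restriction reduces, in the sense of PLS, to Circuit-FLIP for
circuits in which every output is a conjunction of at most three input literals; so the latter has
a polynomial-time solver if and only if Circuit-FLIP without restriction has one. -/
theorem result :
    HasSolver (Circuit.ConjOuts 2) ∧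
    PLSReduces (fun _ => True) (Circuit.ConjOuts 3) ∧
    (HasSolver (Circuit.ConjOuts 3) ↔ HasSolver (fun _ => True)) := by
  have hn := pu_n (PTime.id (α := Circuit))
  have hn1 : PTime (fun C : Circuit => decide (C.n ≤ 1)) := PTime.le hn.toNat (PTime.const 1)
  have hred : PLSReduces (fun _ => True) (Circuit.ConjOuts 3) := by
    refine ⟨fun C => if C.n ≤ 1 then ⟨0, [], []⟩ else sys C.n (nextC C),
      fun p => if p.1.n ≤ 1 then easy p.1 else
        dcd p.1.n (bnd p.1.n (nextC p.1).gates ((nextC p.1).outs.length - p.1.n)) p.2,
      ?_, ?_, ?_⟩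
    · exact (PTime.iteP hn1 (PTime.const _) ptime_sys).isPolyTime
    · exact (PTime.iteP (hn1.comp PTime.fst) (ptime_easy.comp PTime.fst) ptime_dcd).isPolyTime
    · intro C hC _
      dsimp only
      split_ifs with h1
      · exact ⟨⟨fun k hk => absurd hk (Nat.not_lt_zero k), fun o ho => absurd ho
          List.not_mem_nil⟩, fun o ho => absurd ho List.not_mem_nil, fun y _ => easy_small h1⟩
      · have h2 : 0 < C.n := by omega
        exact ⟨sys_valid hC h2, sys_conj hC h2, fun s hs => sys_correct hC h2 hs⟩
  refine ⟨⟨solve2, ptime_solve2.isPolyTime, fun C _ h => solve2_correct h⟩, hred, ?_, ?_⟩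
  · rintro ⟨f, hf, hfC⟩
    obtain ⟨g, h, hg, hh, hgh⟩ := hred
    have hf' := isPolyTime_iff.1 hf
    have hg' := isPolyTime_iff.1 hg
    have hh' := isPolyTime_iff.1 hh
    refine ⟨fun C => h (C, f (g C)), (hh'.comp (PTime.id.pair (hf'.comp hg'))).isPolyTime, ?_⟩
    intro C hC hK
    obtain ⟨h1, h2, h3⟩ := hgh C hC hK
    exact h3 _ (hfC _ h1 h2)
  · rintro ⟨f, hf, h⟩
    exact ⟨f, hf, fun C hC _ => h C hC trivial⟩

end Pool.Agent.Results.MP_a0a715_lc.ThreeLiteralOutputs
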